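import Pool.Agent.P.MP_708877_co.Final

/-!
Classification of the finite uniform polyhedra in Euclidean 3-space that have more than 120
vertices or an axial vertex-transitive group of symmetries.
-/

namespace Pool.Agent.P.MP_708877_co.AxialClassification

open Pool.Agent.P.MP_708877_co

theorem result (P : Set (Set (Sym2 E3))) (hfin : (verts P).Finite) :
    (IsUniform P ∧ (120 < (verts P).ncard ∨ IsAxial P)) ↔
      ∃ (c : ℝ) (g : E3 ≃ᵢ E3) (Q : Set (Set (Sym2 E3))),
        0 < c ∧ IsModel Q ∧ P = image (fun x => c • g x) Q := by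
  constructor
  · exact fun h => classification hfin h.1 h.2
  · rintro ⟨c, g, Q, hc, hQ, rfl⟩
    exact ⟨hQ.uniform.sim hc.ne' g, Or.inr (hQ.axial.sim hc.ne' g)⟩

end Pool.Agent.P.MP_708877_co.AxialClassification
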