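import Pool.Agent.P.MP_708877_co.Master

/-!
The list in coordinates and the list on the level of parameters agree.
-/

namespace Pool.Agent.P.MP_708877_co

open Real

/-- The horizontal step. -/
noncomputable def stH (a : ℝ) : G0 := ((a : Angle), 0)

/-- The slanted step. -/
noncomputable def stS (b : ℝ) : G0 := ((b : Angle), 1)

theorem sg_intCast (j : ℤ) : sg (j : ZMod 2) = (-1) ^ j := by
  induction j using Int.induction_on with
  | zero => simp
  | succ j ih =>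
    rw [zpow_add_one₀ (by norm_num), ← ih, Int.cast_add, sg_add]
    simp
  | pred j ih =>
    rw [zpow_sub_one₀ (by norm_num), ← ih, Int.cast_sub, sg_sub]
    simp

theorem pt_eq (a b h : ℝ) (i j : ℤ) : pt a b h i j = ptG h (i • stH a + j • stS b) := by
  have e : (i • stH a + j • stS b).1 = ((i * a + j * b : ℝ) : Angle) := by
    simp [stH, stS]
  have e' : (i • stH a + j • stS b).2 = (j : ZMod 2) := by simp [stH, stS]
  unfold pt ptG
  rw [e, e', sg_intCast, Angle.cos_coe, Angle.sin_coe]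

theorem orb_eq (a b h : ℝ) {ι : Type} [Add ι] [One ι] (w : ι → ℤ × ℤ) {Φ : G0 → Set (Sym2 G0)}
    (hΦ : ∀ x, (edges fun k => x + ((w k).1 • stH a + (w k).2 • stS b)) = Φ x) :
    orb a b h w = image (ptG h) (fam (gen2 (stH a) (stS b)) Φ) := by
  have key : ∀ i j : ℤ, (edges fun k => pt a b h (i + (w k).1) (j + (w k).2)) =
      Sym2.map (ptG h) '' Φ (i • stH a + j • stS b) := by
    intro i j
    rw [← hΦ, image_edges]
    congr 1
    funext k
    rw [pt_eq]
    congr 1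
    module
  ext F
  constructor
  · rintro ⟨i, j, rfl⟩
    exact ⟨_, ⟨_, mem_gen2.2 ⟨i, j, rfl⟩, rfl⟩, (key i j).symm⟩
  · rintro ⟨_, ⟨x, hx, rfl⟩, rfl⟩
    obtain ⟨i, j, rfl⟩ := mem_gen2.1 hx
    exact ⟨i, j, (key i j).symm⟩

section shapes
variable {G : Type} [AddCommGroup G] (α β x : G)

theorem shape_K : (edges fun k : Fin 4 => x + ((![((0 : ℤ), (0 : ℤ)), (1, 0), (1, 1), (0, 1)] k).1 • α +
    (![((0 : ℤ), (0 : ℤ)), (1, 0), (1, 1), (0, 1)] k).2 • β)) = fK α β x := by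
  have : (fun k : Fin 4 => x + ((![((0 : ℤ), (0 : ℤ)), (1, 0), (1, 1), (0, 1)] k).1 • α +
      (![((0 : ℤ), (0 : ℤ)), (1, 0), (1, 1), (0, 1)] k).2 • β)) =
      ![x, x + α, x + α + β, x + β] := by
    funext k
    fin_cases k <;> simp [add_assoc]
  rw [this, edges_four]
  ext e
  simp only [fK, Set.mem_ofPred_eq, add_right_comm x β α,
    Sym2.eq_swap (a := x + β) (b := x), Sym2.eq_swap (a := x + α + β) (b := x + β)]
  tauto

variable {α β}

theorem shape_Z (h2 : α + β + (α + β) = 0) :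
    (edges fun k : Fin 4 => x + ((![((0 : ℤ), (0 : ℤ)), (1, 0), (1, 1), (2, 1)] k).1 • α +
    (![((0 : ℤ), (0 : ℤ)), (1, 0), (1, 1), (2, 1)] k).2 • β)) = fZ α β x := by
  have : (fun k : Fin 4 => x + ((![((0 : ℤ), (0 : ℤ)), (1, 0), (1, 1), (2, 1)] k).1 • α +
      (![((0 : ℤ), (0 : ℤ)), (1, 0), (1, 1), (2, 1)] k).2 • β)) =
      ![x, x + α, x + α + β, x + α + β + α] := by
    funext k
    fin_cases k <;> simp <;> module
  have e1 : x + α + β + α + β = x := by linear_combination (norm := abel1) h2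
  rw [this, edges_four]
  ext e
  simp only [fZ, Set.mem_ofPred_eq, e1]
  tauto

theorem shape_T (hw : β + β + α = 0) :
    (edges fun k : Fin 3 => x + ((![((0 : ℤ), (0 : ℤ)), (0, 1), (0, 2)] k).1 • α +
    (![((0 : ℤ), (0 : ℤ)), (0, 1), (0, 2)] k).2 • β)) = fP β α x := by
  have : (fun k : Fin 3 => x + ((![((0 : ℤ), (0 : ℤ)), (0, 1), (0, 2)] k).1 • α +
      (![((0 : ℤ), (0 : ℤ)), (0, 1), (0, 2)] k).2 • β)) = ![x, x + β, x + β + β] := by
    funext k
    fin_cases k <;> simp <;> module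
  have e1 : x + β + β + α = x := by linear_combination (norm := abel1) hw
  rw [this, edges_three]
  ext e
  simp only [fP, Set.mem_ofPred_eq, hw, add_zero, e1]
  tauto

theorem shape_D (h2 : α + α + β + (α + α + β) = 0) :
    (edges fun k : Fin 6 => x +
      ((![((0 : ℤ), (0 : ℤ)), (1, 0), (2, 0), (2, 1), (3, 1), (4, 1)] k).1 • α +
      (![((0 : ℤ), (0 : ℤ)), (1, 0), (2, 0), (2, 1), (3, 1), (4, 1)] k).2 • β)) = fP α β x := by
  have : (fun k : Fin 6 => x +
      ((![((0 : ℤ), (0 : ℤ)), (1, 0), (2, 0), (2, 1), (3, 1), (4, 1)] k).1 • α +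
      (![((0 : ℤ), (0 : ℤ)), (1, 0), (2, 0), (2, 1), (3, 1), (4, 1)] k).2 • β)) =
      ![x, x + α, x + α + α, x + (α + α + β), x + (α + α + β) + α, x + (α + α + β) + α + α] := by
    funext k
    fin_cases k <;> simp <;> module
  have e1 : x + α + α + β = x + (α + α + β) := by abel
  have e2 : x + (α + α + β) + α + α + β = x := by linear_combination (norm := abel1) h2
  rw [this, edges_six]
  ext e
  simp only [fP, Set.mem_ofPred_eq, e1, e2]
  tauto

end shapes

theorem orb_H (a b h : ℝ) : (orb a b h fun k : ℤ => (k, 0)) =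
    image (ptG h) (fam (gen2 (stH a) (stS b)) (line (stH a))) :=
  orb_eq a b h _ fun x => by simp [line]

theorem orb_S (a b h : ℝ) : (orb a b h fun k : ℤ => (0, k)) =
    image (ptG h) (fam (gen2 (stH a) (stS b)) (line (stS b))) :=
  orb_eq a b h _ fun x => by simp [line]

theorem two_eq_zero (x : G0) : x + x = 0 ↔ x.1.sin = 0 := by
  rw [Angle.sin_eq_zero_iff, ← Angle.two_nsmul_eq_zero_iff, Prod.ext_iff, two_nsmul]
  have : x.2 + x.2 = 0 := by generalize x.2 = e; revert e; decide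
  simp [this]

theorem two_stH (a : ℝ) : stH a + stH a = 0 ↔ sin a = 0 := by rw [two_eq_zero]; simp [stH]

theorem two_stS (b : ℝ) : stS b + stS b = 0 ↔ sin b = 0 := by rw [two_eq_zero]; simp [stS]

theorem ker_st (a b h : ℝ) : ker h (stH a) = ker h (stS b) ↔ cos b - cos a = 2 * h ^ 2 := by
  simp only [ker, stH, stS, Angle.cos_coe, sg_zero, sg_one]
  constructor <;> intro e <;> linarith

theorem rel_T (b : ℝ) : stS b + stS b + stH (-2 * b) = 0 := by
  refine Prod.ext ?_ (by simp [stH, stS, zmod2_one_add])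
  change (b : Angle) + b + ((-2 * b : ℝ) : Angle) = 0
  rw [← Angle.coe_add, ← Angle.coe_add, ← Angle.coe_zero]
  congr 1
  ring

theorem rel_D (a : ℝ) : stH a + stH a + stS (π - 2 * a) = om := by
  refine Prod.ext ?_ (by simp [stH, stS, om])
  change (a : Angle) + a + ((π - 2 * a : ℝ) : Angle) = (π : ℝ)
  rw [← Angle.coe_add, ← Angle.coe_add]
  congr 1
  ring

theorem rel_Z (a : ℝ) : stH a + stS (π - a) = om := by
  refine Prod.ext ?_ (by simp [stH, stS, om])
  change (a : Angle) + ((π - a : ℝ) : Angle) = (π : ℝ)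
  rw [← Angle.coe_add]
  congr 1
  ring

theorem exists_stH {α : G0} (hα : α.2 = 0) : ∃ a, α = stH a :=
  ⟨α.1.toReal, Prod.ext (by simp [stH]) hα⟩

theorem exists_stS {β : G0} (hβ : β.2 = 1) : ∃ b, β = stS b :=
  ⟨β.1.toReal, Prod.ext (by simp [stS]) hβ⟩

theorem isModel_iff {Q : Set (Set (Sym2 E3))} :
    IsModel Q ↔ ∃ h : ℝ, 0 < h ∧ ∃ P, GModel h P ∧ Q = image (ptG h) P := by
  have oK := fun a b h => orb_eq a b h _ (shape_K (stH a) (stS b))
  have oZ := fun a h => orb_eq a (π - a) h _ fun x => shape_Z x (by rw [rel_Z, om_add])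
  have oT := fun b h => orb_eq (-2 * b) b h _ fun x => shape_T x (rel_T b)
  have oD := fun a h => orb_eq a (π - 2 * a) h _ fun x => shape_D x (by rw [rel_D, om_add])
  constructor
  · rintro ⟨a, b, h, hh, hk, hc⟩
    refine ⟨h, hh, ?_⟩
    have mk : ∀ P, _ → GModel h P := fun P hP => ⟨stH a, stS b, rfl, rfl, (ker_st a b h).2 hk, hP⟩
    rcases hc with ⟨rfl, c, rfl⟩ | ⟨rfl, c, rfl⟩ | ⟨rfl, c, rfl⟩ | ⟨rfl, c, rfl⟩ | ⟨rfl, c, rfl⟩ |
      ⟨rfl, c, rfl⟩ | ⟨rfl, c, rfl⟩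
    · exact ⟨_, mk _ (Or.inl ⟨by simp [two_stS], by simpa [two_stH] using c, rfl⟩),
        by rw [image_union, oK, orb_H]⟩
    · exact ⟨_, mk _ (Or.inr (Or.inl ⟨by simp [two_stH], by simpa [two_stS] using c, rfl⟩)),
        by rw [image_union, oK, orb_S]⟩
    · exact ⟨_, mk _ (Or.inr (Or.inr (Or.inl ⟨rel_T b, (two_stH _).not.2 c, rfl⟩))),
        by rw [image_union, oT, orb_H]⟩
    · exact ⟨_, mk _ (Or.inr (Or.inr (Or.inr (Or.inl ⟨rel_D a, (two_stS _).not.2 c, rfl⟩)))),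
        by rw [image_union, oD, orb_S]⟩
    · exact ⟨_, mk _ (Or.inr (Or.inr (Or.inr (Or.inr (Or.inl
        ⟨rel_Z a, (two_stH _).not.2 c, rfl⟩))))),
        by rw [image_union, image_union, oZ, orb_H, orb_S]⟩
    · exact ⟨_, mk _ (Or.inr (Or.inr (Or.inr (Or.inr (Or.inr (Or.inl
        ⟨rel_T b, (two_stH _).2 c, rfl⟩)))))), oT _ _⟩
    · exact ⟨_, mk _ (Or.inr (Or.inr (Or.inr (Or.inr (Or.inr (Or.inr
        ⟨rel_D a, (two_stS _).2 c, rfl⟩)))))), oD _ _⟩
  · rintro ⟨h, hh, P, ⟨α, β, hα, hβ, hk, hc⟩, rfl⟩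
    have a0 : α ≠ 0 := alpha_ne hh.ne' hβ hk
    have b1 : β ≠ om := beta_ne hh.ne' hα hk
    obtain ⟨a, rfl⟩ := exists_stH hα
    obtain ⟨b, rfl⟩ := exists_stS hβ
    rcases hc with ⟨c1, c, rfl⟩ | ⟨c1, c, rfl⟩ | ⟨c1, c, rfl⟩ | ⟨c1, c, rfl⟩ | ⟨c1, c, rfl⟩ |
      ⟨c1, c, rfl⟩ | ⟨c1, c, rfl⟩
    · have e : stS b = stS 0 := by
        rcases Angle.sin_eq_zero_iff.1 ((two_eq_zero _).1 c1) with e | e
        · exact Prod.ext e rfl
        · exact (b1 (Prod.ext e rfl)).elim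
      rw [e] at hk ⊢
      exact ⟨a, 0, h, hh, (ker_st _ _ h).1 hk, Or.inl ⟨rfl, (two_stH _).not.1 c,
        by rw [image_union, oK, orb_H]⟩⟩
    · have e : stH a = stH π := by
        rcases Angle.sin_eq_zero_iff.1 ((two_eq_zero _).1 c1) with e | e
        · exact (a0 (Prod.ext e rfl)).elim
        · exact Prod.ext e rfl
      rw [e] at hk ⊢
      exact ⟨π, b, h, hh, (ker_st _ _ h).1 hk, Or.inr (Or.inl ⟨rfl, (two_stS _).not.1 c,
        by rw [image_union, oK, orb_S]⟩)⟩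
    · have e : stH a = stH (-2 * b) := add_left_cancel (c1.trans (rel_T b).symm)
      rw [e] at hk c ⊢
      exact ⟨_, b, h, hh, (ker_st _ _ h).1 hk, Or.inr (Or.inr (Or.inl ⟨rfl, (two_stH _).not.1 c,
        by rw [image_union, oT, orb_H]⟩))⟩
    · have e : stS b = stS (π - 2 * a) := add_left_cancel (c1.trans (rel_D a).symm)
      rw [e] at hk c ⊢
      exact ⟨a, _, h, hh, (ker_st _ _ h).1 hk, Or.inr (Or.inr (Or.inr (Or.inl
        ⟨rfl, (two_stS _).not.1 c, by rw [image_union, oD, orb_S]⟩)))⟩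
    · have e : stS b = stS (π - a) := add_left_cancel (c1.trans (rel_Z a).symm)
      rw [e] at hk ⊢
      exact ⟨a, _, h, hh, (ker_st _ _ h).1 hk, Or.inr (Or.inr (Or.inr (Or.inr (Or.inl
        ⟨rfl, (two_stH _).not.1 c, by rw [image_union, image_union, oZ, orb_H, orb_S]⟩))))⟩
    · have e : stH a = stH (-2 * b) := add_left_cancel (c1.trans (rel_T b).symm)
      rw [e] at hk c ⊢
      exact ⟨_, b, h, hh, (ker_st _ _ h).1 hk, Or.inr (Or.inr (Or.inr (Or.inr (Or.inr (Or.inl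
        ⟨rfl, (two_stH _).1 c, (oT _ _).symm⟩)))))⟩
    · have e : stS b = stS (π - 2 * a) := add_left_cancel (c1.trans (rel_D a).symm)
      rw [e] at hk c ⊢
      exact ⟨a, _, h, hh, (ker_st _ _ h).1 hk, Or.inr (Or.inr (Or.inr (Or.inr (Or.inr (Or.inr
        ⟨rfl, (two_stS _).1 c, (oD _ _).symm⟩)))))⟩

end Pool.Agent.P.MP_708877_co
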