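import Pool.Agent.P.MP_708877_co.Schemes

/-!
Classification on the group level.
-/

namespace Pool.Agent.P.MP_708877_co

variable {G : Type} [AddCommGroup G] {π : G →+ ZMod 2} {L : AddSubgroup G}

/-- Equality up to sign. -/
def Pm (s t : G) : Prop := s = t ∨ s = -t

theorem Pm.refl (s : G) : Pm s s := Or.inl rfl

theorem Pm.symm {s t : G} (h : Pm s t) : Pm t s := by
  rcases h with rfl | rfl
  · exact Or.inl rfl
  · exact Or.inr (neg_neg _).symm

theorem Pm.trans {s t u : G} (h : Pm s t) (h' : Pm t u) : Pm s u := by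
  rcases h with rfl | rfl
  · exact h'
  · rcases h' with rfl | rfl
    · exact Or.inr rfl
    · exact Or.inl (neg_neg _)

theorem Pm.par {s t : G} (h : Pm s t) : π s = π t := by
  rcases h with rfl | rfl
  · rfl
  · rw [map_neg, zmod2_neg]

theorem Pm.two {s t : G} (h : Pm s t) : s + s = 0 ↔ t + t = 0 := by
  rcases h with rfl | rfl
  · rfl
  · rw [← neg_add, neg_eq_zero]

theorem Pm.mem {s t : G} (h : Pm s t) (ht : t ∈ L) : s ∈ L := by
  rcases h with rfl | rfl
  exacts [ht, L.neg_mem ht]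

theorem Pm.edge {x y s : G} (h : Pm (y - x) s) : ∃ z, (z = x ∨ z = y) ∧ s(x, y) = s(z, z + s) := by
  rcases h with h | h
  · exact ⟨x, Or.inl rfl, by rw [← h]; simp⟩
  · refine ⟨y, Or.inr rfl, ?_⟩
    rw [Sym2.eq_swap]
    congr 1
    linear_combination (norm := abel1) -h

theorem line_of_steps {f : ℤ → G} (hf : Seq f) {κ : G} (h : ∀ i, Pm (f (i + 1) - f i) κ) :
    κ + κ ≠ 0 ∧ edges f = line κ (f 0) := by
  have h1 : ∀ i, f (i + 1 + 1) - f (i + 1) = f (i + 1) - f i := by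
    intro i
    rcases (h (i + 1)).trans (h i).symm with e | e
    · exact e
    · exfalso
      apply hf.ne2 i
      rw [show i + 2 = i + 1 + 1 by ring]
      linear_combination (norm := abel1) e
  have h2 : ∀ i, f (i + 1) - f i = f 1 - f 0 := by
    intro i
    induction i using Int.induction_on with
    | zero => simp
    | succ i ih => rw [h1, ih]
    | pred i ih =>
      have := h1 (-(i : ℤ) - 1)
      rw [sub_add_cancel] at this
      rw [sub_add_cancel, ← this, ih]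
  have h3 : ∀ i, f i = f 0 + i • (f 1 - f 0) := by
    intro i
    induction i using Int.induction_on with
    | zero => simp
    | succ i ih => rw [add_zsmul, one_zsmul, ← add_assoc, ← ih, ← h2 i]; simp
    | pred i ih =>
      have := h2 (-(i : ℤ) - 1)
      rw [sub_add_cancel] at this
      rw [sub_zsmul, one_zsmul]
      linear_combination (norm := abel1) ih - this
  have h4 : Pm (f 1 - f 0) κ := by simpa using h 0
  constructor
  · rw [Ne, ← h4.two]
    intro e
    apply hf.2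
    rw [h3 2, two_zsmul, e, add_zero]
  · have : edges f = line (f 1 - f 0) (f 0) := by
      unfold line
      congr 1
      exact funext h3
    rw [this]
    rcases h4 with e | e <;> rw [e]
    exact line_neg _ _

theorem polygon_fP0 {γ κ : G} (hw : γ + γ + κ = 0) (hg : γ + γ ≠ 0) (x : G) :
    IsPolygon (fP γ κ x) := by
  have h0 : γ ≠ 0 := fun e => hg (by simp [e])
  have : fP γ κ x = edges ![x, x + γ, x + γ + γ] := by
    have e1 : x + γ + γ + κ = x := by linear_combination (norm := abel1) hw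
    rw [edges_three]
    ext e
    simp only [fP, Set.mem_ofPred_eq, hw, add_zero, e1]
    tauto
  rw [this]
  refine polygon_three ?_ ?_ ?_ <;> simp [add_assoc, h0, hg]

theorem polygon_fP1 {γ κ : G} (h0 : π γ = 0) (h1 : π κ = 1)
    (h2 : γ + γ + κ + (γ + γ + κ) = 0) (hg : γ + γ ≠ 0) (x : G) : IsPolygon (fP γ κ x) := by
  have hg0 : γ ≠ 0 := fun e => hg (by simp [e])
  obtain ⟨w, hw⟩ : ∃ w, w = γ + γ + κ := ⟨_, rfl⟩
  have pw : π w = 1 := by simp [hw, h0, h1]
  have : fP γ κ x = edges ![x, x + γ, x + γ + γ, x + w, x + w + γ, x + w + γ + γ] := by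
    have e1 : x + γ + γ + κ = x + w := by rw [hw]; abel
    have e2 : x + w + γ + γ + κ = x := by rw [hw]; linear_combination (norm := abel1) h2
    rw [edges_six]
    ext e
    simp only [fP, Set.mem_ofPred_eq, ← hw, e1, e2]
    tauto
  rw [this]
  refine ⟨6, ![x, x + γ, x + γ + γ, x + w, x + w + γ, x + w + γ + γ], by norm_num, by norm_num,
    ?_, rfl⟩
  clear this hw h2
  intro i j hij
  have hp := congrArg π hij
  fin_cases i <;> fin_cases j <;>
    first
    | rfl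
    | (exfalso; simp [h0, pw] at hp; done)
    | (exfalso; simp [add_assoc, hg, hg0] at hij)

/-- A symmetric description of `fP`. -/
def hexa (w p q r : G) : Set (Sym2 G) :=
  {e | e = s(p, q) ∨ e = s(q, r) ∨ e = s(p + w, q + w) ∨ e = s(q + w, r + w) ∨ e = s(r, p + w) ∨
    e = s(r + w, p)}

theorem hexa_swap (w p q r : G) : hexa w r q p = hexa w p q r := by
  ext e
  simp only [hexa, Set.mem_ofPred_eq, Sym2.eq_swap (a := r) (b := q),
    Sym2.eq_swap (a := q) (b := p), Sym2.eq_swap (a := r + w) (b := q + w),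
    Sym2.eq_swap (a := q + w) (b := p + w), Sym2.eq_swap (a := p) (b := r + w),
    Sym2.eq_swap (a := p + w) (b := r)]
  tauto

theorem fP_eq_hexa {γ κ : G} (h2 : γ + γ + κ + (γ + γ + κ) = 0) (x : G) :
    fP γ κ x = hexa (γ + γ + κ) x (x + γ) (x + γ + γ) := by
  have e1 : x + γ + γ + κ = x + (γ + γ + κ) := by abel
  have e2 : x + (γ + γ + κ) + γ + γ + κ = x := by linear_combination (norm := abel1) h2
  have e3 : x + (γ + γ + κ) + γ = x + γ + (γ + γ + κ) := by abel
  have e4 : x + γ + (γ + γ + κ) + γ = x + γ + γ + (γ + γ + κ) := by abel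
  rw [e3, e4] at e2
  simp only [fP, hexa, e1, e3, e4, e2]

theorem map_hexa {φ : G → G} {w p q r : G} (hp : φ (p + w) = φ p + w) (hq : φ (q + w) = φ q + w)
    (hr : φ (r + w) = φ r + w) :
    Sym2.map φ '' hexa w p q r = hexa w (φ p) (φ q) (φ r) := by
  ext e
  simp only [hexa, Set.mem_image, Set.mem_ofPred_eq]
  constructor
  · rintro ⟨a, h, rfl⟩
    rcases h with rfl | rfl | rfl | rfl | rfl | rfl <;> simp [hp, hq, hr]
  · rintro (rfl | rfl | rfl | rfl | rfl | rfl)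
    · exact ⟨s(p, q), by simp, by simp⟩
    · exact ⟨s(q, r), by simp, by simp⟩
    · exact ⟨s(p + w, q + w), by simp, by simp [hp, hq]⟩
    · exact ⟨s(q + w, r + w), by simp, by simp [hq, hr]⟩
    · exact ⟨s(r, p + w), by simp, by simp [hp]⟩
    · exact ⟨s(r + w, p), by simp, by simp [hr]⟩

/-- A face either has an edge of the first kind or is a line of the second kind. -/
theorem face_cases {P : Set (Set (Sym2 G))} (hP : Good P) {γ κ : G}
    (step : ∀ x y, IsEdge P s(x, y) → Pm (y - x) γ ∨ Pm (y - x) κ) {F : Set (Sym2 G)}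
    (hF : F ∈ P) : (∃ y, s(y, y + γ) ∈ F) ∨ (κ + κ ≠ 0 ∧ ∃ x ∈ verts P, F = line κ x) := by
  obtain ⟨f, hf, rfl⟩ := isPolygon_iff.1 (hP.poly F hF)
  by_cases h : ∃ i, Pm (f (i + 1) - f i) γ
  · obtain ⟨i, hi⟩ := h
    obtain ⟨z, -, hz⟩ := hi.edge
    exact Or.inl ⟨z, hz ▸ edge_mem f i⟩
  · have h1 : ∀ i, Pm (f (i + 1) - f i) κ := fun i =>
      (step _ _ ⟨_, hF, edge_mem f i⟩).resolve_left fun e => h ⟨i, e⟩
    obtain ⟨a, b⟩ := line_of_steps hf h1
    exact Or.inr ⟨a, f 0, IsEdge.left ⟨_, hF, edge_mem f 0⟩, b⟩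

theorem class_P {P : Set (Set (Sym2 G))} (hP : Good P) {γ κ : G} (hγ : γ ∈ L) (hκ : κ ∈ L)
    (gen : ∀ x ∈ L, ∃ i j : ℤ, x = i • γ + j • κ) (hL : ∀ v ∈ verts P, v ∈ L)
    (step : ∀ x y, IsEdge P s(x, y) → Pm (y - x) γ ∨ Pm (y - x) κ)
    (h : π γ ≠ π κ) (h2 : γ + γ + κ + (γ + γ + κ) = 0) (hg : γ + γ ≠ 0) (hk : κ ≠ 0)
    (hp : ∀ x, IsPolygon (fP γ κ x))
    (tr : ∀ v ∈ verts P, ∀ w ∈ verts P, ∃ φ : G → G, image φ P ⊆ P ∧ φ v = w ∧
      Set.InjOn φ (verts P) ∧ (∀ x ∈ verts P, ∀ y ∈ verts P, π (φ y - φ x) = π (y - x)) ∧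
      ∀ x ∈ verts P, x + (γ + γ + κ) ∈ verts P → φ (x + (γ + γ + κ)) = φ x + (γ + γ + κ))
    {x₀ : G} (h0 : fP γ κ x₀ ∈ P) :
    (κ + κ ≠ 0 ∧ P = fam L (fP γ κ) ∪ fam L (line κ)) ∨ (κ + κ = 0 ∧ P = fam L (fP γ κ)) := by
  have all : ∀ y ∈ verts P, fP γ κ (y - γ) ∈ P := by
    intro y hy
    rw [fP_eq_hexa h2] at h0 ⊢
    have ed : ∀ {e}, e ∈ hexa (γ + γ + κ) x₀ (x₀ + γ) (x₀ + γ + γ) → IsEdge P e :=
      fun he => ⟨_, h0, he⟩
    have e1 := ed (Or.inl rfl)
    have e2 := ed (Or.inr (Or.inl rfl))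
    have e3 := ed (Or.inr (Or.inr (Or.inl rfl)))
    have e4 := ed (Or.inr (Or.inr (Or.inr (Or.inl rfl))))
    obtain ⟨φ, a1, a2, a3, a4, a5⟩ := tr _ e1.right y hy
    have hm : hexa (γ + γ + κ) (φ x₀) y (φ (x₀ + γ + γ)) ∈ P := by
      rw [← a2, ← map_hexa (a5 _ e1.left e3.left) (a5 _ e1.right e3.right)
        (a5 _ e2.right e4.right)]
      exact a1 ⟨_, h0, rfl⟩
    have b1 : Pm (y - φ x₀) γ := by
      refine (step _ _ ⟨_, hm, Or.inl rfl⟩).resolve_right fun e => h ?_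
      rw [← e.par, ← a2, a4 _ e1.left _ e1.right]
      simp
    have b2 : Pm (φ (x₀ + γ + γ) - y) γ := by
      refine (step _ _ ⟨_, hm, Or.inr (Or.inl rfl)⟩).resolve_right fun e => h ?_
      rw [← e.par, ← a2, a4 _ e1.right _ e2.right]
      simp
    have hne : φ x₀ ≠ φ (x₀ + γ + γ) := fun e => hg (by
      have := a3 e1.left e2.right e
      linear_combination (norm := abel1) -this)
    rw [sub_add_cancel]
    rcases b1 with b1 | b1 <;> rcases b2 with b2 | b2
    · rw [show y - γ = φ x₀ by linear_combination (norm := abel1) b1,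
        show y + γ = φ (x₀ + γ + γ) by linear_combination (norm := abel1) -b2]
      exact hm
    · exact absurd (by linear_combination (norm := abel1) -b1 - b2) hne
    · exact absurd (by linear_combination (norm := abel1) -b1 - b2) hne
    · rw [show y + γ = φ x₀ by linear_combination (norm := abel1) b1,
        show y - γ = φ (x₀ + γ + γ) by linear_combination (norm := abel1) -b2, hexa_swap]
      exact hm
  have sub : ∀ F ∈ P, F ∈ fam L (fP γ κ) ∨ (κ + κ ≠ 0 ∧ F ∈ fam L (line κ)) := by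
    intro F hF
    rcases face_cases hP step hF with ⟨y, hy⟩ | ⟨a, x, hx, rfl⟩
    · have ed : IsEdge P s(y, y + γ) := ⟨F, hF, hy⟩
      have m1 := all _ ed.left
      have m2 := all _ ed.right
      rw [add_sub_cancel_right] at m2
      rcases hP.eq_or m2 m1 (fP_ne' h h2 hg hk y) (Or.inl rfl) (Or.inr (Or.inl (by simp))) hF hy
        with rfl | rfl
      · exact Or.inl ⟨y, hL _ ed.left, rfl⟩
      · exact Or.inl ⟨y - γ, L.sub_mem (hL _ ed.left) hγ, rfl⟩
    · exact Or.inr ⟨a, x, hL x hx, rfl⟩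
  by_cases hkk : κ + κ = 0
  · refine Or.inr ⟨hkk, ?_⟩
    have := hP.eq_of_subset (good_P hγ hκ gen h h2 hg hk hp (Or.inr ⟨hkk, rfl⟩))
      fun F hF => Or.inl ((sub F hF).resolve_right fun e => e.1 hkk)
    simpa using this
  · exact Or.inl ⟨hkk, hP.eq_of_subset (good_P hγ hκ gen h h2 hg hk hp (Or.inl ⟨hkk, rfl⟩))
      fun F hF => (sub F hF).imp_right fun e => e.2⟩

theorem fK_swap (κ γ x : G) : fK κ γ x = fK γ κ x := by
  ext e
  simp only [fK, Set.mem_ofPred_eq]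
  tauto

theorem fK_neg (κ γ x : G) : fK (-κ) γ x = fK κ γ (x - κ) := by
  have e1 : x - κ + γ + κ = x + γ := by abel
  have e2 : x + γ + -κ = x - κ + γ := by abel
  ext e
  simp only [fK, Set.mem_ofPred_eq, ← sub_eq_add_neg x κ, sub_add_cancel, e1, e2,
    Sym2.eq_swap (a := x) (b := x - κ), Sym2.eq_swap (a := x + γ) (b := x - κ + γ)]
  tauto

theorem fZ_neg {α β : G} (h2 : α + β + (α + β) = 0) (x : G) :
    fZ (-α) (-β) x = fZ α β (x - α) := by
  have e1 : x - α + -β = x + β + α := by linear_combination (norm := abel1) -h2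
  have e2 : x + β + α + -α = x + β := by abel
  have e3 : x + β + -β = x := by abel
  have e4 : x + β + α + β = x - α := by linear_combination (norm := abel1) h2
  ext e
  simp only [fZ, Set.mem_ofPred_eq, ← sub_eq_add_neg x α, sub_add_cancel, e1, e2, e3, e4,
    Sym2.eq_swap (a := x) (b := x - α), Sym2.eq_swap (a := x + β + α) (b := x + β),
    Sym2.eq_swap (a := x - α) (b := x + β + α), Sym2.eq_swap (a := x + β) (b := x)]
  tauto

theorem class_K {P : Set (Set (Sym2 G))} (hP : Good P) {γ κ : G} (hγ : γ ∈ L) (hκ : κ ∈ L)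
    (gen : ∀ x ∈ L, ∃ i j : ℤ, x = i • κ + j • γ) (hL : ∀ v ∈ verts P, v ∈ L)
    (step : ∀ x y, IsEdge P s(x, y) → Pm (y - x) γ ∨ Pm (y - x) κ)
    (h : π γ ≠ π κ) (h0 : γ ≠ 0) (h2 : γ + γ = 0) (hk : κ + κ ≠ 0)
    (mix : ∀ F ∈ P, (∃ y, s(y, y + γ) ∈ F) → (∃ y, s(y, y + κ) ∈ F) →
      ∃ x κ' γ', Pm κ' κ ∧ Pm γ' γ ∧ F = fK κ' γ' x) :
    P = fam L (fK κ γ) ∪ fam L (line κ) := by
  refine hP.eq_of_subset (good_K hκ hγ gen h h0 h2 hk) fun F hF => ?_
  rcases face_cases hP step hF with a | ⟨-, x, hx, rfl⟩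
  · rcases face_cases hP (fun x y e => (step x y e).symm) hF with b | b
    · obtain ⟨x, κ', γ', c1, c2, rfl⟩ := mix F hF a b
      have hx : x ∈ L := hL x (IsEdge.left ⟨_, hF, Or.inl rfl⟩)
      obtain rfl : γ' = γ := c2.elim id fun e => by rw [e, neg_eq_of_add_eq_zero_left h2]
      rcases c1 with rfl | rfl
      · exact Or.inl ⟨x, hx, rfl⟩
      · exact Or.inl ⟨x - κ, L.sub_mem hx hκ, fK_neg _ _ _⟩
    · exact absurd h2 b.1
  · exact Or.inr ⟨x, hL x hx, rfl⟩

theorem class_Z {P : Set (Set (Sym2 G))} (hP : Good P) {α β : G} (hα : α ∈ L) (hβ : β ∈ L)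
    (gen : ∀ x ∈ L, ∃ i j : ℤ, x = i • α + j • β) (hL : ∀ v ∈ verts P, v ∈ L)
    (step : ∀ x y, IsEdge P s(x, y) → Pm (y - x) α ∨ Pm (y - x) β)
    (h : π α ≠ π β) (h2 : α + β + (α + β) = 0) (hk : α + α ≠ 0)
    (mix : ∀ F ∈ P, (∃ y, s(y, y + α) ∈ F) → (∃ y, s(y, y + β) ∈ F) →
      ∃ x α' β', Pm α' α ∧ α' + β' = α + β ∧ F = fZ α' β' x) :
    P = fam L (fZ α β) ∪ fam L (line α) ∪ fam L (line β) := by
  refine hP.eq_of_subset (good_Z hα hβ gen h h2 hk) fun F hF => ?_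
  rcases face_cases hP step hF with a | ⟨-, x, hx, rfl⟩
  · rcases face_cases hP (fun x y e => (step x y e).symm) hF with b | ⟨-, x, hx, rfl⟩
    · obtain ⟨x, α', β', c1, c2, rfl⟩ := mix F hF a b
      have hx : x ∈ L := hL x (IsEdge.left ⟨_, hF, Or.inl rfl⟩)
      rcases c1 with rfl | rfl
      · obtain rfl := add_left_cancel c2
        exact Or.inl (Or.inl ⟨x, hx, rfl⟩)
      · obtain rfl : β' = -β := by linear_combination (norm := abel1) c2 + h2
        exact Or.inl (Or.inl ⟨x - α, L.sub_mem hx hα, fZ_neg h2 _⟩)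
    · exact Or.inl (Or.inr ⟨x, hL x hx, rfl⟩)
  · exact Or.inr ⟨x, hL x hx, rfl⟩

end Pool.Agent.P.MP_708877_co
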