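import Pool.Agent.P.MP_708877_co.Defs

/-!
Combinatorics of polygons and polyhedra.
-/

namespace Pool.Agent.P.MP_708877_co

open Relation

variable {X Y : Type}

/-- An integer-indexed description of a polygon. -/
def Seq (f : ℤ → X) : Prop := (∀ i j k, f i = f j → f (i + k) = f (j + k)) ∧ f 2 ≠ f 0

theorem mem_edges {ι : Type} [Add ι] [One ι] {f : ι → X} {e : Sym2 X} :
    e ∈ edges f ↔ ∃ i, s(f i, f (i + 1)) = e := Iff.rfl

theorem edge_mem {ι : Type} [Add ι] [One ι] (f : ι → X) (i : ι) :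
    s(f i, f (i + 1)) ∈ edges f := ⟨i, rfl⟩

theorem image_edges {ι : Type} [Add ι] [One ι] (g : X → Y) (f : ι → X) :
    Sym2.map g '' edges f = edges (fun i => g (f i)) := by
  ext e
  simp only [edges, Set.mem_image, Set.mem_range]
  constructor
  · rintro ⟨_, ⟨i, rfl⟩, rfl⟩
    exact ⟨i, by simp⟩
  · rintro ⟨i, rfl⟩
    exact ⟨_, ⟨i, rfl⟩, by simp⟩

theorem Seq.ne2 {f : ℤ → X} (h : Seq f) (i : ℤ) : f (i + 2) ≠ f i := fun e => by
  have := h.1 _ _ (-i) e
  apply h.2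
  convert this using 2 <;> ring

theorem Seq.ne1 {f : ℤ → X} (h : Seq f) (i : ℤ) : f (i + 1) ≠ f i := fun e => by
  have := h.1 _ _ 1 e
  apply h.ne2 i
  rw [← e, ← this]
  congr 1
  ring

theorem isPolygon_iff {F : Set (Sym2 X)} : IsPolygon F ↔ ∃ f : ℤ → X, Seq f ∧ F = edges f := by
  constructor
  · rintro ⟨n, f, h1, h2, hf, rfl⟩
    refine ⟨fun i => f (i : ZMod n), ⟨fun i j k h => ?_, fun h => ?_⟩, ?_⟩
    · have := hf h
      simp only [Int.cast_add, this]
    · have h3 := hf h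
      rw [Int.cast_zero, ZMod.intCast_zmod_eq_zero_iff_dvd] at h3
      have h4 : n ∣ 2 := by exact_mod_cast h3
      rcases (Nat.dvd_prime Nat.prime_two).1 h4 with h | h <;> contradiction
    · ext e
      simp only [mem_edges]
      constructor
      · rintro ⟨i, rfl⟩
        obtain ⟨j, rfl⟩ := ZMod.intCast_surjective i
        exact ⟨j, by simp⟩
      · rintro ⟨i, rfl⟩
        exact ⟨i, by simp⟩
  · rintro ⟨f, hf, rfl⟩
    let S : AddSubgroup ℤ :=
      { carrier := {k | f k = f 0}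
        zero_mem' := rfl
        add_mem' := fun {a b} ha hb => by
          have h1 := hf.1 _ _ b ha
          simp only [zero_add] at h1
          exact h1.trans hb
        neg_mem' := fun {a} ha => by
          have h1 := hf.1 _ _ (-a) ha
          simp only [zero_add, add_neg_cancel] at h1
          exact h1.symm }
    obtain ⟨a, ha⟩ := Int.subgroup_cyclic S
    have key : ∀ i j : ℤ, f i = f j ↔ (i : ZMod a.natAbs) = j := by
      intro i j
      rw [ZMod.intCast_eq_intCast_iff_dvd_sub, Int.natAbs_dvd, ← Int.mem_zmultiples_iff,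
        AddSubgroup.zmultiples_eq_closure, ← ha]
      change _ ↔ f (j - i) = f 0
      constructor
      · intro h
        have := hf.1 _ _ (-i) h
        simp only [add_neg_cancel] at this
        rw [this, sub_eq_add_neg]
      · intro h
        have := hf.1 _ _ i h
        simp only [sub_add_cancel, zero_add] at this
        exact this.symm
    choose s hs using ZMod.intCast_surjective (n := a.natAbs)
    refine ⟨a.natAbs, fun z => f (s z), ?_, ?_, ?_, ?_⟩
    · intro h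
      apply hf.2
      rw [key, h]
      exact Subsingleton.elim _ _
    · intro h
      apply hf.2
      rw [key, h]
      rfl
    · intro z w h
      rw [← hs z, ← hs w]
      exact (key _ _).1 h
    · ext e
      simp only [mem_edges]
      constructor
      · rintro ⟨i, rfl⟩
        refine ⟨i, ?_⟩
        rw [(key (s i) i).2 (hs _), (key (s (i + 1)) (i + 1)).2 (by rw [hs]; simp)]
      · rintro ⟨z, rfl⟩
        refine ⟨s z, ?_⟩
        rw [(key (s (z + 1)) (s z + 1)).2 (by rw [hs]; simp [hs])]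

/-- The edges through a vertex of a polygon. -/
theorem Seq.edge_at {f : ℤ → X} (h : Seq f) {i : ℤ} {e : Sym2 X} (he : e ∈ edges f)
    (hv : f i ∈ e) : e = s(f i, f (i + 1)) ∨ e = s(f (i - 1), f i) := by
  obtain ⟨j, rfl⟩ := he
  rcases Sym2.mem_iff.1 hv with h1 | h1
  · left
    rw [h1, h.1 _ _ 1 h1]
  · right
    have := h.1 _ _ (-1) h1
    simp only [add_neg_cancel_right] at this
    rw [h1, sub_eq_add_neg, this]

theorem Seq.edge_ne {f : ℤ → X} (h : Seq f) (i : ℤ) :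
    s(f i, f (i + 1)) ≠ s(f (i - 1), f i) := by
  intro e
  rcases Sym2.eq_iff.1 e with h1 | h1
  · exact h.ne1 i h1.2
  · apply h.ne2 (i - 1)
    rw [← h1.2]
    congr 1
    ring

theorem IsPolygon.other {F : Set (Sym2 X)} (h : IsPolygon F) {e : Sym2 X} (he : e ∈ F) {v : X}
    (hv : v ∈ e) : ∃ e' ∈ F, v ∈ e' ∧ e' ≠ e := by
  obtain ⟨f, hf, rfl⟩ := isPolygon_iff.1 h
  obtain ⟨i, rfl⟩ := he
  rcases Sym2.mem_iff.1 hv with rfl | rfl
  · refine ⟨s(f (i - 1), f i), ⟨i - 1, by simp⟩, by simp, (hf.edge_ne i).symm⟩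
  · refine ⟨s(f (i + 1), f (i + 1 + 1)), ⟨i + 1, rfl⟩, by simp, ?_⟩
    have := hf.edge_ne (i + 1)
    simpa using this

theorem IsPolygon.nonempty {F : Set (Sym2 X)} (h : IsPolygon F) : F.Nonempty := by
  obtain ⟨f, -, rfl⟩ := isPolygon_iff.1 h
  exact ⟨_, edge_mem f 0⟩

theorem IsPolygon.not_diag {F : Set (Sym2 X)} (h : IsPolygon F) {x : X} : s(x, x) ∉ F := by
  obtain ⟨f, hf, rfl⟩ := isPolygon_iff.1 h
  rintro ⟨i, hi⟩
  apply hf.ne1 i
  rcases Sym2.eq_iff.1 hi with h | h <;> rw [h.1, h.2]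

/-- Being an edge. -/
def IsEdge (P : Set (Set (Sym2 X))) (e : Sym2 X) : Prop := ∃ F ∈ P, e ∈ F

theorem IsEdge.left {P : Set (Set (Sym2 X))} {x y : X} (h : IsEdge P s(x, y)) : x ∈ verts P := by
  obtain ⟨F, hF, he⟩ := h
  exact ⟨F, hF, _, he, by simp⟩

theorem IsEdge.right {P : Set (Set (Sym2 X))} {x y : X} (h : IsEdge P s(x, y)) : y ∈ verts P := by
  obtain ⟨F, hF, he⟩ := h
  exact ⟨F, hF, _, he, by simp⟩

/-- The working form of the polyhedron axioms. -/
structure Good (P : Set (Set (Sym2 X))) : Prop where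
  ne : P.Nonempty
  poly : ∀ F ∈ P, IsPolygon F
  two : ∀ F ∈ P, ∀ e ∈ F, ∃ F' ∈ P, F' ≠ F ∧ {G | G ∈ P ∧ e ∈ G} = {F, F'}
  gconn : ∀ v ∈ verts P, ∀ w ∈ verts P, ReflTransGen (fun a b => IsEdge P s(a, b)) v w
  vconn : ∀ v e e', IsEdge P e → IsEdge P e' → v ∈ e → v ∈ e' →
    ReflTransGen (fun a b => v ∈ b ∧ ∃ F ∈ P, a ∈ F ∧ b ∈ F) e e'

theorem IsPolyhedron.good {P : Set (Set (Sym2 X))} (h : IsPolyhedron P) : Good P := by
  obtain ⟨h1, h2, h3, h4⟩ := h
  refine ⟨h1, h2, h3, ?_, ?_⟩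
  · rintro v ⟨F, hF, e, he, hv⟩ w ⟨F', hF', e', he', hw⟩
    have h5 := h4 (v, e, F) (w, e', F') ⟨hv, he, hF⟩ ⟨hw, he', hF'⟩
    have key : ∀ y, ReflTransGen (fun z w' => IsFlag P w' ∧ Near z w' ∧
        ((v, e, F).1 = (w, e', F').1 → w'.1 = (v, e, F).1) ∧
        ((v, e, F).2.1 = (w, e', F').2.1 → w'.2.1 = (v, e, F).2.1) ∧
        ((v, e, F).2.2 = (w, e', F').2.2 → w'.2.2 = (v, e, F).2.2)) (v, e, F) y →
        IsFlag P y ∧ ReflTransGen (fun a b => IsEdge P s(a, b)) v y.1 := by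
      intro y hy
      induction hy with
      | refl => exact ⟨⟨hv, he, hF⟩, .refl⟩
      | @tail b c _ hbc ih =>
        refine ⟨hbc.1, ?_⟩
        by_cases e1 : b.1 = c.1
        · rw [← e1]; exact ih.2
        · refine ih.2.tail ?_
          have e2 : b.2 = c.2 := by
            rcases hbc.2.1 with h | h | h
            · exact absurd h.1 e1
            · exact absurd h.1 e1
            · exact h
          have m1 := ih.1.1
          have m2 := hbc.1.1
          rw [← e2] at m2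
          rw [← (Sym2.mem_and_mem_iff e1).1 ⟨m1, m2⟩]
          exact ⟨_, ih.1.2.2, ih.1.2.1⟩
    exact (key _ h5).2
  · rintro v e e' ⟨F, hF, he⟩ ⟨F', hF', he'⟩ hv hv'
    have h5 := h4 (v, e, F) (v, e', F') ⟨hv, he, hF⟩ ⟨hv', he', hF'⟩
    have key : ∀ y, ReflTransGen (fun z w' => IsFlag P w' ∧ Near z w' ∧
        ((v, e, F).1 = (v, e', F').1 → w'.1 = (v, e, F).1) ∧
        ((v, e, F).2.1 = (v, e', F').2.1 → w'.2.1 = (v, e, F).2.1) ∧
        ((v, e, F).2.2 = (v, e', F').2.2 → w'.2.2 = (v, e, F).2.2)) (v, e, F) y →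
        IsFlag P y ∧ ReflTransGen (fun a b => v ∈ b ∧ ∃ F ∈ P, a ∈ F ∧ b ∈ F) e y.2.1 := by
      intro y hy
      induction hy with
      | refl => exact ⟨⟨hv, he, hF⟩, .refl⟩
      | @tail b c _ hbc ih =>
        refine ⟨hbc.1, ?_⟩
        by_cases e1 : b.2.1 = c.2.1
        · rw [← e1]; exact ih.2
        · refine ih.2.tail ⟨?_, b.2.2, ih.1.2.2, ih.1.2.1, ?_⟩
          · have := hbc.1.1
            rwa [hbc.2.2.1 rfl] at this
          · rcases hbc.2.1 with h | h | h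
            · exact absurd h.2 e1
            · rw [h.2]; exact hbc.1.2.1
            · exact absurd (by rw [h]) e1
    exact (key _ h5).2

/-- Chains of flags satisfying a side condition. -/
def Step (P : Set (Set (Sym2 X))) (Q : X × Sym2 X × Set (Sym2 X) → Prop)
    (z w : X × Sym2 X × Set (Sym2 X)) : Prop :=
  IsFlag P z ∧ IsFlag P w ∧ Q z ∧ Q w ∧ Near z w

theorem Step.symm {P : Set (Set (Sym2 X))} {Q} {z w} (h : Step P Q z w) : Step P Q w z :=
  ⟨h.2.1, h.1, h.2.2.2.1, h.2.2.1, by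
    rcases h.2.2.2.2 with h | h | h
    · exact Or.inl ⟨h.1.symm, h.2.symm⟩
    · exact Or.inr (Or.inl ⟨h.1.symm, h.2.symm⟩)
    · exact Or.inr (Or.inr h.symm)⟩

theorem rtg_mono {Z : Type} {r p : Z → Z → Prop} {a b : Z} (h : ReflTransGen r a b)
    (hp : ∀ a b, r a b → p a b) : ReflTransGen p a b := by
  induction h with
  | refl => exact .refl
  | tail _ hbc ih => exact ih.tail (hp _ _ hbc)

theorem chain_symm {P : Set (Set (Sym2 X))} {Q} {z w} (h : ReflTransGen (Step P Q) z w) :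
    ReflTransGen (Step P Q) w z := by
  induction h with
  | refl => exact .refl
  | tail _ hbc ih => exact .head hbc.symm ih

theorem Good.chain_vertex {P : Set (Set (Sym2 X))} (h : Good P) {v : X} {e e' : Sym2 X}
    {F F' : Set (Sym2 X)} (h1 : IsFlag P (v, e, F)) (h2 : IsFlag P (v, e', F')) :
    ReflTransGen (Step P fun z => z.1 = v) (v, e, F) (v, e', F') := by
  have h3 := h.vconn v e e' ⟨F, h1.2.2, h1.2.1⟩ ⟨F', h2.2.2, h2.2.1⟩ h1.1 h2.1
  have key : ∀ b, ReflTransGen (fun a b => v ∈ b ∧ ∃ F ∈ P, a ∈ F ∧ b ∈ F) e b →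
      v ∈ b ∧ ∀ G, IsFlag P (v, b, G) →
        ReflTransGen (Step P fun z => z.1 = v) (v, e, F) (v, b, G) := by
    intro b hb
    induction hb with
    | refl => exact ⟨h1.1, fun G hG => .single ⟨h1, hG, rfl, rfl, Or.inl ⟨rfl, rfl⟩⟩⟩
    | @tail b c _ hbc ih =>
      obtain ⟨hc, G, hG, hb, hc'⟩ := hbc
      refine ⟨hc, fun G' hG' => ?_⟩
      refine ((ih.2 G ⟨ih.1, hb, hG⟩).tail (c := (v, c, G))
        ⟨⟨ih.1, hb, hG⟩, ⟨hc, hc', hG⟩, rfl, rfl, Or.inr (Or.inl ⟨rfl, rfl⟩)⟩).tail ?_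
      exact ⟨⟨hc, hc', hG⟩, hG', rfl, rfl, Or.inl ⟨rfl, rfl⟩⟩
  exact (key _ h3).2 _ h2

theorem Good.chain_face {P : Set (Set (Sym2 X))} (h : Good P) {v v' : X} {e e' : Sym2 X}
    {F : Set (Sym2 X)} (h1 : IsFlag P (v, e, F)) (h2 : IsFlag P (v', e', F)) :
    ReflTransGen (Step P fun z => z.2.2 = F) (v, e, F) (v', e', F) := by
  have hF : F ∈ P := h1.2.2
  obtain ⟨f, -, rfl⟩ := isPolygon_iff.1 (h.poly F hF)
  have fl1 : ∀ i, IsFlag P (f i, s(f i, f (i + 1)), edges f) :=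
    fun i => ⟨by simp, edge_mem f i, hF⟩
  have fl2 : ∀ i, IsFlag P (f (i + 1), s(f i, f (i + 1)), edges f) :=
    fun i => ⟨by simp, edge_mem f i, hF⟩
  have s1 : ∀ i, Step P (fun z => z.2.2 = edges f) (f i, s(f i, f (i + 1)), edges f)
      (f (i + 1), s(f i, f (i + 1)), edges f) :=
    fun i => ⟨fl1 i, fl2 i, rfl, rfl, Or.inr (Or.inr rfl)⟩
  have s2 : ∀ i, ReflTransGen (Step P (fun z => z.2.2 = edges f))
      (f i, s(f i, f (i + 1)), edges f) (f (i + 1), s(f (i + 1), f (i + 1 + 1)), edges f) :=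
    fun i => (ReflTransGen.single (s1 i)).tail
      ⟨fl2 i, fl1 (i + 1), rfl, rfl, Or.inr (Or.inl ⟨rfl, rfl⟩)⟩
  have key : ∀ i : ℤ, ReflTransGen (Step P (fun z => z.2.2 = edges f))
      (f 0, s(f 0, f (0 + 1)), edges f) (f i, s(f i, f (i + 1)), edges f) := by
    intro i
    induction i using Int.induction_on with
    | zero => exact .refl
    | succ i ih => exact ih.trans (s2 i)
    | pred i ih =>
      refine ih.trans (chain_symm ?_)
      have := s2 (-(i : ℤ) - 1)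
      simpa only [sub_add_cancel] using this
  have key2 : ∀ v e, IsFlag P (v, e, edges f) → ReflTransGen (Step P (fun z => z.2.2 = edges f))
      (f 0, s(f 0, f (0 + 1)), edges f) (v, e, edges f) := by
    rintro v e ⟨hv, ⟨i, rfl⟩, -⟩
    rcases Sym2.mem_iff.1 hv with rfl | rfl
    · exact key i
    · exact (key i).tail (s1 i)
  exact (chain_symm (key2 _ _ h1)).trans (key2 _ _ h2)

theorem Good.chain_all {P : Set (Set (Sym2 X))} (h : Good P) {x y}
    (h1 : IsFlag P x) (h2 : IsFlag P y) : ReflTransGen (Step P fun _ => True) x y := by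
  obtain ⟨v, e, F⟩ := x
  obtain ⟨w, e', F'⟩ := y
  have h3 := h.gconn v ⟨F, h1.2.2, e, h1.2.1, h1.1⟩ w ⟨F', h2.2.2, e', h2.2.1, h2.1⟩
  have wk : ∀ {u z z'}, ReflTransGen (Step P fun z => z.1 = u) z z' →
      ReflTransGen (Step P fun _ => True) z z' := fun hh =>
    rtg_mono hh fun _ _ s => ⟨s.1, s.2.1, trivial, trivial, s.2.2.2.2⟩
  have key : ∀ b, ReflTransGen (fun a b => IsEdge P s(a, b)) v b →
      ∀ e' G, IsFlag P (b, e', G) →
        ReflTransGen (Step P fun _ => True) (v, e, F) (b, e', G) := by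
    intro b hb
    induction hb with
    | refl => exact fun e' G hG => wk (h.chain_vertex h1 hG)
    | @tail b c _ hbc ih =>
      obtain ⟨G, hG, hb⟩ := hbc
      intro e' G' hG'
      have f1 : IsFlag P (b, s(b, c), G) := ⟨by simp, hb, hG⟩
      have f2 : IsFlag P (c, s(b, c), G) := ⟨by simp, hb, hG⟩
      exact ((ih _ _ f1).tail ⟨f1, f2, trivial, trivial, Or.inr (Or.inr rfl)⟩).trans
        (wk (h.chain_vertex f2 hG'))
  exact key _ h3 _ _ h2

theorem Good.isPolyhedron {P : Set (Set (Sym2 X))} (h : Good P) : IsPolyhedron P := by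
  refine ⟨h.ne, h.poly, h.two, ?_⟩
  rintro ⟨v, e, F⟩ ⟨w, e', F'⟩ h1 h2
  by_cases a1 : v = w
  · subst a1
    by_cases a2 : e = e'
    · exact .single ⟨h2, Or.inl ⟨rfl, a2⟩, fun h => h.symm, fun h => h.symm, fun h => h.symm⟩
    · by_cases a3 : F = F'
      · exact .single
          ⟨h2, Or.inr (Or.inl ⟨rfl, a3⟩), fun h => h.symm, fun h => h.symm, fun h => h.symm⟩
      · exact rtg_mono (h.chain_vertex h1 h2) fun _ _ s =>
          ⟨s.2.1, s.2.2.2.2, fun _ => s.2.2.2.1, fun h => absurd h a2, fun h => absurd h a3⟩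
  · by_cases a2 : e = e'
    · subst a2
      have f1 : IsFlag P (w, e, F) := ⟨h2.1, h1.2.1, h1.2.2⟩
      refine (ReflTransGen.single (b := (w, e, F)) ⟨f1, Or.inr (Or.inr rfl),
        fun h => absurd h a1, fun _ => rfl, fun _ => rfl⟩).tail ?_
      exact ⟨h2, Or.inl ⟨rfl, rfl⟩, fun h => h.symm, fun h => h.symm, fun h => h.symm⟩
    · by_cases a3 : F = F'
      · subst a3
        exact rtg_mono (h.chain_face h1 h2) fun _ _ s =>
          ⟨s.2.1, s.2.2.2.2, fun h => absurd h a1, fun h => absurd h a2, fun _ => s.2.2.2.1⟩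
      · exact rtg_mono (h.chain_all h1 h2) fun _ _ s =>
          ⟨s.2.1, s.2.2.2.2, fun h => absurd h a1, fun h => absurd h a2, fun h => absurd h a3⟩

/-- Induction over edges through common faces. -/
theorem Good.edge_induction {P : Set (Set (Sym2 X))} (h : Good P) (Q : Sym2 X → Prop)
    (hQ : ∀ F ∈ P, ∀ a ∈ F, ∀ b ∈ F, Q a → Q b) {e e' : Sym2 X} (he : IsEdge P e)
    (he' : IsEdge P e') (h0 : Q e) : Q e' := by
  obtain ⟨F, hF, he⟩ := he
  obtain ⟨F', hF', he'⟩ := he'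
  have h1 := h.chain_all (x := (e.out.1, e, F)) (y := (e'.out.1, e', F'))
    ⟨Sym2.out_fst_mem e, he, hF⟩ ⟨Sym2.out_fst_mem e', he', hF'⟩
  have key : ∀ y, ReflTransGen (Step P fun _ => True) (e.out.1, e, F) y → Q y.2.1 := by
    intro y hy
    induction hy with
    | refl => exact h0
    | @tail b c _ hbc ih =>
      rcases hbc.2.2.2.2 with a | a | a
      · rwa [← a.2]
      · exact hQ _ hbc.1.2.2 _ hbc.1.2.1 _ (a.2 ▸ hbc.2.1.2.1) ih
      · rwa [← a]
  exact key _ h1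

theorem Good.eq_or {P : Set (Set (Sym2 X))} (h : Good P) {e : Sym2 X} {F F' G : Set (Sym2 X)}
    (hF : F ∈ P) (hF' : F' ∈ P) (hne : F ≠ F') (he : e ∈ F) (he' : e ∈ F') (hG : G ∈ P)
    (heG : e ∈ G) : G = F ∨ G = F' := by
  obtain ⟨F'', -, -, h1⟩ := h.two F hF e he
  have a1 : F' ∈ ({F, F''} : Set _) := h1 ▸ ⟨hF', he'⟩
  have a2 : G ∈ ({F, F''} : Set _) := h1 ▸ ⟨hG, heG⟩
  simp only [Set.mem_insert_iff, Set.mem_singleton_iff] at a1 a2
  rcases a1 with a1 | a1
  · exact absurd a1.symm hne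
  · rwa [a1]

theorem Good.second {P : Set (Set (Sym2 X))} (h : Good P) {e : Sym2 X} {F : Set (Sym2 X)}
    (hF : F ∈ P) (he : e ∈ F) : ∃ F' ∈ P, F' ≠ F ∧ e ∈ F' := by
  obtain ⟨F', h1, h2, h3⟩ := h.two F hF e he
  have : F' ∈ {G | G ∈ P ∧ e ∈ G} := by rw [h3]; simp
  exact ⟨F', h1, h2, this.2⟩

/-- A polyhedron contained in a polyhedron is all of it. -/
theorem Good.eq_of_subset {P M : Set (Set (Sym2 X))} (hP : Good P) (hM : Good M) (h : P ⊆ M) :
    P = M := by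
  refine Set.Subset.antisymm h fun G hG => ?_
  have key : ∀ G ∈ M, ∀ a ∈ G, IsEdge P a → G ∈ P := by
    rintro G hG a ha ⟨F, hF, haF⟩
    obtain ⟨F', h1, h2, h3⟩ := hP.second hF haF
    rcases hM.eq_or (h hF) (h h1) h2.symm haF h3 hG ha with rfl | rfl <;> assumption
  obtain ⟨F, hF⟩ := hP.ne
  obtain ⟨e, he⟩ := (hP.poly F hF).nonempty
  obtain ⟨e', he'⟩ := (hM.poly G hG).nonempty
  exact key G hG e' he' (hM.edge_induction (IsEdge P)
    (fun G hG a ha b hb h1 => ⟨G, key G hG a ha h1, hb⟩) ⟨F, h hF, he⟩ ⟨G, hG, he'⟩ ⟨F, hF, he⟩)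

/-- Some vertex lies on three edges. -/
theorem Good.three {P : Set (Set (Sym2 X))} (h : Good P) : ∃ x y₁ y₂ y₃ : X,
    IsEdge P s(x, y₁) ∧ IsEdge P s(x, y₂) ∧ IsEdge P s(x, y₃) ∧ y₁ ≠ y₂ ∧ y₁ ≠ y₃ ∧ y₂ ≠ y₃ := by
  by_contra hcon
  have h3 : ∀ x e₁ e₂ e₃, IsEdge P e₁ → IsEdge P e₂ → IsEdge P e₃ → x ∈ e₁ → x ∈ e₂ → x ∈ e₃ →
      e₁ ≠ e₂ → e₃ = e₁ ∨ e₃ = e₂ := by
    intro x e₁ e₂ e₃ a1 a2 a3 b1 b2 b3 hne
    obtain ⟨y₁, rfl⟩ := Sym2.mem_iff_exists.1 b1
    obtain ⟨y₂, rfl⟩ := Sym2.mem_iff_exists.1 b2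
    obtain ⟨y₃, rfl⟩ := Sym2.mem_iff_exists.1 b3
    by_contra hc
    rw [not_or] at hc
    exact hcon ⟨x, y₁, y₂, y₃, a1, a2, a3, fun e => hne (by rw [e]), fun e => hc.1 (by rw [e]),
      fun e => hc.2 (by rw [e])⟩
  have sub : ∀ F ∈ P, ∀ G ∈ P, ∀ e ∈ F, e ∈ G → F ⊆ G := by
    intro F hF G hG e he heG
    have stp : ∀ a ∈ F, ∀ b ∈ F, ∀ x, x ∈ a → x ∈ b → a ∈ G → b ∈ G := by
      intro a ha b hb x xa xb aG
      obtain ⟨c, cG, xc, hca⟩ := (h.poly G hG).other aG xa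
      rcases h3 x a c b ⟨F, hF, ha⟩ ⟨G, hG, cG⟩ ⟨F, hF, hb⟩ xa xc xb hca.symm with rfl | rfl <;>
        assumption
    obtain ⟨f, -, rfl⟩ := isPolygon_iff.1 (h.poly F hF)
    obtain ⟨i, rfl⟩ := he
    have key : ∀ k : ℤ, s(f (i + k), f (i + k + 1)) ∈ G := by
      intro k
      induction k using Int.induction_on with
      | zero => simpa using heG
      | succ k ih =>
        refine stp _ (edge_mem f _) _ (edge_mem f _) (f (i + k + 1)) (by simp) ?_ ih
        simp [add_assoc]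
      | pred k ih =>
        refine stp _ (edge_mem f _) _ (edge_mem f _) (f (i + -k)) (by simp) ?_ ih
        have : i + (-(k : ℤ) - 1) + 1 = i + -k := by ring
        simp [this]
    rintro _ ⟨j, rfl⟩
    have := key (j - i)
    simpa using this
  obtain ⟨F, hF⟩ := h.ne
  obtain ⟨e, he⟩ := (h.poly F hF).nonempty
  obtain ⟨G, hG, hne, heG⟩ := h.second hF he
  exact hne (Set.Subset.antisymm (sub G hG F hF e heG he) (sub F hF G hG e he heG))

end Pool.Agent.P.MP_708877_co
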