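import Pool.Agent.P.MP_708877_co.Model

/-!
From an axial transitive group of linear symmetries to the list.
-/

namespace Pool.Agent.P.MP_708877_co

open RealInnerProductSpace

theorem shift_of_regular {f : ℤ → E3} (hf : Seq f) (hr : IsRegular (edges f)) :
    ∃ g : E3 ≃ᵢ E3, ∀ i, g (f i) = f (i + 1) := by
  obtain ⟨g, h1, h2, h3⟩ := hr _ (edge_mem f 0) _ (edge_mem f (0 + 1)) (f 0) (by simp)
    (f (0 + 1)) (by simp)
  have hm : ∀ i, s(g (f i), g (f (i + 1))) ∈ edges f := fun i => by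
    rw [← h1]
    exact ⟨_, edge_mem f i, rfl⟩
  have key : ∀ i : ℤ, g (f i) = f (i + 1) ∧ g (f (i + 1)) = f (i + 1 + 1) := by
    intro i
    induction i using Int.induction_on with
    | zero =>
      refine ⟨h2, ?_⟩
      rw [Sym2.map_mk, h2] at h3
      exact Sym2.congr_right.1 h3
    | succ i ih =>
      refine ⟨ih.2, ?_⟩
      have a := hm (i + 1)
      rw [ih.2] at a
      rcases hf.edge_at (i := i + 1 + 1) a (by simp) with e | e
      · exact Sym2.congr_right.1 e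
      · rw [add_sub_cancel_right, Sym2.eq_swap, Sym2.congr_left, ← ih.1] at e
        exact absurd (g.injective e) (by rw [add_assoc]; exact hf.ne2 i)
    | pred i ih =>
      rw [sub_add_cancel]
      refine ⟨?_, ih.1⟩
      have a := hm (-(i : ℤ) - 1)
      rw [sub_add_cancel, ih.1] at a
      rcases hf.edge_at (i := -(i : ℤ) + 1) a (by simp) with e | e
      · rw [Sym2.eq_swap, Sym2.congr_right, ← ih.2] at e
        refine absurd (g.injective e).symm ?_
        have := hf.ne2 (-(i : ℤ) - 1)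
        rwa [show -(i : ℤ) - 1 + 2 = -i + 1 by ring] at this
      · rw [add_sub_cancel_right] at e
        exact Sym2.congr_left.1 e
  exact ⟨g, fun i => (key i).1⟩

/-- Linear symmetries that respect the height along `u` are transitive on vertices. -/
def LinAx (P : Set (Set (Sym2 E3))) (u : E3) : Prop :=
  ∀ v ∈ verts P, ∀ w ∈ verts P, ∃ L : E3 ≃ₗᵢ[ℝ] E3, image L P = P ∧ L v = w ∧
    ∃ s : ℝ, (s = 1 ∨ s = -1) ∧ ∀ x ∈ verts P, ⟪L x, u⟫ = s * ⟪x, u⟫

theorem LinAx.smul {P : Set (Set (Sym2 E3))} {u : E3} (h : LinAx P u) (t : ℝ) :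
    LinAx P (t • u) := fun v hv w hw => by
  obtain ⟨L, a, b, s, c, d⟩ := h v hv w hw
  refine ⟨L, a, b, s, c, fun x hx => ?_⟩
  rw [real_inner_smul_right, real_inner_smul_right, d x hx]
  ring

theorem mem_verts_of_sym {P : Set (Set (Sym2 E3))} {g : E3 → E3} (h : image g P = P) {v : E3}
    (hv : v ∈ verts P) : g v ∈ verts P := by
  rw [← h, verts_image]
  exact ⟨v, hv, rfl⟩

theorem exists_param {h : ℝ} {v : E3} (h1 : v 0 ^ 2 + v 1 ^ 2 = 1) (h2 : v 2 = h ∨ v 2 = -h) :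
    ∃ x : G0, ptG h x = v ∧ (h = 0 → x.2 = 0) := by
  have n : ‖(⟨v 0, v 1⟩ : ℂ)‖ = 1 := by
    rw [← sq_eq_sq₀ (norm_nonneg _) zero_le_one, Complex.sq_norm, Complex.normSq_mk]
    linarith
  have n0 : (⟨v 0, v 1⟩ : ℂ) ≠ 0 := fun e => by simp [e] at n
  have c := Complex.cos_arg n0
  have s := Complex.sin_arg (⟨v 0, v 1⟩ : ℂ)
  rw [n, div_one] at c s
  by_cases e : v 2 = h
  · refine ⟨((Complex.arg ⟨v 0, v 1⟩ : ℝ), 0), ?_, fun _ => rfl⟩
    ext i
    fin_cases i <;> simp [ptG, c, s, e]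
  · refine ⟨((Complex.arg ⟨v 0, v 1⟩ : ℝ), 1), ?_, fun h0 => ?_⟩
    · ext i
      fin_cases i <;> simp [ptG, c, s, h2.resolve_left e]
    · exact absurd (by simpa [h0] using h2) e

/-- The normalised situation. -/
theorem core0 {P : Set (Set (Sym2 E3))} (hP : Good P) (reg : ∀ F ∈ P, IsRegular F)
    (ax : LinAx P e3) {h : ℝ} (hh : 0 ≤ h) (h0 : ptG h 0 ∈ verts P) : IsModel P := by
  have nrm : ∀ v ∈ verts P, ‖v‖ = ‖ptG h 0‖ := fun v hv => by
    obtain ⟨L, -, b, -⟩ := ax _ h0 v hv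
    rw [← b, L.norm_map]
  have ex : ∀ v ∈ verts P, ∃ x : G0, ptG h x = v ∧ (h = 0 → x.2 = 0) := by
    intro v hv
    have h2 : v 2 = h ∨ v 2 = -h := by
      obtain ⟨L, -, b, s, c, d⟩ := ax _ h0 v hv
      have := d _ h0
      rw [b, inner_e3, inner_e3] at this
      rcases c with rfl | rfl <;> simp [this, ptG]
    refine exists_param ?_ h2
    have := nrm v hv
    rw [← sq_eq_sq₀ (norm_nonneg _) (norm_nonneg _), EuclideanSpace.real_norm_sq_eq,
      EuclideanSpace.real_norm_sq_eq, Fin.sum_univ_three, Fin.sum_univ_three] at this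
    have e : v 2 ^ 2 = h ^ 2 := by rcases h2 with e | e <;> simp [e]
    simp [ptG] at this
    linarith
  choose! σ hσ hσ0 using ex
  have inj : Set.InjOn σ (verts P) := fun v hv w hw e => by rw [← hσ v hv, e, hσ w hw]
  have hG := hP.image inj
  have back : image (ptG h) (image σ P) = P := by
    rw [image_image, image_congr hσ, image_id]
  have regG : ∀ F ∈ image σ P, ∃ f, Seq f ∧ F = edges f ∧
      ∀ i j, ker h (f (i + 1) - f (j + 1)) = ker h (f i - f j) := by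
    rintro _ ⟨F, hF, rfl⟩
    obtain ⟨f, hf, rfl⟩ := isPolygon_iff.1 (hP.poly F hF)
    have hv : ∀ i, f i ∈ verts P := fun i => IsEdge.left ⟨_, hF, edge_mem f i⟩
    obtain ⟨g, hg⟩ := shift_of_regular hf (reg _ hF)
    refine ⟨fun i => σ (f i), ⟨fun i j k e => congrArg σ (hf.1 i j k (inj (hv i) (hv j) e)),
      fun e => hf.2 (inj (hv 2) (hv 0) e)⟩, image_edges σ f, fun i j => ?_⟩
    rw [← inner_ptG, ← inner_ptG, hσ _ (hv _), hσ _ (hv _), hσ _ (hv _), hσ _ (hv _),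
      real_inner_eq_norm_mul_self_add_norm_mul_self_sub_norm_sub_mul_self_div_two,
      real_inner_eq_norm_mul_self_add_norm_mul_self_sub_norm_sub_mul_self_div_two,
      nrm _ (hv _), nrm _ (hv _), nrm _ (hv i), nrm _ (hv j), ← dist_eq_norm, ← dist_eq_norm,
      ← hg, ← hg, g.dist_eq]
  have hne : h ≠ 0 := by
    intro e
    obtain ⟨-, β, -, hβ, -, -, -, -, x, hx⟩ := exists_steps hG regG
    have a := hx.left
    have b := hx.right
    rw [verts_image] at a b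
    obtain ⟨v, hv, rfl⟩ := a
    obtain ⟨w, hw, b⟩ := b
    have := hσ0 w hw e
    simp [b, hσ0 v hv e, hβ] at this
  have pinj := ptG_inj hne
  have z : (0 : G0) ∈ verts (image σ P) := by
    rw [verts_image]
    exact ⟨_, h0, pinj (hσ _ h0)⟩
  refine isModel_iff.2 ⟨h, lt_of_le_of_ne hh hne.symm, _, master hne hG z regG ?_, back.symm⟩
  rw [verts_image]
  rintro _ ⟨v, hv, rfl⟩ _ ⟨w, hw, rfl⟩
  obtain ⟨L, a, b, s, c, d⟩ := ax v hv w hw
  have Lv : ∀ x ∈ verts P, L x ∈ verts P := fun x hx => mem_verts_of_sym a hx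
  refine ⟨fun x => σ (L (ptG h x)), ?_, by simp only [hσ v hv, b], ?_, ?_, ?_⟩
  · rw [image_image, image_congr (g := fun x => σ (L x)) fun x hx => by rw [hσ x hx],
      ← image_image σ L, a]
  · rintro _ ⟨x, hx, rfl⟩ _ ⟨y, hy, rfl⟩ e
    simp only [hσ x hx, hσ y hy] at e
    rw [L.injective (inj (Lv x hx) (Lv y hy) e)]
  · have k : ∀ x ∈ verts P, sg (σ (L x)).2 = s * sg (σ x).2 := by
      intro x hx
      have e := d x hx
      rw [← hσ _ (Lv x hx), inner_e3] at e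
      nth_rewrite 2 [← hσ x hx] at e
      rw [inner_e3] at e
      simp only [ptG, Matrix.cons_val] at e
      apply mul_right_cancel₀ hne
      linear_combination e
    rintro _ ⟨x, hx, rfl⟩ _ ⟨y, hy, rfl⟩
    apply sg_inj
    simp only [par_apply, Prod.snd_sub, sg_sub, hσ x hx, hσ y hy, k x hx, k y hy]
    rcases c with rfl | rfl <;> ring
  · rintro _ ⟨x, hx, rfl⟩ ⟨y, hy, e⟩
    apply pinj
    simp only [← e, hσ x hx, hσ y hy]
    rw [ptG_om, hσ _ (Lv x hx), hσ _ (Lv y hy), ← map_neg, ← hσ y hy, e, ptG_om, hσ x hx]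

theorem exists_conj {c : ℝ} (hc : c ≠ 0) (g k : E3 ≃ᵢ E3) :
    ∃ k' : E3 ≃ᵢ E3, ∀ x, k' (c • g x) = c • g (k x) := by
  let H : E3 ≃ E3 := (LinearEquiv.smulOfNeZero ℝ E3 c hc).toEquiv
  have H1 : ∀ x, H x = c • x := fun _ => rfl
  have H2 : ∀ x, H.symm x = c⁻¹ • x := fun x => by
    rw [Equiv.symm_apply_eq, H1, smul_inv_smul₀ hc]
  refine ⟨⟨H.symm.trans (((g.symm.trans k).trans g).toEquiv.trans H),
    Isometry.of_dist_eq fun x y => ?_⟩, fun x => ?_⟩
  · change dist (H (g (k (g.symm (H.symm x))))) (H (g (k (g.symm (H.symm y))))) = _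
    rw [H1, H1, H2, H2, dist_smul₀, g.dist_eq, k.dist_eq, g.symm.dist_eq, dist_smul₀, ← mul_assoc,
      ← norm_mul, mul_inv_cancel₀ hc, norm_one, one_mul]
  · change H (g (k (g.symm (H.symm (c • g x))))) = _
    rw [H1, H2, inv_smul_smul₀ hc, g.symm_apply_apply]

theorem sim_inj {c : ℝ} (hc : c ≠ 0) (g : E3 ≃ᵢ E3) :
    Function.Injective fun x => c • g x := fun _ _ e => g.injective (smul_right_injective _ hc e)

theorem IsRegular.sim {F : Set (Sym2 E3)} (h : IsRegular F) {c : ℝ} (hc : c ≠ 0) (g : E3 ≃ᵢ E3) :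
    IsRegular (Sym2.map (fun x => c • g x) '' F) := by
  rintro _ ⟨e, he, rfl⟩ _ ⟨e', he', rfl⟩ z hz z' hz'
  obtain ⟨v, hv, rfl⟩ := Sym2.mem_map.1 hz
  obtain ⟨v', hv', rfl⟩ := Sym2.mem_map.1 hz'
  obtain ⟨k, a, b, d⟩ := h e he e' he' v hv v' hv'
  obtain ⟨k', hk⟩ := exists_conj hc g k
  refine ⟨k', ?_, by rw [hk, b], ?_⟩
  · rw [face_image_image]
    simp only [hk]
    rw [← face_image_image (fun x => c • g x) k, a]
  · rw [← d, Sym2.map_map, Sym2.map_map]
    congr 1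
    exact funext hk

theorem sym_sim {P : Set (Set (Sym2 E3))} {c : ℝ} {g k k' : E3 → E3}
    (hk : ∀ x, k' (c • g x) = c • g (k x)) (a : image k P = P) :
    image k' (image (fun x => c • g x) P) = image (fun x => c • g x) P := by
  rw [image_image]
  simp only [hk]
  rw [← image_image (fun x => c • g x) k, a]

theorem core {P : Set (Set (Sym2 E3))} (hP : Good P) (reg : ∀ F ∈ P, IsRegular F) {u : E3}
    (hu : u ≠ 0) (ax : LinAx P u) :
    ∃ (c : ℝ) (B : E3 ≃ₗᵢ[ℝ] E3), 0 < c ∧ IsModel (image (fun x => c • B x) P) := by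
  obtain ⟨v₀, y₁, y₂, y₃, e1, e2, e3', n1, n2, n3⟩ := hP.three
  obtain ⟨u, nu, ax, pos⟩ : ∃ u : E3, ‖u‖ = 1 ∧ LinAx P u ∧ 0 ≤ ⟪v₀, u⟫ := by
    rcases le_total 0 ⟪v₀, ‖u‖⁻¹ • u⟫ with c | c
    · exact ⟨_, norm_smul_inv_norm hu, ax.smul _, c⟩
    · refine ⟨(-1 : ℝ) • ‖u‖⁻¹ • u, ?_, (ax.smul _).smul _, ?_⟩
      · rw [neg_one_smul, norm_neg]
        exact norm_smul_inv_norm hu
      · rw [neg_one_smul, inner_neg_right]
        linarith
  obtain ⟨η, hη⟩ : ∃ η, η = ⟪v₀, u⟫ := ⟨_, rfl⟩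
  obtain ⟨w, hw⟩ : ∃ w, w = v₀ - η • u := ⟨_, rfl⟩
  have uu : ⟪u, u⟫ = 1 := by rw [real_inner_self_eq_norm_sq, nu, one_pow]
  have wu : ⟪w, u⟫ = 0 := by rw [hw, inner_sub_left, real_inner_smul_left, uu, hη]; ring
  obtain ⟨B, hB⟩ := exists_iso ![u, w] ![e3, !₂[‖w‖, 0, 0]] (by
    intro i j
    fin_cases i <;> fin_cases j
    · simp [e3, EuclideanSpace.norm_eq, Fin.sum_univ_three, nu]
    · refine ((real_inner_comm _ _).trans wu).trans ?_
      simp [e3, PiLp.inner_apply, Fin.sum_univ_three]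
    · simp [wu, e3, PiLp.inner_apply, Fin.sum_univ_three]
    · simp [EuclideanSpace.norm_eq, Fin.sum_univ_three])
  have Bu : B u = e3 := hB 0
  have Bw : B w = !₂[‖w‖, 0, 0] := hB 1
  have r0 : ‖w‖ ≠ 0 := by
    intro e
    have e' : v₀ = η • u := by rwa [norm_eq_zero, hw, sub_eq_zero] at e
    have k : ∀ y ∈ verts P, Pm y v₀ := by
      intro y hy
      obtain ⟨L, -, b, s, c, d⟩ := ax _ e1.left y hy
      have d1 := d _ e1.left
      have d2 : ‖y‖ = ‖v₀‖ := by rw [← b, L.norm_map]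
      rw [b, ← hη] at d1
      have d3 : ‖v₀‖ ^ 2 = η ^ 2 := by rw [e', norm_smul, nu]; simp
      have d4 : ‖y - s • v₀‖ ^ 2 = 0 := by
        rw [norm_sub_sq_real, norm_smul, mul_pow, d2, d3, real_inner_smul_right, e',
          real_inner_smul_right, d1]
        rcases c with rfl | rfl <;> simp <;> ring
      have d5 : y = s • v₀ := by simpa [sub_eq_zero] using d4
      rcases c with rfl | rfl
      · exact Or.inl (by simpa using d5)
      · exact Or.inr (by simpa using d5)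
    have := pm_three (k _ e1.right) (k _ e2.right) (k _ e3'.right)
    tauto
  have rpos : 0 < ‖w‖⁻¹ := by positivity
  refine ⟨‖w‖⁻¹, B, rpos, core0 (h := ‖w‖⁻¹ * η)
    (hP.image (sim_inj rpos.ne' B.toIsometryEquiv).injOn) ?_ ?_ (by rw [hη]; positivity) ?_⟩
  · rintro _ ⟨F, hF, rfl⟩
    exact (reg F hF).sim rpos.ne' B.toIsometryEquiv
  · intro v hv v' hv'
    rw [verts_image] at hv hv' ⊢
    obtain ⟨v, hv, rfl⟩ := hv
    obtain ⟨v', hv', rfl⟩ := hv'
    obtain ⟨L, a, b, s, c, d⟩ := ax v hv v' hv'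
    have k : ∀ x, ((B.symm.trans L).trans B) (‖w‖⁻¹ • B x) = ‖w‖⁻¹ • B (L x) := fun x => by simp
    refine ⟨(B.symm.trans L).trans B, sym_sim k a, by rw [k, b], s, c, ?_⟩
    rintro _ ⟨x, hx, rfl⟩
    rw [k, ← Bu, real_inner_smul_left, real_inner_smul_left, B.inner_map_map, B.inner_map_map,
      d x hx]
    ring
  · rw [verts_image]
    refine ⟨v₀, e1.left, ?_⟩
    have : v₀ = w + η • u := by rw [hw]; simp
    rw [this]
    simp only [map_add, map_smul, Bu, Bw]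
    ext i
    fin_cases i <;> simp [ptG, e3, r0]

end Pool.Agent.P.MP_708877_co
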