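import Mathlib

/-!
Uniform polyhedra in Euclidean 3-space: definitions.
A face is identified with its set of edges, an edge with the unordered pair of its endpoints,
and a polyhedron with its set of faces.
-/

namespace Pool.Agent.P.MP_708877_co

open Real

/-- Euclidean 3-space. -/
abbrev E3 : Type := EuclideanSpace ℝ (Fin 3)

variable {X Y : Type}

/-- The edges joining consecutive terms of a cyclic or bi-infinite sequence. -/
def edges {ι : Type} [Add ι] [One ι] (f : ι → X) : Set (Sym2 X) :=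
  Set.range fun i => s(f i, f (i + 1))

/-- A polygon: a cyclic sequence of `n ≥ 3` distinct points, or (`n = 0`) a bi-infinite one. -/
def IsPolygon (F : Set (Sym2 X)) : Prop :=
  ∃ (n : ℕ) (f : ZMod n → X), n ≠ 1 ∧ n ≠ 2 ∧ Function.Injective f ∧ F = edges f

/-- A flag: a vertex, an edge through it and a face containing the edge. -/
def IsFlag (P : Set (Set (Sym2 X))) (x : X × Sym2 X × Set (Sym2 X)) : Prop :=
  x.1 ∈ x.2.1 ∧ x.2.1 ∈ x.2.2 ∧ x.2.2 ∈ P

/-- Two flags differ in at most one element. -/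
def Near (x y : X × Sym2 X × Set (Sym2 X)) : Prop :=
  (x.1 = y.1 ∧ x.2.1 = y.2.1) ∨ (x.1 = y.1 ∧ x.2.2 = y.2.2) ∨ x.2 = y.2

/-- A polyhedron: the faces are polygons, every edge lies in exactly two faces, and any two flags
are joined by a chain of adjacent flags all containing their common elements. -/
def IsPolyhedron (P : Set (Set (Sym2 X))) : Prop :=
  P.Nonempty ∧ (∀ F ∈ P, IsPolygon F) ∧
  (∀ F ∈ P, ∀ e ∈ F, ∃ F' ∈ P, F' ≠ F ∧ {G | G ∈ P ∧ e ∈ G} = {F, F'}) ∧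
  ∀ x y, IsFlag P x → IsFlag P y →
    Relation.ReflTransGen (fun z w => IsFlag P w ∧ Near z w ∧ (x.1 = y.1 → w.1 = x.1) ∧
      (x.2.1 = y.2.1 → w.2.1 = x.2.1) ∧ (x.2.2 = y.2.2 → w.2.2 = x.2.2)) x y

/-- The vertices. -/
def verts (P : Set (Set (Sym2 X))) : Set X := {v | ∃ F ∈ P, ∃ e ∈ F, v ∈ e}

/-- The image of a set of faces under a map of points. -/
def image (g : X → Y) (P : Set (Set (Sym2 X))) : Set (Set (Sym2 Y)) :=
  (fun F => Sym2.map g '' F) '' P

/-- A regular polygon: its symmetry group is transitive on incident vertex-edge pairs. -/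
def IsRegular (F : Set (Sym2 E3)) : Prop :=
  ∀ e ∈ F, ∀ e' ∈ F, ∀ v ∈ e, ∀ v' ∈ e',
    ∃ g : E3 ≃ᵢ E3, Sym2.map g '' F = F ∧ g v = v' ∧ Sym2.map g e = e'

/-- A uniform polyhedron. -/
def IsUniform (P : Set (Set (Sym2 E3))) : Prop :=
  IsPolyhedron P ∧ (∀ F ∈ P, IsRegular F) ∧
  ∀ v ∈ verts P, ∀ w ∈ verts P, ∃ g : E3 ≃ᵢ E3, image g P = P ∧ g v = w

/-- The symmetries preserving some fixed direction are transitive on the vertices. -/
def IsAxial (P : Set (Set (Sym2 E3))) : Prop :=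
  ∃ u : E3, u ≠ 0 ∧ ∀ v ∈ verts P, ∀ w ∈ verts P,
    ∃ g : E3 ≃ᵢ E3, image g P = P ∧ g v = w ∧ (g u - g 0 = u ∨ g u - g 0 = -u)

/-- The point at angle `i a + j b` on the unit circle at height `(-1)^j h`. -/
noncomputable def pt (a b h : ℝ) (i j : ℤ) : E3 :=
  !₂[cos (i * a + j * b), sin (i * a + j * b), (-1) ^ j * h]

/-- All faces `k ↦ pt (i + (w k).1) (j + (w k).2)` of the shape `w`. -/
def orb (a b h : ℝ) {ι : Type} [Add ι] [One ι] (w : ι → ℤ × ℤ) : Set (Set (Sym2 E3)) :=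
  {F | ∃ i j : ℤ, F = edges fun k => pt a b h (i + (w k).1) (j + (w k).2)}

/-- The list: prisms, skew prisms, antiprisms, skew antiprisms, the central-square family,
the tetrahedron and the Petrie dual of the cube. -/
def IsModel (P : Set (Set (Sym2 E3))) : Prop :=
  ∃ a b h : ℝ, 0 < h ∧ cos b - cos a = 2 * h ^ 2 ∧
    let H := orb a b h fun k : ℤ => (k, 0)
    let S := orb a b h fun k : ℤ => (0, k)
    let K := orb a b h ![(0, 0), (1, 0), (1, 1), (0, 1)]
    let Z := orb a b h ![(0, 0), (1, 0), (1, 1), (2, 1)]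
    let T := orb a b h ![(0, 0), (0, 1), (0, 2)]
    let D := orb a b h ![(0, 0), (1, 0), (2, 0), (2, 1), (3, 1), (4, 1)]
    (b = 0 ∧ sin a ≠ 0 ∧ P = K ∪ H) ∨ (a = π ∧ sin b ≠ 0 ∧ P = K ∪ S) ∨
    (a = -2 * b ∧ sin a ≠ 0 ∧ P = T ∪ H) ∨ (b = π - 2 * a ∧ sin b ≠ 0 ∧ P = D ∪ S) ∨
    (b = π - a ∧ sin a ≠ 0 ∧ P = Z ∪ H ∪ S) ∨
    (a = -2 * b ∧ sin a = 0 ∧ P = T) ∨ (b = π - 2 * a ∧ sin b = 0 ∧ P = D)

end Pool.Agent.P.MP_708877_co
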