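import Pool.Agent.P.MP_708877_co.Classify

/-!
Regular polygons with vertices on two parallel circles.
-/

namespace Pool.Agent.P.MP_708877_co

open RealInnerProductSpace

theorem recurrence {p : ℤ → E3} (hT : ∀ i j, ⟪p (i + 1), p (j + 1)⟫ = ⟪p i, p j⟫)
    (h1 : ∀ i, p (i + 1) ≠ p i) (h2 : ∀ i, p (i + 2) ≠ p i) :
    ∃ δ t : ℝ, (δ = 1 ∨ δ = -1) ∧
      ∀ i, p (i + 3) - δ • p i = t • (p (i + 2) - δ • p (i + 1)) := by
  have hs : ∀ k i j, ⟪p (i + k), p (j + k)⟫ = ⟪p i, p j⟫ := by
    intro k i j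
    induction k using Int.induction_on with
    | zero => simp
    | succ k ih => rw [← add_assoc, ← add_assoc, hT, ih]
    | pred k ih =>
      rw [← hT, ← ih]
      congr 2 <;> ring
  have hg : ∀ i k, ⟪p i, p (i + k)⟫ = ⟪p 0, p k⟫ := by
    intro i k
    rw [← hs i 0 k, zero_add, add_comm]
  have hQ : ∀ (i : ℤ) (a b c d : ℝ),
      ⟪a • p i + b • p (i + 1) + c • p (i + 2) + d • p (i + 3),
        a • p i + b • p (i + 1) + c • p (i + 2) + d • p (i + 3)⟫ =
      (a ^ 2 + b ^ 2 + c ^ 2 + d ^ 2) * ⟪p 0, p 0⟫ + 2 * (a * b + b * c + c * d) * ⟪p 0, p 1⟫ +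
        2 * (a * c + b * d) * ⟪p 0, p 2⟫ + 2 * (a * d) * ⟪p 0, p 3⟫ := by
    intro i a b c d
    have g0 : ∀ j, ⟪p j, p j⟫ = ⟪p 0, p 0⟫ := fun j => by simpa using hg j 0
    have g01 := hg i 1
    have g02 := hg i 2
    have g03 := hg i 3
    have g12 : ⟪p (i + 1), p (i + 2)⟫ = ⟪p 0, p 1⟫ := by
      rw [← hg (i + 1) 1]; congr 2; ring
    have g13 : ⟪p (i + 1), p (i + 3)⟫ = ⟪p 0, p 2⟫ := by
      rw [← hg (i + 1) 2]; congr 2; ring
    have g23 : ⟪p (i + 2), p (i + 3)⟫ = ⟪p 0, p 1⟫ := by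
      rw [← hg (i + 2) 1]; congr 2; ring
    simp only [inner_add_left, inner_add_right, real_inner_smul_left, real_inner_smul_right,
      real_inner_comm (p i) (p (i + 1)), real_inner_comm (p i) (p (i + 2)),
      real_inner_comm (p i) (p (i + 3)), real_inner_comm (p (i + 1)) (p (i + 2)),
      real_inner_comm (p (i + 1)) (p (i + 3)), real_inner_comm (p (i + 2)) (p (i + 3)),
      g0 i, g0 (i + 1), g0 (i + 2), g0 (i + 3), g01, g02, g03, g12, g13, g23]
    ring
  have hdep : ¬ LinearIndependent ℝ ![p 0, p 1, p 2, p 3] := by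
    intro h
    have := h.fintype_card_le_finrank
    simp at this
  obtain ⟨c, hc, hne⟩ := Fintype.not_linearIndependent_iff.1 hdep
  rw [Fin.sum_univ_four] at hc
  have q0 := hQ 0 (c 0) (c 1) (c 2) (c 3)
  have hc' : c 0 • p 0 + c 1 • p (0 + 1) + c 2 • p (0 + 2) + c 3 • p (0 + 3) = 0 := by
    simpa using hc
  rw [hc', inner_zero_left] at q0
  have r1 : ∀ i, c 0 • p i + c 1 • p (i + 1) + c 2 • p (i + 2) + c 3 • p (i + 3) = 0 := by
    intro i
    rw [← inner_self_eq_zero (𝕜 := ℝ), hQ, ← q0]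
  have r2 : ∀ i, c 3 • p i + c 2 • p (i + 1) + c 1 • p (i + 2) + c 0 • p (i + 3) = 0 := by
    intro i
    rw [← inner_self_eq_zero (𝕜 := ℝ), hQ, q0]
    ring
  have key : ∀ δ u v : ℝ, (δ = 1 ∨ δ = -1) → (u ≠ 0 ∨ v ≠ 0) →
      (∀ i, u • (p (i + 3) - δ • p i) = v • (p (i + 2) - δ • p (i + 1))) →
      ∃ δ t : ℝ, (δ = 1 ∨ δ = -1) ∧
        ∀ i, p (i + 3) - δ • p i = t • (p (i + 2) - δ • p (i + 1)) := by
    intro δ u v hδ huv h
    by_cases hu : u = 0
    · exfalso
      have hv : v ≠ 0 := huv.resolve_left fun e => e hu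
      have h3 : ∀ i, p (i + 2) = δ • p (i + 1) := fun i => by
        have := h i
        rw [hu, zero_smul, eq_comm, smul_eq_zero, sub_eq_zero] at this
        exact this.resolve_left hv
      rcases hδ with rfl | rfl
      · exact h1 1 (by simpa using h3 0)
      · apply h2 1
        have a := h3 0
        have b := h3 1
        norm_num at a b ⊢
        rw [b, a, neg_neg]
    · refine ⟨δ, u⁻¹ * v, hδ, fun i => ?_⟩
      rw [mul_smul, ← h i, smul_smul, inv_mul_cancel₀ hu, one_smul]
  by_cases hz : c 0 + c 3 = 0 ∧ c 1 + c 2 = 0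
  · refine key 1 (c 3 - c 0) (c 1 - c 2) (Or.inl rfl) ?_ fun i => ?_
    · by_contra hh
      push Not at hh
      obtain ⟨k, hk⟩ := hne
      fin_cases k <;> simp at hk <;> apply hk <;> linarith [hz.1, hz.2, hh.1, hh.2]
    · linear_combination (norm := module) r1 i - r2 i
  · refine key (-1) (c 0 + c 3) (-(c 1 + c 2)) (Or.inr rfl) ?_ fun i => ?_
    · rw [neg_ne_zero]
      tauto
    · linear_combination (norm := module) r1 i + r2 i

/-- The group of parameters: an angle and a level. -/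
abbrev G0 : Type := Real.Angle × ZMod 2

/-- The level. -/
noncomputable def par : G0 →+ ZMod 2 := AddMonoidHom.snd _ _

@[simp] theorem par_apply (x : G0) : par x = x.2 := rfl

/-- The antipodal shift. -/
noncomputable def om : G0 := ((Real.pi : Real.Angle), 1)

/-- The sign of a level. -/
def sg (e : ZMod 2) : ℝ := if e = 0 then 1 else -1

theorem zmod2_cases (e : ZMod 2) : e = 0 ∨ e = 1 := by revert e; decide

@[simp] theorem sg_zero : sg 0 = 1 := by simp [sg]

@[simp] theorem sg_one : sg 1 = -1 := by simp [sg]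

theorem zmod2_one_add : (1 : ZMod 2) + 1 = 0 := by decide

theorem sg_add (a b : ZMod 2) : sg (a + b) = sg a * sg b := by
  rcases zmod2_cases a with rfl | rfl <;> rcases zmod2_cases b with rfl | rfl <;>
    simp [zmod2_one_add]

theorem sg_neg (a : ZMod 2) : sg (-a) = sg a := by rw [zmod2_neg]

theorem sg_sub (a b : ZMod 2) : sg (a - b) = sg a * sg b := by rw [sub_eq_add_neg, sg_add, sg_neg]

theorem sg_cases (a : ZMod 2) : sg a = 1 ∨ sg a = -1 := by
  rcases zmod2_cases a with rfl | rfl <;> simp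

theorem sg_inj {a b : ZMod 2} (h : sg a = sg b) : a = b := by
  rcases zmod2_cases a with rfl | rfl <;> rcases zmod2_cases b with rfl | rfl <;>
    first | rfl | (norm_num at h)

/-- The point with given parameters. -/
noncomputable def ptG (h : ℝ) (x : G0) : E3 := !₂[x.1.cos, x.1.sin, sg x.2 * h]

/-- The inner product kernel. -/
noncomputable def ker (h : ℝ) (x : G0) : ℝ := x.1.cos + sg x.2 * h ^ 2

theorem inner_ptG (h : ℝ) (x y : G0) : ⟪ptG h x, ptG h y⟫ = ker h (x - y) := by
  simp only [ptG, ker, PiLp.inner_apply, Fin.sum_univ_three, Prod.fst_sub, Prod.snd_sub, sg_sub,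
    sub_eq_add_neg x.1, Real.Angle.cos_add, Real.Angle.cos_neg, Real.Angle.sin_neg]
  simp
  ring

theorem ptG_inj {h : ℝ} (hh : h ≠ 0) : Function.Injective (ptG h) := by
  intro x y e
  have e0 := congrArg (fun v : E3 => v 0) e
  have e1 := congrArg (fun v : E3 => v 1) e
  have e2 := congrArg (fun v : E3 => v 2) e
  simp [ptG, hh] at e0 e1 e2
  refine Prod.ext ?_ (sg_inj e2)
  generalize x.1 = a at e0 e1
  generalize y.1 = b at e0 e1
  induction a using Real.Angle.induction_on
  induction b using Real.Angle.induction_on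
  exact Real.Angle.cos_sin_inj e0 e1

theorem om_add : om + om = 0 := by
  ext
  · simp [om]
  · simp [om, zmod2_one_add]

theorem ptG_om (h : ℝ) (x : G0) : ptG h (x + om) = -ptG h x := by
  ext i
  fin_cases i <;> simp [ptG, om, sg_add]

theorem ker_neg (h : ℝ) (x : G0) : ker h (-x) = ker h x := by simp [ker]

theorem ker_om (h : ℝ) (x : G0) : ker h (x + om) = -ker h x := by
  simp [ker, om, sg_add]
  ring

theorem Pm.ker {h : ℝ} {s t : G0} (e : Pm s t) : ker h s = ker h t := by
  rcases e with rfl | rfl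
  · rfl
  · exact ker_neg _ _

theorem pm_of_ker {h : ℝ} {s t : G0} (e : ker h s = ker h t) (e2 : s.2 = t.2) : Pm s t := by
  unfold ker at e
  rw [e2, add_left_inj, Real.Angle.cos_eq_iff_eq_or_eq_neg] at e
  rcases e with e | e
  · exact Or.inl (Prod.ext e e2)
  · exact Or.inr (Prod.ext e (by rw [e2]; exact (zmod2_neg _).symm))

theorem mem_edges_periodic {X : Type} {f : ℤ → X} {n : ℤ} (hn : 0 < n)
    (h : ∀ i, f (i + n) = f i) (i₀ : ℤ) {e : Sym2 X} (he : e ∈ edges f) :
    ∃ r : ℤ, 0 ≤ r ∧ r < n ∧ e = s(f (i₀ + r), f (i₀ + r + 1)) := by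
  obtain ⟨k, rfl⟩ := he
  have hp : Function.Periodic f n := h
  have h1 := hp.int_mul ((k - i₀) / n)
  have h2 := Int.emod_add_ediv_mul (k - i₀) n
  refine ⟨(k - i₀) % n, Int.emod_nonneg _ hn.ne', Int.emod_lt_of_pos _ hn, ?_⟩
  rw [← h1 (i₀ + (k - i₀) % n), ← h1 (i₀ + (k - i₀) % n + 1)]
  simp only [Int.cast_id]
  congr 2 <;> linarith

theorem face_P {G : Type} [AddCommGroup G] {f : ℤ → G} (hf : Seq f) {w γ₀ κ₀ : G}
    (hw : w + w = 0) (h3 : ∀ i, f (i + 3) = f i + w) (i : ℤ) (s0 : Pm (f (i + 1) - f i) γ₀)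
    (s1 : Pm (f (i + 2) - f (i + 1)) γ₀) (s2 : Pm (f (i + 3) - f (i + 2)) κ₀) :
    ∃ x γ κ, Pm γ γ₀ ∧ Pm κ κ₀ ∧ γ + γ + κ = w ∧ edges f = fP γ κ x := by
  have e1 : f (i + 2) - f (i + 1) = f (i + 1) - f i := by
    rcases s1.trans s0.symm with e | e
    · exact e
    · exact absurd (by linear_combination (norm := abel1) e) (hf.ne2 i)
  have e2 : f (i + 1) - f i + (f (i + 1) - f i) + (f (i + 3) - f (i + 2)) = w := by
    linear_combination (norm := abel1) h3 i - e1
  refine ⟨f i, _, _, s0, s2, e2, ?_⟩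
  rw [fP_eq_hexa (by rw [e2, hw]), e2]
  have e3 : f i + (f (i + 1) - f i) = f (i + 1) := by abel
  have e4 : f (i + 1) + (f (i + 1) - f i) = f (i + 2) := by
    linear_combination (norm := abel1) -e1
  rw [e3, e4]
  have a3 := h3 i
  have a4 : f (i + 4) = f (i + 1) + w := by rw [← h3]; congr 1; ring
  have a5 : f (i + 5) = f (i + 2) + w := by rw [← h3]; congr 1; ring
  have h6 : ∀ j, f (j + 6) = f j := fun j => by
    rw [show j + 6 = j + 3 + 3 by ring, h3, h3, add_assoc, hw, add_zero]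
  ext e
  constructor
  · intro he
    obtain ⟨r, r0, r1, rfl⟩ := mem_edges_periodic (by norm_num) h6 i he
    interval_cases r <;> simp [hexa, add_assoc, a3, a4, a5, h6]
  · rintro (rfl | rfl | rfl | rfl | rfl | rfl)
    · exact ⟨i, rfl⟩
    · exact ⟨i + 1, by simp [add_assoc]⟩
    · exact ⟨i + 3, by simp [add_assoc, a3, a4]⟩
    · exact ⟨i + 4, by simp [add_assoc, a4, a5]⟩
    · exact ⟨i + 2, by simp [add_assoc, a3]⟩
    · exact ⟨i + 5, by simp [add_assoc, a5, h6]⟩

theorem edges_period_four {X : Type} {f : ℤ → X} (h4 : ∀ i, f (i + 4) = f i) (i : ℤ) :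
    edges f = {e | e = s(f i, f (i + 1)) ∨ e = s(f (i + 1), f (i + 2)) ∨
      e = s(f (i + 2), f (i + 3)) ∨ e = s(f (i + 3), f i)} := by
  ext e
  constructor
  · intro he
    obtain ⟨r, r0, r1, rfl⟩ := mem_edges_periodic (by norm_num) h4 i he
    interval_cases r <;> simp [add_assoc, h4]
  · rintro (rfl | rfl | rfl | rfl)
    · exact ⟨i, rfl⟩
    · exact ⟨i + 1, by simp [add_assoc]⟩
    · exact ⟨i + 2, by simp [add_assoc]⟩
    · exact ⟨i + 3, by simp [add_assoc, h4]⟩

theorem face_Q {h : ℝ} (hh : h ≠ 0) {α β : G0} (hα : α.2 = 0) (hβ : β.2 = 1)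
    (hk : ker h α = ker h β) {f : ℤ → G0} (h4 : ∀ i, f (i + 4) = f i) (i : ℤ)
    (hd : ker h (f (i + 3) - f (i + 1)) = ker h (f (i + 2) - f i))
    (s0 : Pm (f (i + 1) - f i) α) (s1 : Pm (f (i + 2) - f (i + 1)) β)
    (s2 : Pm (f (i + 3) - f (i + 2)) α) (s3 : Pm (f i - f (i + 3)) β) :
    (∃ x α' β', Pm α' α ∧ Pm β' β ∧ (α + α = 0 ∨ β + β = 0) ∧ edges f = fK α' β' x) ∨
    (∃ x α' β', Pm α' α ∧ Pm β' β ∧ α' + β' = om ∧ edges f = fZ α' β' x) := by
  obtain ⟨a, ha⟩ : ∃ a, a = f (i + 1) - f i := ⟨_, rfl⟩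
  obtain ⟨b, hb⟩ : ∃ b, b = f (i + 2) - f (i + 1) := ⟨_, rfl⟩
  have e1 : f (i + 1) = f i + a := by rw [ha]; abel
  have e2 : f (i + 2) = f i + a + b := by rw [ha, hb]; abel
  rw [← ha] at s0
  rw [← hb] at s1
  have pa : a.2 = 0 := (s0.par (π := par)).trans hα
  have pb : b.2 = 1 := (s1.par (π := par)).trans hβ
  by_cases hs : f (i + 3) - f (i + 2) = -a
  · have e3 : f (i + 3) = f i + b := by linear_combination (norm := abel1) hs + e2
    refine Or.inl ⟨f i, a, b, s0, s1, ?_, ?_⟩
    · rw [← s0.two, ← s1.two]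
      rw [e1, e2, e3] at hd
      rcases pm_of_ker hd (by simp [pa]) with e | e
      · exact Or.inl (by linear_combination (norm := abel1) -e)
      · exact Or.inr (by linear_combination (norm := abel1) e)
    · rw [edges_period_four h4 i, e1, e2, e3]
      ext e
      simp only [fK, Set.mem_ofPred_eq, add_right_comm (f i) b a,
        Sym2.eq_swap (a := f i + a + b) (b := f i + b), Sym2.eq_swap (a := f i + b) (b := f i)]
      tauto
  · have hs' : f (i + 3) - f (i + 2) = a := (s2.trans s0.symm).resolve_right hs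
    have e3 : f (i + 3) = f i + a + b + a := by linear_combination (norm := abel1) hs' + e2
    have e4 : a + b + (a + b) = 0 := by
      rcases s3.trans s1.symm with e | e
      · linear_combination (norm := abel1) -e - e3
      · exact absurd (by linear_combination (norm := abel1) hs' - e - e3) hs
    have e5 : a + b = om := by
      have c := congrArg Prod.fst e4
      rw [← two_nsmul, Prod.smul_fst, Prod.fst_zero, Real.Angle.two_nsmul_eq_zero_iff] at c
      rcases c with c | c
      · exfalso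
        rw [← s0.ker, ← s1.ker] at hk
        have c' : a.1 = -b.1 := eq_neg_of_add_eq_zero_left c
        simp only [ker, pa, pb, c', Real.Angle.cos_neg, sg_zero, sg_one] at hk
        have : h ^ 2 = 0 := by linarith
        exact hh (pow_eq_zero_iff two_ne_zero |>.1 this)
      · exact Prod.ext c (by simp [pa, pb, om])
    refine Or.inr ⟨f i, a, b, s0, s1, e5, ?_⟩
    have e6 : f i + a + b + a + b = f i := by linear_combination (norm := abel1) e4
    rw [edges_period_four h4 i, e1, e2, e3]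
    ext e
    simp only [fZ, Set.mem_ofPred_eq, e6]
    tauto

theorem zmod2_ne {a b : ZMod 2} : a ≠ b ↔ a = b + 1 := by revert a b; decide

theorem mixed_face {h : ℝ} (hh : h ≠ 0) {α β : G0} (hα : α.2 = 0) (hβ : β.2 = 1)
    (hk : ker h α = ker h β) {f : ℤ → G0} (hf : Seq f)
    (hT : ∀ i j, ker h (f (i + 1) - f (j + 1)) = ker h (f i - f j))
    (step : ∀ i, Pm (f (i + 1) - f i) α ∨ Pm (f (i + 1) - f i) β)
    (m1 : ∃ i, (f (i + 1)).2 = (f i).2) (m2 : ∃ j, (f (j + 1)).2 = (f j).2 + 1) :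
    (∃ x γ κ, Pm γ β ∧ Pm κ α ∧ γ + γ + κ = 0 ∧ edges f = fP γ κ x) ∨
    (∃ x γ κ, Pm γ α ∧ Pm κ β ∧ γ + γ + κ = om ∧ edges f = fP γ κ x) ∨
    (∃ x α' β', Pm α' α ∧ Pm β' β ∧ (α + α = 0 ∨ β + β = 0) ∧ edges f = fK α' β' x) ∨
    (∃ x α' β', Pm α' α ∧ Pm β' β ∧ α' + β' = om ∧ edges f = fZ α' β' x) := by
  have inj := ptG_inj hh
  have sH : ∀ i j, j = i + 1 → (f j).2 = (f i).2 → Pm (f j - f i) α := by
    rintro i _ rfl e
    refine (step i).resolve_right fun c => ?_
    have := c.par (π := par)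
    simp [e, hβ] at this
  have sS : ∀ i j, j = i + 1 → (f j).2 = (f i).2 + 1 → Pm (f j - f i) β := by
    rintro i _ rfl e
    refine (step i).resolve_left fun c => ?_
    have := c.par (π := par)
    simp [e, hα] at this
  have hT' : ∀ i j, ⟪ptG h (f (i + 1)), ptG h (f (j + 1))⟫ = ⟪ptG h (f i), ptG h (f j)⟫ := by
    intro i j
    rw [inner_ptG, inner_ptG, hT]
  obtain ⟨δ, t, hδ, hr⟩ := recurrence (p := fun i => ptG h (f i)) hT'
    (fun i e => hf.ne1 i (inj e)) (fun i e => hf.ne2 i (inj e))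
  have hz : ∀ i, sg (f (i + 3)).2 - δ * sg (f i).2 =
      t * (sg (f (i + 2)).2 - δ * sg (f (i + 1)).2) := by
    intro i
    have := congrArg (fun v : E3 => v 2) (hr i)
    simp only [ptG, PiLp.sub_apply, PiLp.smul_apply, smul_eq_mul] at this
    simp only [Matrix.cons_val] at this
    apply mul_right_cancel₀ hh
    linear_combination this
  have bad : t ≠ -δ := by
    intro e
    have a := congrArg (fun v : E3 => ⟪ptG h (f 1), v⟫) (hr 0)
    simp only [inner_sub_right, real_inner_smul_right, zero_add] at a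
    have b1 := hT' 0 2
    have b2 := hT' 0 1
    have b3 := hT' 0 0
    have b4 := hT' 1 1
    norm_num only at b1 b2 b3 b4
    rw [real_inner_comm (ptG h (f 0))] at a
    apply hf.2
    apply inj
    rw [← sub_eq_zero, ← inner_self_eq_zero (𝕜 := ℝ), inner_sub_left, inner_sub_right,
      inner_sub_right, real_inner_comm (ptG h (f 0)) (ptG h (f 2))]
    rcases hδ with rfl | rfl <;> rw [e] at a <;> linarith
  have quad : (∀ i, f (i + 4) = f i) → ∀ i, (f (i + 1)).2 = (f i).2 →
      (f (i + 2)).2 = (f i).2 + 1 → (f (i + 3)).2 = (f i).2 + 1 →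
      (∃ x α' β', Pm α' α ∧ Pm β' β ∧ (α + α = 0 ∨ β + β = 0) ∧ edges f = fK α' β' x) ∨
      (∃ x α' β', Pm α' α ∧ Pm β' β ∧ α' + β' = om ∧ edges f = fZ α' β' x) := by
    intro h4 i a1 a2 a3
    refine face_Q hh hα hβ hk h4 i ?_ (sH _ _ rfl a1) (sS _ _ (by ring) (by rw [a1, a2]))
      (sH _ _ (by ring) (by rw [a2, a3])) ?_
    · rw [← hT (i + 2) i, add_assoc]
      norm_num
    · rw [← h4 i]
      refine sS _ _ (by ring) ?_
      rw [h4, a3, add_assoc, zmod2_one_add, add_zero]
  have sgf : ∀ a b : ZMod 2, sg a = -sg b → a = b + 1 := fun a b e =>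
    sg_inj (by rw [sg_add, e]; simp)
  rcases hδ with rfl | rfl
  · obtain ⟨j, hj⟩ := m2
    have a := hz (j - 1)
    rw [show j - 1 + 3 = j + 2 by ring, show j - 1 + 2 = j + 1 by ring, sub_add_cancel, hj,
      sg_add, sg_one] at a
    have ht : t = 0 ∨ t = 1 := by
      rcases sg_cases (f (j + 2)).2 with c | c <;> rcases sg_cases (f (j - 1)).2 with d | d <;>
        rcases sg_cases (f j).2 with e | e <;> rw [c, d, e] at a <;>
        first
        | (left; linarith)
        | (right; linarith)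
        | exact absurd (by linarith) bad
    rcases ht with rfl | rfl
    · have h3 : ∀ i, f (i + 3) = f i + 0 := fun i => inj (by simpa [sub_eq_zero] using hr i)
      left
      by_cases c : (f (j + 2)).2 = (f j).2
      · refine face_P hf (add_zero 0) h3 j (sS _ _ rfl hj) (sS _ _ (by ring) ?_)
          (sH _ _ (by ring) ?_)
        · rw [c, hj, add_assoc, zmod2_one_add, add_zero]
        · rw [h3, add_zero, c]
      · have c' := zmod2_ne.1 c
        have b3 := h3 j
        have b4 : f (j + 2 + 2) = f (j + 1) := by rw [← add_zero (f (j + 1)), ← h3]; congr 1; ring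
        refine face_P hf (add_zero 0) h3 (j + 2) (sS _ _ rfl ?_) (sS _ _ (by ring) ?_)
          (sH _ _ (by ring) ?_)
        · rw [show j + 2 + 1 = j + 3 by ring, b3, add_zero, c', add_assoc, zmod2_one_add, add_zero]
        · rw [show j + 2 + 1 = j + 3 by ring, b3, b4, add_zero, hj]
        · rw [h3, add_zero, b4, c', hj]
    · have h4 : ∀ i, f (i + 4) = f i := fun i => inj (by
        have b1 := hr i
        have b2 := hr (i + 1)
        rw [show i + 1 + 3 = i + 4 by ring, show i + 1 + 2 = i + 3 by ring,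
          show i + 1 + 1 = i + 2 by ring] at b2
        linear_combination (norm := module) b1 + b2)
      have b : sg (f (j - 1)).2 = sg (f j).2 ∧ sg (f (j + 2)).2 = -sg (f j).2 := by
        rcases sg_cases (f (j + 2)).2 with c | c <;> rcases sg_cases (f (j - 1)).2 with d | d <;>
          rcases sg_cases (f j).2 with e | e <;> rw [c, d, e] at a ⊢ <;> constructor <;> linarith
      have b1 := sg_inj b.1
      have b2 := sgf _ _ b.2
      refine Or.inr (Or.inr (quad h4 (j - 1) ?_ ?_ ?_))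
      · rw [sub_add_cancel, b1]
      · rw [show j - 1 + 2 = j + 1 by ring, hj, b1]
      · rw [show j - 1 + 3 = j + 2 by ring, b2, b1]
  · obtain ⟨j, hj⟩ := m1
    have a := hz (j - 1)
    rw [show j - 1 + 3 = j + 2 by ring, show j - 1 + 2 = j + 1 by ring, sub_add_cancel, hj] at a
    have ht : t = 0 ∨ t = -1 := by
      rcases sg_cases (f (j + 2)).2 with c | c <;> rcases sg_cases (f (j - 1)).2 with d | d <;>
        rcases sg_cases (f j).2 with e | e <;> rw [c, d, e] at a <;>
        first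
        | (left; linarith)
        | (right; linarith)
        | exact absurd (by linarith) bad
    rcases ht with rfl | rfl
    · have h3 : ∀ i, f (i + 3) = f i + om := fun i => inj (by
        rw [ptG_om]
        linear_combination (norm := module) hr i)
      have h3' : ∀ i, (f (i + 3)).2 = (f i).2 + 1 := fun i => by rw [h3]; rfl
      right; left
      by_cases c : (f (j + 2)).2 = (f j).2
      · exact face_P hf om_add h3 j (sH _ _ rfl hj) (sH _ _ (by ring) (by rw [c, hj]))
          (sS _ _ (by ring) (by rw [h3', c]))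
      · have c' := zmod2_ne.1 c
        have b4 : (f (j + 2 + 2)).2 = (f (j + 1)).2 + 1 := by rw [← h3']; congr 2; ring
        refine face_P hf om_add h3 (j + 2) (sH _ _ rfl ?_) (sH _ _ (by ring) ?_)
          (sS _ _ (by ring) ?_)
        · rw [show j + 2 + 1 = j + 3 by ring, h3', c']
        · rw [show j + 2 + 1 = j + 3 by ring, h3', b4, hj]
        · rw [h3', b4, c', hj]
    · have h4 : ∀ i, f (i + 4) = f i := fun i => inj (by
        have b1 := hr i
        have b2 := hr (i + 1)
        rw [show i + 1 + 3 = i + 4 by ring, show i + 1 + 2 = i + 3 by ring,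
          show i + 1 + 1 = i + 2 by ring] at b2
        linear_combination (norm := module) b2 - b1)
      have a' := hz j
      rw [hj] at a'
      have b : sg (f (j + 2)).2 = -sg (f j).2 ∧ sg (f (j + 3)).2 = -sg (f j).2 := by
        rcases sg_cases (f (j + 2)).2 with c | c <;> rcases sg_cases (f (j + 3)).2 with d | d <;>
          rcases sg_cases (f j).2 with e | e <;> rw [c, d, e] at a' ⊢ <;> constructor <;> linarith
      exact Or.inr (Or.inr (quad h4 j hj (sgf _ _ b.1) (sgf _ _ b.2)))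

end Pool.Agent.P.MP_708877_co
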