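import Pool.Agent.P.MP_708877_co.Defs

/-!
A finite group of linear isometries of 3-space with more than 120 elements preserves a line.
-/

namespace Pool.Agent.P.MP_708877_co

open MulAction Matrix

theorem pole_arith {N n₁ n₂ n₃ m₁ m₂ m₃ : ℕ} (a1 : m₁ * n₁ = N) (a2 : m₂ * n₂ = N)
    (a3 : m₃ * n₃ = N) (b1 : 2 ≤ n₁) (b2 : n₁ ≤ n₂) (b3 : n₂ ≤ n₃) (c : 3 ≤ m₃)
    (d : m₁ + m₂ + m₃ = N + 2) : N ≤ 60 := by
  have e1 : n₁ = 2 := by
    by_contra h
    have : 3 ≤ n₁ := by omega
    nlinarith [Nat.mul_le_mul_left m₁ this, Nat.mul_le_mul_left m₂ (this.trans b2),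
      Nat.mul_le_mul_left m₃ ((this.trans b2).trans b3)]
  subst e1
  have e2 : n₂ = 3 := by
    by_contra h
    rcases Nat.lt_or_ge n₂ 3 with h' | h'
    · obtain rfl : n₂ = 2 := by omega
      omega
    · have : 4 ≤ n₂ := by omega
      nlinarith [Nat.mul_le_mul_left m₂ this, Nat.mul_le_mul_left m₃ (this.trans b3)]
  subst e2
  have e3 : n₃ ≤ 5 := by
    by_contra h
    have : 6 ≤ n₃ := by omega
    nlinarith [Nat.mul_le_mul_left m₃ this]
  interval_cases n₃ <;> omega

theorem small_orbit {G X : Type} [Group G] [Finite G] [MulAction G X] [Finite X]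
    (h1 : ∀ g : G, g ≠ 1 → Nat.card (fixedBy X g) = 2) (h2 : ∀ x : X, ∃ g : G, g ≠ 1 ∧ g • x = x)
    (hN : 60 < Nat.card G) : ∃ x : X, Nat.card (orbit G x) ≤ 2 := by
  classical
  have := Fintype.ofFinite G
  have := Fintype.ofFinite X
  by_contra hc
  push Not at hc
  let Ω := Quotient (orbitRel G X)
  have B := sum_card_fixedBy_eq_card_orbits_mul_card_group G X
  have B1 : ∑ g : G, Fintype.card (fixedBy X g) + 2 = Fintype.card X + 2 * Fintype.card G := by
    rw [← Finset.add_sum_erase _ _ (Finset.mem_univ (1 : G)),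
      Finset.sum_congr rfl (g := fun _ => 2) fun g hg => by
        rw [← Nat.card_eq_fintype_card, h1 g (Finset.mem_erase.1 hg).1]]
    have : 0 < Fintype.card G := Fintype.card_pos
    simp [Finset.card_erase_of_mem]
    omega
  have B2 : Fintype.card X = ∑ ω : Ω, Nat.card (orbit G ω.out) := by
    rw [Fintype.card_congr (selfEquivSigmaOrbits G X), Fintype.card_sigma]
    simp only [Nat.card_eq_fintype_card]
    rfl
  have B3 : ∀ x : X, Nat.card (orbit G x) * Nat.card (stabilizer G x) = Fintype.card G := by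
    intro x
    simp only [Nat.card_eq_fintype_card]
    exact card_orbit_mul_card_stabilizer_eq_card_group G x
  have B4 : ∀ x : X, 2 ≤ Nat.card (stabilizer G x) := by
    intro x
    obtain ⟨g, a, b⟩ := h2 x
    have : Nontrivial (stabilizer G x) := ⟨⟨g, b⟩, 1, fun e => a (congrArg Subtype.val e)⟩
    exact Finite.one_lt_card
  rw [Nat.card_eq_fintype_card] at hN
  set N := Fintype.card G
  have B5 : ∑ ω : Ω, 2 * Nat.card (orbit G ω.out) ≤ ∑ _ω : Ω, N :=
    Finset.sum_le_sum fun ω _ => by nlinarith [B3 ω.out, B4 ω.out]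
  have B6 : ∑ _ω : Ω, 3 ≤ ∑ ω : Ω, Nat.card (orbit G ω.out) :=
    Finset.sum_le_sum fun ω _ => hc _
  rw [← Finset.mul_sum] at B5
  simp only [Finset.sum_const, Finset.card_univ, smul_eq_mul] at B5 B6
  have B' : ∑ g : G, Fintype.card (fixedBy X g) = Fintype.card Ω * N := B
  rw [B', B2] at B1
  have k3 : Fintype.card Ω = 3 := by
    have : Fintype.card Ω < 4 := by
      by_contra h
      have : 4 ≤ Fintype.card Ω := by omega
      nlinarith [Nat.mul_le_mul_right N this]
    generalize Fintype.card Ω = k at *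
    interval_cases k <;> omega
  obtain ⟨a, b, c, ab, ac, bc, hu⟩ := Finset.card_eq_three.1 (k3 : (Finset.univ : Finset Ω).card = 3)
  rw [k3, hu, Finset.sum_insert (by simp [ab, ac]), Finset.sum_pair bc] at B1
  have key : ∀ x y z : X, Nat.card (orbit G x) + Nat.card (orbit G y) + Nat.card (orbit G z) =
      N + 2 → Nat.card (stabilizer G x) ≤ Nat.card (stabilizer G y) →
      Nat.card (stabilizer G y) ≤ Nat.card (stabilizer G z) → False := fun x y z e l1 l2 => by
    have := pole_arith (B3 x) (B3 y) (B3 z) (B4 x) l1 l2 (hc z) e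
    omega
  rcases le_total (Nat.card (stabilizer G a.out)) (Nat.card (stabilizer G b.out)) with l1 | l1 <;>
    rcases le_total (Nat.card (stabilizer G b.out)) (Nat.card (stabilizer G c.out)) with l2 | l2 <;>
    rcases le_total (Nat.card (stabilizer G a.out)) (Nat.card (stabilizer G c.out)) with l3 | l3
  · exact key _ _ _ (by omega) l1 l2
  · exact key _ _ _ (by omega) l1 l2
  · exact key _ _ _ (by omega) l3 l2
  · exact key _ _ _ (by omega) l3 l1
  · exact key _ _ _ (by omega) l1 l3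
  · exact key _ _ _ (by omega) l2 l3
  · exact key _ _ _ (by omega) l2 l1
  · exact key _ _ _ (by omega) l2 l1

/-- The matrix of a linear isometry. -/
noncomputable def mat (g : E3 ≃ₗᵢ[ℝ] E3) : Matrix (Fin 3) (Fin 3) ℝ :=
  LinearMap.toMatrix (EuclideanSpace.basisFun (Fin 3) ℝ).toBasis
    (EuclideanSpace.basisFun (Fin 3) ℝ).toBasis g.toLinearEquiv.toLinearMap

theorem mat_mulVec (g : E3 ≃ₗᵢ[ℝ] E3) (v : E3) : mat g *ᵥ v.ofLp = (g v).ofLp :=
  LinearMap.toMatrix_mulVec_repr (EuclideanSpace.basisFun (Fin 3) ℝ).toBasis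
    (EuclideanSpace.basisFun (Fin 3) ℝ).toBasis g.toLinearEquiv.toLinearMap v

theorem mat_mul (g k : E3 ≃ₗᵢ[ℝ] E3) : mat (g * k) = mat g * mat k := by
  unfold mat
  rw [← LinearMap.toMatrix_comp]
  rfl

theorem mat_orth (g : E3 ≃ₗᵢ[ℝ] E3) : mat g * (mat g)ᵀ = 1 := by
  have := g.toMatrix_mem_unitaryGroup (EuclideanSpace.basisFun (Fin 3) ℝ)
    (EuclideanSpace.basisFun (Fin 3) ℝ)
  rw [Matrix.mem_unitaryGroup_iff] at this
  exact this

theorem det_mat (g : E3 ≃ₗᵢ[ℝ] E3) : (mat g).det = 1 ∨ (mat g).det = -1 := by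
  have := congrArg Matrix.det (mat_orth g)
  rw [det_mul, det_transpose, det_one] at this
  exact mul_self_eq_one_iff.1 this

theorem mat_one : mat 1 = 1 := by
  unfold mat
  exact LinearMap.toMatrix_id _

theorem mat_neg : mat (LinearIsometryEquiv.neg ℝ) = -1 := by
  ext i j
  simp [mat, LinearMap.toMatrix_apply, Matrix.one_apply]

theorem exists_fixed {g : E3 ≃ₗᵢ[ℝ] E3} (h : (mat g).det = 1) : ∃ x : E3, ‖x‖ = 1 ∧ g x = x := by
  have h1 : (mat g - 1).det = 0 := by
    have e : (mat g - 1) * (mat g)ᵀ = -(mat g - 1)ᵀ := by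
      rw [sub_mul, mat_orth]
      simp
    have := congrArg Matrix.det e
    rw [det_mul, det_transpose, h, det_neg, det_transpose] at this
    norm_num at this
    linarith
  obtain ⟨v, hv, h2⟩ := Matrix.exists_mulVec_eq_zero_iff.2 h1
  have h3 : g (WithLp.toLp 2 v) = WithLp.toLp 2 v := by
    rw [sub_mulVec, one_mulVec, sub_eq_zero] at h2
    have := mat_mulVec g (WithLp.toLp 2 v)
    exact WithLp.ofLp_injective 2 (this.symm.trans h2)
  have h4 : (WithLp.toLp 2 v : E3) ≠ 0 := fun e => hv (congrArg WithLp.ofLp e)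
  refine ⟨‖(WithLp.toLp 2 v : E3)‖⁻¹ • WithLp.toLp 2 v, norm_smul_inv_norm h4, ?_⟩
  rw [map_smul, h3]

theorem fixed_two {g : E3 ≃ₗᵢ[ℝ] E3} (h : (mat g).det = 1) (hg : g ≠ 1) {x y : E3} (hx : ‖x‖ = 1)
    (hy : ‖y‖ = 1) (gx : g x = x) (gy : g y = y) : y = x ∨ y = -x := by
  by_contra hc
  apply hg
  have ax : mat g *ᵥ x.ofLp = x.ofLp := by rw [mat_mulVec, gx]
  have ay : mat g *ᵥ y.ofLp = y.ofLp := by rw [mat_mulVec, gy]
  obtain ⟨n, hn⟩ : ∃ n, n = crossProduct x.ofLp y.ofLp := ⟨_, rfl⟩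
  have id1 : ∀ (A : Matrix (Fin 3) (Fin 3) ℝ) (p q : Fin 3 → ℝ),
      Aᵀ *ᵥ crossProduct (A *ᵥ p) (A *ᵥ q) = A.det • crossProduct p q := by
    intro A p q
    ext i
    fin_cases i <;>
      simp [cross_apply, det_fin_three, mulVec, dotProduct, Fin.sum_univ_three] <;> ring
  have an : mat g *ᵥ n = n := by
    have := id1 (mat g) x.ofLp y.ofLp
    rw [ax, ay, h, one_smul, ← hn] at this
    have e := congrArg (fun v => mat g *ᵥ v) this
    simp only [mulVec_mulVec, mat_orth, one_mulVec] at e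
    exact e.symm
  have id2 : ∀ p q v : Fin 3 → ℝ, (crossProduct p q ⬝ᵥ crossProduct p q) • v =
      (v ⬝ᵥ crossProduct q (crossProduct p q)) • p + (v ⬝ᵥ crossProduct (crossProduct p q) p) • q +
        (v ⬝ᵥ crossProduct p q) • crossProduct p q := by
    intro p q v
    ext i
    fin_cases i <;> simp [cross_apply, dotProduct, Fin.sum_univ_three] <;> ring
  have n0 : n ⬝ᵥ n ≠ 0 := by
    intro e
    rw [hn, cross_dot_cross] at e
    have nx : x.ofLp ⬝ᵥ x.ofLp = 1 := by
      have := real_inner_self_eq_norm_sq x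
      rw [hx, EuclideanSpace.inner_eq_star_dotProduct] at this
      simpa using this
    have ny : y.ofLp ⬝ᵥ y.ofLp = 1 := by
      have := real_inner_self_eq_norm_sq y
      rw [hy, EuclideanSpace.inner_eq_star_dotProduct] at this
      simpa using this
    have ixy : inner ℝ x y = x.ofLp ⬝ᵥ y.ofLp := by
      rw [EuclideanSpace.inner_eq_star_dotProduct, dotProduct_comm]
      simp
    rw [nx, ny, dotProduct_comm y.ofLp, ← ixy, one_mul, sub_eq_zero, eq_comm,
      mul_self_eq_one_iff] at e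
    apply hc
    rcases e with e | e
    · exact Or.inl ((inner_eq_one_iff_of_norm_eq_one hx hy).1 e).symm
    · right
      have := (inner_eq_one_iff_of_norm_eq_one (𝕜 := ℝ) (x := -x) (by simpa using hx) hy).1
        (by rw [inner_neg_left, e, neg_neg])
      exact this.symm
  ext v : 1
  apply WithLp.ofLp_injective 2
  have e := id2 x.ofLp y.ofLp v.ofLp
  rw [← hn] at e
  have e' := congrArg (fun w => mat g *ᵥ w) e
  simp only [mulVec_add, mulVec_smul, ax, ay, an] at e'
  rw [← e, mat_mulVec] at e'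
  exact smul_right_injective _ n0 e'

theorem exists_axis (Γ : Subgroup (E3 ≃ₗᵢ[ℝ] E3)) [Finite Γ] (hN : 120 < Nat.card Γ) :
    ∃ u : E3, u ≠ 0 ∧ ∀ g ∈ Γ, g u = u ∨ g u = -u := by
  classical
  let ν : E3 ≃ₗᵢ[ℝ] E3 := LinearIsometryEquiv.neg ℝ
  have νν : ∀ g, ν * (ν * g) = g := fun g => by ext v : 1; simp [ν]
  have νc : ∀ g k, ν * (g * k) = g * (ν * k) := fun g k => by ext v : 1; simp [ν]
  have νi : ∀ g, ν * g⁻¹ = (ν * g)⁻¹ := fun g => by
    rw [eq_inv_iff_mul_eq_one, mul_assoc, ← νc, νν, inv_mul_cancel]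
  have νd : ∀ g, (mat (ν * g)).det = -(mat g).det := fun g => by
    rw [mat_mul, mat_neg, neg_mul, one_mul, det_neg]
    norm_num
  let R : Subgroup (E3 ≃ₗᵢ[ℝ] E3) :=
    { carrier := {g | (mat g).det = 1 ∧ (g ∈ Γ ∨ ν * g ∈ Γ)}
      one_mem' := ⟨by rw [mat_one, det_one], Or.inl Γ.one_mem⟩
      mul_mem' := by
        rintro g k ⟨a1, a2⟩ ⟨b1, b2⟩
        refine ⟨by rw [mat_mul, det_mul, a1, b1, one_mul], ?_⟩
        rcases a2 with a2 | a2 <;> rcases b2 with b2 | b2
        · exact Or.inl (Γ.mul_mem a2 b2)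
        · exact Or.inr (by rw [νc]; exact Γ.mul_mem a2 b2)
        · exact Or.inr (by rw [← mul_assoc]; exact Γ.mul_mem a2 b2)
        · left
          have := Γ.mul_mem a2 b2
          rwa [mul_assoc, ← νc, νν] at this
      inv_mem' := by
        rintro g ⟨a1, a2⟩
        refine ⟨?_, a2.imp Γ.inv_mem fun a => by rw [νi]; exact Γ.inv_mem a⟩
        have := congrArg Matrix.det (mat_mul g g⁻¹)
        rwa [mul_inv_cancel, mat_one, det_one, det_mul, a1, one_mul, eq_comm] at this }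
  have fΓ : (Γ : Set (E3 ≃ₗᵢ[ℝ] E3)).Finite := Set.toFinite _
  have fR : (R : Set (E3 ≃ₗᵢ[ℝ] E3)).Finite := by
    refine (fΓ.union (fΓ.image fun g => ν * g)).subset ?_
    rintro g ⟨-, a | a⟩
    exacts [Or.inl a, Or.inr ⟨_, a, νν g⟩]
  have sub : ∀ g ∈ Γ, g ∈ R ∨ ν * g ∈ R := fun g hg =>
    (det_mat g).imp (fun a => ⟨a, Or.inl hg⟩)
      fun a => ⟨by rw [νd, a, neg_neg], Or.inr (by rwa [νν])⟩
  have cR : 60 < Nat.card R := by
    have h1 : (Γ : Set (E3 ≃ₗᵢ[ℝ] E3)) ⊆ R ∪ (fun g => ν * g) '' R := fun g hg =>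
      (sub g hg).imp id fun a => ⟨_, a, νν g⟩
    have h2 := (Set.ncard_le_ncard h1 (fR.union (fR.image _))).trans (Set.ncard_union_le _ _)
    have h3 := Set.ncard_image_le (f := fun g => ν * g) fR
    have h4 : Nat.card Γ = (Γ : Set (E3 ≃ₗᵢ[ℝ] E3)).ncard := rfl
    have h5 : Nat.card R = (R : Set (E3 ≃ₗᵢ[ℝ] E3)).ncard := rfl
    omega
  have : Finite R := fR
  let X := {x : E3 // ‖x‖ = 1 ∧ ∃ g ∈ R, g ≠ 1 ∧ g x = x}
  let _ : MulAction R X :=
    { smul := fun k x => ⟨k.1 x.1, by rw [k.1.norm_map, x.2.1], by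
        obtain ⟨g, a, b, c⟩ := x.2.2
        refine ⟨k.1 * g * k.1⁻¹, R.mul_mem (R.mul_mem k.2 a) (R.inv_mem k.2), fun e => b ?_, ?_⟩
        · rwa [mul_inv_eq_one, mul_eq_left] at e
        · simp [c]⟩
      one_smul := fun _ => rfl
      mul_smul := fun _ _ _ => rfl }
  have sm : ∀ (k : R) (x : X), (k • x).1 = k.1 x.1 := fun _ _ => rfl
  have nn : ∀ x : E3, ‖x‖ = 1 → x ≠ -x := fun x hx e => by
    have : x = 0 := by
      have h2 : (2 : ℝ) • x = 0 := by rw [two_smul]; nth_rewrite 1 [e]; simp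
      simpa using h2
    simp [this] at hx
  have : Finite X := by
    have : ({x : E3 | ‖x‖ = 1 ∧ ∃ g ∈ R, g ≠ 1 ∧ g x = x}).Finite := by
      refine (fR.biUnion (t := fun g => {x : E3 | ‖x‖ = 1 ∧ g ≠ 1 ∧ g x = x}) ?_).subset ?_
      · intro g hg
        obtain ⟨x, a, b⟩ := exists_fixed hg.1
        refine (Set.toFinite {x, -x}).subset ?_
        rintro y ⟨c, d, e⟩
        exact fixed_two hg.1 d a c b e
      · rintro x ⟨a, g, b, c, d⟩
        exact Set.mem_biUnion b ⟨a, c, d⟩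
    exact this
  obtain ⟨x, hx⟩ := small_orbit (G := R) (X := X) (fun g hg => by
      have hg' : g.1 ≠ 1 := fun e => hg (Subtype.ext e)
      obtain ⟨x, a, b⟩ := exists_fixed g.2.1
      have e : fixedBy X g = {⟨x, a, g.1, g.2, hg', b⟩,
          ⟨-x, by simpa using a, g.1, g.2, hg', by simp [b]⟩} := by
        ext y
        simp only [mem_fixedBy, Set.mem_insert_iff, Set.mem_singleton_iff]
        constructor
        · intro e
          exact (fixed_two g.2.1 hg' a y.2.1 b (congrArg Subtype.val e)).imp Subtype.ext Subtype.ext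
        · rintro (rfl | rfl)
          · exact Subtype.ext b
          · exact Subtype.ext (by rw [sm]; simp [b])
      rw [e]
      exact Set.ncard_pair fun e => nn x a (congrArg Subtype.val e))
    (fun x => by
      obtain ⟨g, a, b, c⟩ := x.2.2
      exact ⟨⟨g, a⟩, fun e => b (congrArg Subtype.val e), Subtype.ext c⟩) cR
  have main : ∃ u : E3, u ≠ 0 ∧ ∀ g ∈ R, g u = u ∨ g u = -u := by
    have x0 : x.1 ≠ 0 := fun e => by simpa [e] using x.2.1
    by_cases hc : ∀ g ∈ R, g x.1 = x.1 ∨ g x.1 = -x.1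
    · exact ⟨x.1, x0, hc⟩
    push Not at hc
    obtain ⟨k, kR, k1, k2⟩ := hc
    have two : ∀ g : R, g • x = x ∨ g • x = (⟨k, kR⟩ : R) • x := by
      intro g
      by_contra h
      rw [not_or] at h
      have h3 : 2 < (orbit R x).ncard := (Set.two_lt_ncard (Set.toFinite _)).2
        ⟨x, mem_orbit_self x, _, mem_orbit x ⟨k, kR⟩, _, mem_orbit x g,
          fun e => k1 (congrArg Subtype.val e).symm, Ne.symm h.1, Ne.symm h.2⟩
      exact absurd hx (not_le.2 h3)
    refine ⟨x.1 + k x.1, fun e => k2 (eq_neg_of_add_eq_zero_right e), fun g hg => Or.inl ?_⟩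
    have a : g x.1 = x.1 ∨ g x.1 = k x.1 :=
      (two ⟨g, hg⟩).imp (congrArg Subtype.val) (congrArg Subtype.val)
    have b : g (k x.1) = x.1 ∨ g (k x.1) = k x.1 :=
      (two (⟨g, hg⟩ * ⟨k, kR⟩)).imp (congrArg Subtype.val) (congrArg Subtype.val)
    rw [map_add]
    rcases a with a | a <;> rcases b with b | b
    · exact absurd (g.injective (b.trans a.symm)) k1
    · rw [a, b]
    · rw [a, b, add_comm]
    · exact absurd (g.injective (b.trans a.symm)) k1
  obtain ⟨u, u0, hu⟩ := main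
  refine ⟨u, u0, fun g hg => ?_⟩
  rcases sub g hg with a | a
  · exact hu g a
  · rcases hu _ a with e | e
    · exact Or.inr (neg_eq_iff_eq_neg.1 e)
    · exact Or.inl (neg_injective e)

end Pool.Agent.P.MP_708877_co
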