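import Pool.Agent.P.MP_708877_co.Core
import Pool.Agent.P.MP_708877_co.Pole

/-!
Centering, the finite symmetry group and the final assembly.
-/

namespace Pool.Agent.P.MP_708877_co

open RealInnerProductSpace

theorem iso_sub (g : E3 ≃ᵢ E3) (x y : E3) :
    g.toRealLinearIsometryEquiv (x - y) = g x - g y := by
  rw [map_sub, g.toRealLinearIsometryEquiv_apply, g.toRealLinearIsometryEquiv_apply]
  abel

theorem IsUniform.sim {P : Set (Set (Sym2 E3))} (h : IsUniform P) {c : ℝ} (hc : c ≠ 0)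
    (g : E3 ≃ᵢ E3) : IsUniform (image (fun x => c • g x) P) := by
  refine ⟨(h.1.good.image (sim_inj hc g).injOn).isPolyhedron, ?_, ?_⟩
  · rintro _ ⟨F, hF, rfl⟩
    exact (h.2.1 F hF).sim hc g
  · rw [verts_image]
    rintro _ ⟨v, hv, rfl⟩ _ ⟨w, hw, rfl⟩
    obtain ⟨k, a, b⟩ := h.2.2 v hv w hw
    obtain ⟨k', hk⟩ := exists_conj hc g k
    exact ⟨k', sym_sim hk a, by rw [hk, b]⟩

theorem IsAxial.sim {P : Set (Set (Sym2 E3))} (h : IsAxial P) {c : ℝ} (hc : c ≠ 0)
    (g : E3 ≃ᵢ E3) : IsAxial (image (fun x => c • g x) P) := by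
  obtain ⟨u, u0, hu⟩ := h
  refine ⟨c • g u - c • g 0, sub_ne_zero.2 fun e => u0 (sim_inj hc g e), ?_⟩
  rw [verts_image]
  rintro _ ⟨v, hv, rfl⟩ _ ⟨w, hw, rfl⟩
  obtain ⟨k, a, b, d⟩ := hu v hv w hw
  obtain ⟨k', hk⟩ := exists_conj hc g k
  refine ⟨k', sym_sim hk a, by rw [hk, b], ?_⟩
  rw [← k'.toRealLinearIsometryEquiv_apply, iso_sub, hk, hk, ← smul_sub, ← smul_sub,
    ← iso_sub g (k u), ← iso_sub g u, sub_zero]
  rcases d with d | d <;> rw [d]
  · exact Or.inl rfl
  · exact Or.inr (by rw [map_neg, smul_neg])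

theorem exists_center {P : Set (Set (Sym2 E3))} (hfin : (verts P).Finite)
    (hne : (verts P).Nonempty) : ∃ m : E3, ∀ k : E3 ≃ᵢ E3, image k P = P → k m = m := by
  classical
  have n0 : (hfin.toFinset.card : ℝ) ≠ 0 := by
    have := Finset.card_pos.2 (hfin.toFinset_nonempty.2 hne)
    positivity
  refine ⟨(hfin.toFinset.card : ℝ)⁻¹ • ∑ v ∈ hfin.toFinset, v, fun k hk => ?_⟩
  have e1 : hfin.toFinset.image k = hfin.toFinset := by
    apply Finset.coe_injective
    rw [Finset.coe_image, hfin.coe_toFinset, ← verts_image, hk]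
  have e2 : ∑ v ∈ hfin.toFinset, k v = ∑ v ∈ hfin.toFinset, v := by
    rw [← Finset.sum_image (f := fun v => v) (k.injective.injOn), e1]
  have e3 := k.toRealLinearIsometryEquiv_apply
    ((hfin.toFinset.card : ℝ)⁻¹ • ∑ v ∈ hfin.toFinset, v)
  rw [map_smul, map_sum] at e3
  simp only [k.toRealLinearIsometryEquiv_apply, Finset.sum_sub_distrib, e2, Finset.sum_const,
    smul_sub] at e3
  rw [← Nat.cast_smul_eq_nsmul ℝ, inv_smul_smul₀ n0] at e3
  exact (sub_left_injective e3).symm

theorem linAx_of_big {P : Set (Set (Sym2 E3))} (hfin : (verts P).Finite)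
    (tr : ∀ v ∈ verts P, ∀ w ∈ verts P, ∃ L : E3 ≃ₗᵢ[ℝ] E3, image L P = P ∧ L v = w)
    (hbig : 120 < (verts P).ncard) : ∃ u, u ≠ 0 ∧ LinAx P u := by
  by_cases hs : Submodule.span ℝ (verts P) = ⊤
  · let Γ : Subgroup (E3 ≃ₗᵢ[ℝ] E3) :=
      { carrier := {L | image L P = P}
        one_mem' := image_id P
        mul_mem' := fun {a b} ha hb => by
          have ha' : image a P = P := ha
          have hb' : image b P = P := hb
          change image (fun x => a (b x)) P = P
          rw [← image_image a b, hb', ha']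
        inv_mem' := fun {a} ha => by
          have ha' : image a P = P := ha
          change image a.symm P = P
          nth_rewrite 1 [← ha']
          rw [image_image]
          simpa using image_id P }
    have := hfin.to_subtype
    have : Finite Γ := by
      refine Finite.of_injective
        (fun (g : Γ) (v : verts P) => (⟨g.1 v.1, mem_verts_of_sym g.2 v.2⟩ : verts P)) ?_
      intro a b e
      apply Subtype.ext
      apply LinearIsometryEquiv.toLinearEquiv_injective
      apply LinearEquiv.toLinearMap_injective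
      exact LinearMap.ext_on hs fun v hv => congrArg Subtype.val (congrFun e ⟨v, hv⟩)
    obtain ⟨v₀, hv₀⟩ := Set.nonempty_of_ncard_ne_zero (s := verts P) (by omega)
    have hc : (verts P).ncard ≤ Nat.card Γ := by
      refine Nat.card_le_card_of_surjective
        (fun g : Γ => (⟨g.1 v₀, mem_verts_of_sym g.2 hv₀⟩ : verts P)) ?_
      rintro ⟨w, hw⟩
      obtain ⟨L, a, b⟩ := tr v₀ hv₀ w hw
      exact ⟨⟨L, a⟩, Subtype.ext b⟩
    obtain ⟨u, u0, hu⟩ := exists_axis Γ (by omega)
    refine ⟨u, u0, fun v hv w hw => ?_⟩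
    obtain ⟨L, a, b⟩ := tr v hv w hw
    refine ⟨L, a, b, ?_⟩
    rcases hu L a with e | e
    · refine ⟨1, Or.inl rfl, fun x _ => ?_⟩
      rw [one_mul, ← L.inner_map_map x u, e]
    · refine ⟨-1, Or.inr rfl, fun x _ => ?_⟩
      rw [← L.inner_map_map x u, e, inner_neg_right]
      ring
  · rw [← Submodule.orthogonal_eq_bot_iff] at hs
    obtain ⟨u, hu, u0⟩ := Submodule.exists_mem_ne_zero_of_ne_bot hs
    have k : ∀ x ∈ verts P, ⟪x, u⟫ = 0 := fun x hx =>
      Submodule.inner_right_of_mem_orthogonal (Submodule.subset_span hx) hu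
    refine ⟨u, u0, fun v hv w hw => ?_⟩
    obtain ⟨L, a, b⟩ := tr v hv w hw
    exact ⟨L, a, b, 1, Or.inl rfl, fun x hx => by rw [k x hx, k _ (mem_verts_of_sym a hx), mul_zero]⟩

theorem classification {P : Set (Set (Sym2 E3))} (hfin : (verts P).Finite) (hU : IsUniform P)
    (hc : 120 < (verts P).ncard ∨ IsAxial P) :
    ∃ (c : ℝ) (g : E3 ≃ᵢ E3) (Q : Set (Set (Sym2 E3))),
      0 < c ∧ IsModel Q ∧ P = image (fun x => c • g x) Q := by
  have hG := hU.1.good
  obtain ⟨x, y, -, -, e1, -⟩ := hG.three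
  obtain ⟨m, hm⟩ := exists_center hfin ⟨x, e1.left⟩
  have inj : Function.Injective fun x : E3 => x - m := sub_left_injective
  have lin : ∀ k : E3 ≃ᵢ E3, image k P = P →
      image k.toRealLinearIsometryEquiv (image (fun x => x - m) P) = image (fun x => x - m) P ∧
      ∀ v, k.toRealLinearIsometryEquiv (v - m) = k v - m := by
    intro k hk
    have e : ∀ v, k.toRealLinearIsometryEquiv (v - m) = k v - m := fun v => by
      rw [iso_sub, hm k hk]
    refine ⟨?_, e⟩
    rw [image_image]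
    simp only [e]
    rw [← image_image (fun x => x - m) k, hk]
  have ax : ∃ u, u ≠ 0 ∧ LinAx (image (fun x => x - m) P) u := by
    rcases hc with hc | ⟨u, u0, hu⟩
    · refine linAx_of_big ?_ ?_ ?_ <;> rw [verts_image]
      · exact hfin.image _
      · rintro _ ⟨v, hv, rfl⟩ _ ⟨w, hw, rfl⟩
        obtain ⟨k, a, b⟩ := hU.2.2 v hv w hw
        exact ⟨_, (lin k a).1, by rw [(lin k a).2, b]⟩
      · rwa [Set.ncard_image_of_injective _ inj]
    · refine ⟨u, u0, fun v hv w hw => ?_⟩
      rw [verts_image] at hv hw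
      obtain ⟨v, hv, rfl⟩ := hv
      obtain ⟨w, hw, rfl⟩ := hw
      obtain ⟨k, a, b, d⟩ := hu v hv w hw
      refine ⟨_, (lin k a).1, by rw [(lin k a).2, b], ?_⟩
      rw [← k.toRealLinearIsometryEquiv_apply] at d
      rcases d with e | e
      · refine ⟨1, Or.inl rfl, fun x _ => ?_⟩
        rw [one_mul, ← k.toRealLinearIsometryEquiv.inner_map_map x u, e]
      · refine ⟨-1, Or.inr rfl, fun x _ => ?_⟩
        rw [← k.toRealLinearIsometryEquiv.inner_map_map x u, e, inner_neg_right]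
        ring
  obtain ⟨u, u0, ax⟩ := ax
  have reg : ∀ F ∈ image (fun x => x - m) P, IsRegular F := by
    rintro _ ⟨F, hF, rfl⟩
    simpa using (hU.2.1 F hF).sim one_ne_zero (IsometryEquiv.subRight m)
  obtain ⟨c, B, c0, hQ⟩ := core (hG.image inj.injOn) reg u0 ax
  refine ⟨c⁻¹, B.symm.toIsometryEquiv.trans (IsometryEquiv.addRight (c • m)), _, inv_pos.2 c0,
    hQ, ?_⟩
  rw [image_image, image_image]
  refine (image_id P).symm.trans (image_congr fun v _ => ?_)
  simp [smul_smul, c0.ne']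

end Pool.Agent.P.MP_708877_co
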