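import Pool.Agent.P.MP_708877_co.Bridge

/-!
The members of the list are uniform polyhedra with an axial transitive group.
-/

namespace Pool.Agent.P.MP_708877_co

open RealInnerProductSpace

theorem exists_iso {ι : Type} (p q : ι → E3) (h : ∀ i j, ⟪p i, p j⟫ = ⟪q i, q j⟫) :
    ∃ L : E3 ≃ₗᵢ[ℝ] E3, ∀ i, L (p i) = q i := by
  let A := Finsupp.linearCombination ℝ p
  let B := Finsupp.linearCombination ℝ q
  have h1 : ∀ x, ‖A x‖ = ‖B x‖ := by
    intro x
    rw [← sq_eq_sq₀ (norm_nonneg _) (norm_nonneg _), ← real_inner_self_eq_norm_sq,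
      ← real_inner_self_eq_norm_sq]
    simp only [A, B, Finsupp.linearCombination_apply, Finsupp.sum, sum_inner, inner_sum,
      real_inner_smul_left, real_inner_smul_right, h]
  have h2 : LinearMap.ker A ≤ LinearMap.ker B := fun x hx => by
    rw [LinearMap.mem_ker] at hx ⊢
    rw [← norm_eq_zero, ← h1, hx, norm_zero]
  let f : LinearMap.range A →ₗ[ℝ] E3 :=
    ((LinearMap.ker A).liftQ B h2).comp A.quotKerEquivRange.symm.toLinearMap
  have h3 : ∀ x, f ⟨A x, LinearMap.mem_range_self A x⟩ = B x := by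
    intro x
    simp only [f, LinearMap.comp_apply, LinearEquiv.coe_coe]
    rw [LinearMap.quotKerEquivRange_symm_apply_image]
    rfl
  let g : LinearMap.range A →ₗᵢ[ℝ] E3 :=
    ⟨f, by
      rintro ⟨_, x, rfl⟩
      rw [h3, ← h1]
      rfl⟩
  refine ⟨g.extend.toLinearIsometryEquiv rfl, fun i => ?_⟩
  have h4 := g.extend_apply ⟨A (Finsupp.single i 1), LinearMap.mem_range_self A _⟩
  have h5 := h3 (Finsupp.single i 1)
  have h6 : A (Finsupp.single i 1) = p i := by simp [A]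
  have h7 : B (Finsupp.single i 1) = q i := by simp [B]
  rw [← h7, ← h5, ← h6]
  exact h4

theorem regular_of {ι : Type} [AddCommGroup ι] [One ι] (f : ι → E3) (γ : ι → ℝ)
    (h : ∀ i j, ⟪f i, f j⟫ = γ (i - j)) : IsRegular (edges f) := by
  have sh : ∀ c, ∃ g : E3 ≃ᵢ E3, Sym2.map g '' edges f = edges f ∧ ∀ i, g (f i) = f (i + c) := by
    intro c
    obtain ⟨L, hL⟩ := exists_iso f (fun i => f (i + c)) fun i j => by
      rw [h, h, add_sub_add_right_eq_sub]
    refine ⟨L.toIsometryEquiv, ?_, hL⟩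
    rw [image_edges]
    ext e
    simp only [mem_edges, LinearIsometryEquiv.coe_toIsometryEquiv, hL]
    constructor
    · rintro ⟨i, rfl⟩
      exact ⟨i + c, by rw [add_right_comm]⟩
    · rintro ⟨i, rfl⟩
      exact ⟨i - c, by rw [add_right_comm, sub_add_cancel]⟩
  have rv : ∀ c, ∃ g : E3 ≃ᵢ E3, Sym2.map g '' edges f = edges f ∧ ∀ i, g (f i) = f (c - i) := by
    intro c
    obtain ⟨L, hL⟩ := exists_iso f (fun i => f (c - i)) fun i j => by
      rw [real_inner_comm, h, h, sub_sub_sub_cancel_left]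
    refine ⟨L.toIsometryEquiv, ?_, hL⟩
    rw [image_edges]
    ext e
    simp only [mem_edges, LinearIsometryEquiv.coe_toIsometryEquiv, hL]
    constructor
    · rintro ⟨i, rfl⟩
      refine ⟨c - (i + 1), ?_⟩
      rw [Sym2.eq_swap]
      congr 2
      abel
    · rintro ⟨i, rfl⟩
      refine ⟨c - (i + 1), ?_⟩
      rw [Sym2.eq_swap]
      congr 2 <;> abel
  rintro _ ⟨i, rfl⟩ _ ⟨j, rfl⟩ v hv v' hv'
  rcases Sym2.mem_iff.1 hv with rfl | rfl <;> rcases Sym2.mem_iff.1 hv' with rfl | rfl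
  · obtain ⟨g, a, b⟩ := sh (j - i)
    exact ⟨g, a, by simp [b], by simp [b, add_right_comm i 1]⟩
  · obtain ⟨g, a, b⟩ := rv (j + 1 + i)
    refine ⟨g, a, by simp [b], ?_⟩
    simp only [Sym2.map_mk, b]
    rw [Sym2.eq_swap]
    congr 2 <;> abel
  · obtain ⟨g, a, b⟩ := rv (j + 1 + i)
    refine ⟨g, a, by rw [b]; congr 1; abel, ?_⟩
    simp only [Sym2.map_mk, b]
    rw [Sym2.eq_swap]
    congr 2 <;> abel
  · obtain ⟨g, a, b⟩ := sh (j - i)
    exact ⟨g, a, by simp [b, add_right_comm i 1], by simp [b, add_right_comm i 1]⟩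

theorem regular_three {p q r : E3} {R c : ℝ} (h1 : ⟪p, p⟫ = R) (h2 : ⟪q, q⟫ = R)
    (h3 : ⟪r, r⟫ = R) (a1 : ⟪p, q⟫ = c) (a2 : ⟪q, r⟫ = c) (a3 : ⟪p, r⟫ = c) :
    IsRegular (edges ![p, q, r]) := by
  have b1 := (real_inner_comm _ _).trans a1
  have b2 := (real_inner_comm _ _).trans a2
  have b3 := (real_inner_comm _ _).trans a3
  refine regular_of (ι := Fin 3) ![p, q, r] ![R, c, c] fun i j => ?_
  fin_cases i <;> fin_cases j <;> assumption

theorem regular_four {p q r t : E3} {R c d : ℝ} (h1 : ⟪p, p⟫ = R) (h2 : ⟪q, q⟫ = R)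
    (h3 : ⟪r, r⟫ = R) (h4 : ⟪t, t⟫ = R) (a1 : ⟪p, q⟫ = c) (a2 : ⟪q, r⟫ = c) (a3 : ⟪r, t⟫ = c)
    (a4 : ⟪p, t⟫ = c) (a5 : ⟪p, r⟫ = d) (a6 : ⟪q, t⟫ = d) : IsRegular (edges ![p, q, r, t]) := by
  have b1 := (real_inner_comm _ _).trans a1
  have b2 := (real_inner_comm _ _).trans a2
  have b3 := (real_inner_comm _ _).trans a3
  have b4 := (real_inner_comm _ _).trans a4
  have b5 := (real_inner_comm _ _).trans a5
  have b6 := (real_inner_comm _ _).trans a6
  refine regular_of (ι := Fin 4) ![p, q, r, t] ![R, c, d, c] fun i j => ?_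
  fin_cases i <;> fin_cases j <;> assumption

theorem regular_six {p q r : E3} {R c : ℝ} (h1 : ⟪p, p⟫ = R) (h2 : ⟪q, q⟫ = R)
    (h3 : ⟪r, r⟫ = R) (a1 : ⟪p, q⟫ = c) (a2 : ⟪q, r⟫ = c) (a3 : ⟪p, r⟫ = -c) :
    IsRegular (edges ![p, q, r, -p, -q, -r]) := by
  have b1 := (real_inner_comm _ _).trans a1
  have b2 := (real_inner_comm _ _).trans a2
  have b3 := (real_inner_comm _ _).trans a3
  refine regular_of (ι := Fin 6) ![p, q, r, -p, -q, -r] ![R, c, -c, -R, -c, c] fun i j => ?_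
  have n1 : ∀ {x y : E3} {z : ℝ}, ⟪x, y⟫ = z → ⟪-x, y⟫ = -z := fun e => by rw [inner_neg_left, e]
  have n2 : ∀ {x y : E3} {z : ℝ}, ⟪x, y⟫ = z → ⟪x, -y⟫ = -z := fun e => by rw [inner_neg_right, e]
  have n3 : ∀ {x y : E3} {z : ℝ}, ⟪x, y⟫ = z → ⟪-x, -y⟫ = z := fun e => by rw [inner_neg_neg, e]
  have n4 : ∀ {x y : E3} {z : ℝ}, ⟪x, y⟫ = -z → ⟪-x, y⟫ = z := fun e => by
    rw [inner_neg_left, e, neg_neg]
  have n5 : ∀ {x y : E3} {z : ℝ}, ⟪x, y⟫ = -z → ⟪x, -y⟫ = z := fun e => by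
    rw [inner_neg_right, e, neg_neg]
  fin_cases i <;> fin_cases j <;>
    first
    | assumption
    | exact n1 (by assumption)
    | exact n2 (by assumption)
    | exact n3 (by assumption)
    | exact n4 (by assumption)
    | exact n5 (by assumption)

theorem inner_of {h : ℝ} {x y s : G0} (e : y - x = s) : ⟪ptG h x, ptG h y⟫ = ker h s := by
  rw [inner_ptG, ← e, ← ker_neg, neg_sub]

theorem inner_of' {h : ℝ} {x y s : G0} (e : x - y = s) : ⟪ptG h x, ptG h y⟫ = ker h s := by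
  rw [inner_ptG, ← e]

theorem comp_vec3 {X Y : Type} (g : X → Y) (p q r : X) :
    (fun i => g (![p, q, r] i)) = ![g p, g q, g r] := by
  funext i; fin_cases i <;> rfl

theorem comp_vec4 {X Y : Type} (g : X → Y) (p q r t : X) :
    (fun i => g (![p, q, r, t] i)) = ![g p, g q, g r, g t] := by
  funext i; fin_cases i <;> rfl

theorem comp_vec6 {X Y : Type} (g : X → Y) (p q r t u v : X) :
    (fun i => g (![p, q, r, t, u, v] i)) = ![g p, g q, g r, g t, g u, g v] := by
  funext i; fin_cases i <;> rfl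

theorem regular_line (h : ℝ) (s x : G0) : IsRegular (Sym2.map (ptG h) '' line s x) := by
  rw [line, image_edges]
  refine regular_of _ (fun k => ker h (k • s)) fun i j => inner_of' ?_
  module

theorem regular_K {h : ℝ} {α β : G0} (hk : ker h α = ker h β) (h2 : α + α = 0 ∨ β + β = 0)
    (x : G0) : IsRegular (Sym2.map (ptG h) '' fK α β x) := by
  have : fK α β x = edges ![x, x + α, x + α + β, x + β] := by
    rw [edges_four]
    ext e
    simp only [fK, Set.mem_ofPred_eq, add_right_comm x β α,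
      Sym2.eq_swap (a := x + β) (b := x), Sym2.eq_swap (a := x + α + β) (b := x + β)]
    tauto
  rw [this, image_edges, comp_vec4]
  refine regular_four (inner_of (sub_self _)) (inner_of (sub_self _)) (inner_of (sub_self _))
    (inner_of (sub_self _)) (inner_of (s := α) (by abel)) ((inner_of (by abel)).trans hk.symm)
    (inner_of' (by abel)) ((inner_of (by abel)).trans hk.symm) (inner_of (s := α + β) (by abel)) ?_
  rcases h2 with e | e
  · exact inner_of (by linear_combination (norm := abel1) -e)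
  · exact inner_of' (by linear_combination (norm := abel1) -e)

theorem regular_Z {h : ℝ} {α β : G0} (hk : ker h α = ker h β) (h2 : α + β = om)
    (x : G0) : IsRegular (Sym2.map (ptG h) '' fZ α β x) := by
  have h3 : α + β + (α + β) = 0 := by rw [h2, om_add]
  have e1 : x + α + β + α + β = x := by linear_combination (norm := abel1) h3
  have : fZ α β x = edges ![x, x + α, x + α + β, x + α + β + α] := by
    rw [edges_four]
    ext e
    simp only [fZ, Set.mem_ofPred_eq, e1]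
    tauto
  rw [this, image_edges, comp_vec4]
  exact regular_four (inner_of (sub_self _)) (inner_of (sub_self _)) (inner_of (sub_self _))
    (inner_of (sub_self _)) (inner_of (s := α) (by abel)) ((inner_of (by abel)).trans hk.symm)
    (inner_of (by abel))
    ((inner_of' (by linear_combination (norm := abel1) -h3)).trans hk.symm)
    (inner_of (s := α + β) (by abel)) (inner_of (by abel))

theorem regular_T {h : ℝ} {α β : G0} (hk : ker h α = ker h β) (hw : β + β + α = 0)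
    (x : G0) : IsRegular (Sym2.map (ptG h) '' fP β α x) := by
  have : fP β α x = edges ![x, x + β, x + β + β] := by
    have e1 : x + β + β + α = x := by linear_combination (norm := abel1) hw
    rw [edges_three]
    ext e
    simp only [fP, Set.mem_ofPred_eq, hw, add_zero, e1]
    tauto
  rw [this, image_edges, comp_vec3]
  exact regular_three (inner_of (sub_self _)) (inner_of (sub_self _)) (inner_of (sub_self _))
    (inner_of (s := β) (by abel)) (inner_of (by abel))
    ((inner_of' (by linear_combination (norm := abel1) -hw)).trans hk)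

theorem regular_D {h : ℝ} {α β : G0} (hk : ker h α = ker h β) (hw : α + α + β = om)
    (x : G0) : IsRegular (Sym2.map (ptG h) '' fP α β x) := by
  have h2 : α + α + β + (α + α + β) = 0 := by rw [hw, om_add]
  have : fP α β x = edges ![x, x + α, x + α + α, x + om, x + α + om, x + α + α + om] := by
    rw [fP_eq_hexa h2, hw, edges_six]
    ext e
    simp only [hexa, Set.mem_ofPred_eq]
    tauto
  rw [this, image_edges, comp_vec6, ptG_om, ptG_om, ptG_om]
  refine regular_six (inner_of (sub_self _)) (inner_of (sub_self _)) (inner_of (sub_self _))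
    (inner_of (s := α) (by abel)) (inner_of (by abel)) ?_
  rw [hk, ← ker_neg h β, ← ker_om]
  exact inner_of (by linear_combination (norm := abel1) hw)

theorem GModel.regular {h : ℝ} {P : Set (Set (Sym2 G0))} (hP : GModel h P) :
    ∀ F ∈ image (ptG h) P, IsRegular F := by
  obtain ⟨α, β, -, -, hk, hc⟩ := hP
  rintro _ ⟨F, hF, rfl⟩
  rcases hc with ⟨c1, -, rfl⟩ | ⟨c1, -, rfl⟩ | ⟨c1, -, rfl⟩ | ⟨c1, -, rfl⟩ | ⟨c1, -, rfl⟩ |
    ⟨c1, -, rfl⟩ | ⟨c1, -, rfl⟩
  · rcases hF with ⟨x, -, rfl⟩ | ⟨x, -, rfl⟩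
    exacts [regular_K hk (Or.inr c1) x, regular_line h _ x]
  · rcases hF with ⟨x, -, rfl⟩ | ⟨x, -, rfl⟩
    exacts [regular_K hk (Or.inl c1) x, regular_line h _ x]
  · rcases hF with ⟨x, -, rfl⟩ | ⟨x, -, rfl⟩
    exacts [regular_T hk c1 x, regular_line h _ x]
  · rcases hF with ⟨x, -, rfl⟩ | ⟨x, -, rfl⟩
    exacts [regular_D hk c1 x, regular_line h _ x]
  · rcases hF with (⟨x, -, rfl⟩ | ⟨x, -, rfl⟩) | ⟨x, -, rfl⟩
    exacts [regular_Z hk c1 x, regular_line h _ x, regular_line h _ x]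
  · obtain ⟨x, -, rfl⟩ := hF
    exact regular_T hk c1 x
  · obtain ⟨x, -, rfl⟩ := hF
    exact regular_D hk c1 x

/-- The vertical unit vector. -/
noncomputable def e3 : E3 := !₂[0, 0, 1]

theorem inner_e3 (v : E3) : ⟪v, e3⟫ = v 2 := by
  simp [e3, PiLp.inner_apply, Fin.sum_univ_three]

theorem exists_shift (h : ℝ) (y : G0) :
    ∃ L : E3 ≃ₗᵢ[ℝ] E3, (∀ x, L (ptG h x) = ptG h (x + y)) ∧ L e3 = sg y.2 • e3 := by
  have sq : sg y.2 * sg y.2 = 1 := by rcases sg_cases y.2 with e | e <;> simp [e]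
  have k : ∀ x, ⟪ptG h x, e3⟫ = ⟪ptG h (x + y), sg y.2 • e3⟫ := fun x => by
    rw [real_inner_smul_right, inner_e3, inner_e3]
    simp only [ptG, Prod.snd_add, sg_add, Matrix.cons_val]
    linear_combination (-(sg x.2 * h)) * sq
  obtain ⟨L, hL⟩ := exists_iso (fun o : Option G0 => o.elim e3 (ptG h))
    (fun o => o.elim (sg y.2 • e3) fun x => ptG h (x + y)) (by
      rintro (_ | x) (_ | z) <;> simp only [Option.elim]
      · rw [real_inner_smul_left, real_inner_smul_right, ← mul_assoc, sq, one_mul]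
      · rw [real_inner_comm, k, real_inner_comm]
      · exact k x
      · rw [inner_ptG, inner_ptG, add_sub_add_right_eq_sub])
  exact ⟨L, fun x => hL (some x), hL none⟩

theorem orb_inv {a b h : ℝ} {g : E3 → E3} {i₀ j₀ : ℤ}
    (hg : ∀ i j, g (pt a b h i j) = pt a b h (i + i₀) (j + j₀)) {ι : Type} [Add ι] [One ι]
    (w : ι → ℤ × ℤ) : image g (orb a b h w) = orb a b h w := by
  ext F
  constructor
  · rintro ⟨_, ⟨i, j, rfl⟩, rfl⟩
    refine ⟨i + i₀, j + j₀, ?_⟩
    simp only [image_edges, hg, add_right_comm]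
  · rintro ⟨i, j, rfl⟩
    refine ⟨_, ⟨i - i₀, j - j₀, rfl⟩, ?_⟩
    simp only [image_edges, hg, add_right_comm _ _ i₀, add_right_comm _ _ j₀, sub_add_cancel]

theorem verts_orb {a b h : ℝ} {ι : Type} [Add ι] [One ι] {w : ι → ℤ × ℤ} {v : E3}
    (hv : v ∈ verts (orb a b h w)) : ∃ i j, v = pt a b h i j := by
  obtain ⟨_, ⟨i, j, rfl⟩, _, ⟨k, rfl⟩, hv⟩ := hv
  rcases Sym2.mem_iff.1 hv with rfl | rfl <;> exact ⟨_, _, rfl⟩

theorem verts_union {X : Type} {P Q : Set (Set (Sym2 X))} {v : X} (hv : v ∈ verts (P ∪ Q)) :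
    v ∈ verts P ∨ v ∈ verts Q := by
  obtain ⟨F, hF | hF, h⟩ := hv
  exacts [Or.inl ⟨F, hF, h⟩, Or.inr ⟨F, hF, h⟩]

theorem IsModel.axial {Q : Set (Set (Sym2 E3))} (hQ : IsModel Q) : IsAxial Q := by
  obtain ⟨a, b, h, -, -, hc⟩ := hQ
  have key : (∀ v ∈ verts Q, ∃ i j, v = pt a b h i j) ∧ ∀ (g : E3 → E3) (i₀ j₀ : ℤ),
      (∀ i j, g (pt a b h i j) = pt a b h (i + i₀) (j + j₀)) → image g Q = Q := by
    rcases hc with ⟨-, -, rfl⟩ | ⟨-, -, rfl⟩ | ⟨-, -, rfl⟩ | ⟨-, -, rfl⟩ | ⟨-, -, rfl⟩ |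
      ⟨-, -, rfl⟩ | ⟨-, -, rfl⟩
    iterate 4
      exact ⟨fun v hv => (verts_union hv).elim verts_orb verts_orb,
        fun g _ _ hg => by rw [image_union, orb_inv hg, orb_inv hg]⟩
    · exact ⟨fun v hv => (verts_union hv).elim
        (fun hv => (verts_union hv).elim verts_orb verts_orb) verts_orb,
        fun g _ _ hg => by rw [image_union, image_union, orb_inv hg, orb_inv hg, orb_inv hg]⟩
    iterate 2 exact ⟨fun v hv => verts_orb hv, fun g _ _ hg => orb_inv hg _⟩
  refine ⟨e3, fun e => by simpa [e3] using congrArg (fun v : E3 => v 2) e, fun v hv w hw => ?_⟩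
  obtain ⟨i, j, rfl⟩ := key.1 v hv
  obtain ⟨i', j', rfl⟩ := key.1 w hw
  obtain ⟨L, h1, h2⟩ := exists_shift h ((i' - i) • stH a + (j' - j) • stS b)
  have h3 : ∀ k l, L (pt a b h k l) = pt a b h (k + (i' - i)) (l + (j' - j)) := fun k l => by
    rw [pt_eq, pt_eq, h1]
    congr 1
    module
  refine ⟨L.toIsometryEquiv, key.2 _ _ _ h3, by simp [h3], ?_⟩
  simp only [LinearIsometryEquiv.coe_toIsometryEquiv, map_zero, sub_zero, h2]
  rcases sg_cases ((i' - i) • stH a + (j' - j) • stS b).2 with e | e <;> rw [e] <;> simp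

theorem IsModel.uniform {Q : Set (Set (Sym2 E3))} (hQ : IsModel Q) : IsUniform Q := by
  obtain ⟨u, -, hu⟩ := hQ.axial
  obtain ⟨h, hh, P, hP, rfl⟩ := isModel_iff.1 hQ
  refine ⟨((hP.good hh.ne').image (ptG_inj hh.ne').injOn).isPolyhedron, hP.regular,
    fun v hv w hw => ?_⟩
  obtain ⟨g, a, b, -⟩ := hu v hv w hw
  exact ⟨g, a, b⟩

end Pool.Agent.P.MP_708877_co
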