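import Pool.Agent.P.MP_708877_co.Comb

/-!
Images of polyhedra under injective maps of points.
-/

namespace Pool.Agent.P.MP_708877_co

open Relation

variable {X Y Z : Type}

theorem mem_image {g : X → Y} {P : Set (Set (Sym2 X))} {G : Set (Sym2 Y)} :
    G ∈ image g P ↔ ∃ F ∈ P, Sym2.map g '' F = G := Iff.rfl

theorem verts_image (g : X → Y) (P : Set (Set (Sym2 X))) : verts (image g P) = g '' verts P := by
  ext y
  constructor
  · rintro ⟨_, ⟨F, hF, rfl⟩, _, ⟨e, he, rfl⟩, hy⟩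
    obtain ⟨x, hx, rfl⟩ := Sym2.mem_map.1 hy
    exact ⟨x, ⟨F, hF, e, he, hx⟩, rfl⟩
  · rintro ⟨x, ⟨F, hF, e, he, hx⟩, rfl⟩
    exact ⟨_, ⟨F, hF, rfl⟩, _, ⟨e, he, rfl⟩, Sym2.mem_map.2 ⟨x, hx, rfl⟩⟩

theorem face_image_image (g : Y → Z) (f : X → Y) (F : Set (Sym2 X)) :
    Sym2.map g '' (Sym2.map f '' F) = Sym2.map (fun x => g (f x)) '' F := by
  rw [Set.image_image]
  congr 1
  ext e
  rw [Sym2.map_map]
  rfl

theorem image_image (g : Y → Z) (f : X → Y) (P : Set (Set (Sym2 X))) :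
    image g (image f P) = image (fun x => g (f x)) P := by
  unfold image
  rw [Set.image_image]
  congr 1
  funext F
  exact face_image_image g f F

theorem face_image_congr {f g : X → Y} {F : Set (Sym2 X)} (h : ∀ e ∈ F, ∀ v ∈ e, f v = g v) :
    Sym2.map f '' F = Sym2.map g '' F :=
  Set.image_congr fun e he => Sym2.map_congr (h e he)

theorem image_congr {f g : X → Y} {P : Set (Set (Sym2 X))} (h : ∀ v ∈ verts P, f v = g v) :
    image f P = image g P :=
  Set.image_congr fun F hF => face_image_congr fun e he v hv => h v ⟨F, hF, e, he, hv⟩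

theorem face_image_id (F : Set (Sym2 X)) : Sym2.map (fun x : X => x) '' F = F := by
  simp

theorem image_id (P : Set (Set (Sym2 X))) : image (fun x : X => x) P = P := by
  unfold image
  simp

theorem image_union (g : X → Y) (P Q : Set (Set (Sym2 X))) :
    image g (P ∪ Q) = image g P ∪ image g Q := Set.image_union _ _ _

theorem IsEdge.image {P : Set (Set (Sym2 X))} {e : Sym2 X} (h : IsEdge P e) (g : X → Y) :
    IsEdge (image g P) (Sym2.map g e) := by
  obtain ⟨F, hF, he⟩ := h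
  exact ⟨_, ⟨F, hF, rfl⟩, e, he, rfl⟩

theorem isEdge_image {P : Set (Set (Sym2 X))} {g : X → Y} {e' : Sym2 Y}
    (h : IsEdge (image g P) e') : ∃ e, IsEdge P e ∧ Sym2.map g e = e' := by
  obtain ⟨_, ⟨F, hF, rfl⟩, e, he, rfl⟩ := h
  exact ⟨e, ⟨F, hF, he⟩, rfl⟩

theorem IsEdge.vert {P : Set (Set (Sym2 X))} {e : Sym2 X} (h : IsEdge P e) {v : X} (hv : v ∈ e) :
    v ∈ verts P := by
  obtain ⟨F, hF, he⟩ := h
  exact ⟨F, hF, e, he, hv⟩

theorem edge_inj {P : Set (Set (Sym2 X))} {g : X → Y} (hg : Set.InjOn g (verts P))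
    {e e' : Sym2 X} (he : IsEdge P e) (he' : IsEdge P e') (h : Sym2.map g e = Sym2.map g e') :
    e = e' := by
  induction e using Sym2.ind with
  | _ a b =>
  induction e' using Sym2.ind with
  | _ c d =>
  simp only [Sym2.map_mk, Sym2.eq_iff] at h ⊢
  rcases h with h | h
  · exact Or.inl ⟨hg he.left he'.left h.1, hg he.right he'.right h.2⟩
  · exact Or.inr ⟨hg he.left he'.right h.1, hg he.right he'.left h.2⟩

theorem mem_face_image {P : Set (Set (Sym2 X))} {g : X → Y} (hg : Set.InjOn g (verts P))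
    {e : Sym2 X} (he : IsEdge P e) {F : Set (Sym2 X)} (hF : F ∈ P) :
    Sym2.map g e ∈ Sym2.map g '' F ↔ e ∈ F := by
  constructor
  · rintro ⟨e', h1, h2⟩
    rwa [← edge_inj hg ⟨F, hF, h1⟩ he h2]
  · exact fun h => ⟨e, h, rfl⟩

theorem Good.image {P : Set (Set (Sym2 X))} (h : Good P) {g : X → Y}
    (hg : Set.InjOn g (verts P)) : Good (image g P) := by
  refine ⟨h.ne.image _, ?_, ?_, ?_, ?_⟩
  · rintro _ ⟨F, hF, rfl⟩
    obtain ⟨f, hf, rfl⟩ := isPolygon_iff.1 (h.poly F hF)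
    have hv : ∀ i, f i ∈ verts P := fun i => IsEdge.left ⟨_, hF, edge_mem f i⟩
    refine isPolygon_iff.2 ⟨fun i => g (f i), ⟨fun i j k e => ?_, fun e => ?_⟩, image_edges g f⟩
    · exact congrArg g (hf.1 i j k (hg (hv i) (hv j) e))
    · exact hf.2 (hg (hv 2) (hv 0) e)
  · rintro _ ⟨F, hF, rfl⟩ _ ⟨e, he, rfl⟩
    obtain ⟨F', h1, h2, h3⟩ := h.two F hF e he
    have he0 : IsEdge P e := ⟨F, hF, he⟩
    refine ⟨_, ⟨F', h1, rfl⟩, fun e1 => h2 ?_, ?_⟩
    · ext a
      constructor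
      · intro ha
        rw [← mem_face_image hg ⟨F', h1, ha⟩ hF]
        have e2 : Sym2.map g '' F' = Sym2.map g '' F := e1
        rw [← e2]
        exact ⟨a, ha, rfl⟩
      · intro ha
        rw [← mem_face_image hg ⟨F, hF, ha⟩ h1]
        have e2 : Sym2.map g '' F' = Sym2.map g '' F := e1
        rw [e2]
        exact ⟨a, ha, rfl⟩
    · ext G
      simp only [Set.mem_ofPred_eq, Set.mem_insert_iff, Set.mem_singleton_iff]
      constructor
      · rintro ⟨⟨G, hG, rfl⟩, h4⟩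
        have : G ∈ ({F, F'} : Set _) := h3 ▸ ⟨hG, (mem_face_image hg he0 hG).1 h4⟩
        rcases this with rfl | rfl
        · exact Or.inl rfl
        · exact Or.inr rfl
      · rintro (rfl | rfl)
        · exact ⟨⟨F, hF, rfl⟩, e, he, rfl⟩
        · have : F' ∈ {G | G ∈ P ∧ e ∈ G} := by rw [h3]; simp
          exact ⟨⟨F', h1, rfl⟩, e, this.2, rfl⟩
  · rw [verts_image]
    rintro _ ⟨v, hv, rfl⟩ _ ⟨w, hw, rfl⟩
    have := h.gconn v hv w hw
    clear hw
    induction this with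
    | refl => exact .refl
    | tail _ hbc ih => exact ih.tail (hbc.image g)
  · intro y e₁' e₂' h1' h2' m1 m2
    obtain ⟨e₁, h1, rfl⟩ := isEdge_image h1'
    obtain ⟨e₂, h2, rfl⟩ := isEdge_image h2'
    clear h1' h2'
    obtain ⟨v, hv, rfl⟩ := Sym2.mem_map.1 m1
    obtain ⟨w, hw, e⟩ := Sym2.mem_map.1 m2
    obtain rfl := hg (h2.vert hw) (h1.vert hv) e
    have := h.vconn w e₁ e₂ h1 h2 hv hw
    clear hw h2 m2
    induction this with
    | refl => exact .refl
    | tail _ hbc ih =>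
      obtain ⟨a, F, hF, b1, b2⟩ := hbc
      exact ih.tail ⟨Sym2.mem_map.2 ⟨w, a, rfl⟩, _, ⟨F, hF, rfl⟩, ⟨_, b1, rfl⟩, ⟨_, b2, rfl⟩⟩

end Pool.Agent.P.MP_708877_co
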