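import Pool.Agent.P.MP_708877_co.Face

/-!
The classification in terms of parameters.
-/

namespace Pool.Agent.P.MP_708877_co

/-- The subgroup generated by two steps. -/
noncomputable def gen2 (α β : G0) : AddSubgroup G0 := AddSubgroup.closure {α, β}

theorem mem_gen2 {α β x : G0} : x ∈ gen2 α β ↔ ∃ i j : ℤ, x = i • α + j • β := by
  unfold gen2
  rw [AddSubgroup.mem_closure_pair]
  simp only [eq_comm]

theorem left_mem_gen2 (α β : G0) : α ∈ gen2 α β := mem_gen2.2 ⟨1, 0, by simp⟩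

theorem right_mem_gen2 (α β : G0) : β ∈ gen2 α β := mem_gen2.2 ⟨0, 1, by simp⟩

theorem gen2_gen (α β : G0) : ∀ x ∈ gen2 α β, ∃ i j : ℤ, x = i • α + j • β :=
  fun _ h => mem_gen2.1 h

theorem gen2_gen' (α β : G0) : ∀ x ∈ gen2 α β, ∃ i j : ℤ, x = i • β + j • α := fun _ h => by
  obtain ⟨i, j, rfl⟩ := mem_gen2.1 h
  exact ⟨j, i, add_comm _ _⟩

/-- The list on the level of parameters. -/
def GModel (h : ℝ) (P : Set (Set (Sym2 G0))) : Prop :=
  ∃ α β : G0, α.2 = 0 ∧ β.2 = 1 ∧ ker h α = ker h β ∧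
    ((β + β = 0 ∧ α + α ≠ 0 ∧ P = fam (gen2 α β) (fK α β) ∪ fam (gen2 α β) (line α)) ∨
    (α + α = 0 ∧ β + β ≠ 0 ∧ P = fam (gen2 α β) (fK α β) ∪ fam (gen2 α β) (line β)) ∨
    (β + β + α = 0 ∧ α + α ≠ 0 ∧ P = fam (gen2 α β) (fP β α) ∪ fam (gen2 α β) (line α)) ∨
    (α + α + β = om ∧ β + β ≠ 0 ∧ P = fam (gen2 α β) (fP α β) ∪ fam (gen2 α β) (line β)) ∨
    (α + β = om ∧ α + α ≠ 0 ∧
      P = fam (gen2 α β) (fZ α β) ∪ fam (gen2 α β) (line α) ∪ fam (gen2 α β) (line β)) ∨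
    (β + β + α = 0 ∧ α + α = 0 ∧ P = fam (gen2 α β) (fP β α)) ∨
    (α + α + β = om ∧ β + β = 0 ∧ P = fam (gen2 α β) (fP α β)))

theorem alpha_ne {h : ℝ} (hh : h ≠ 0) {α β : G0} (hβ : β.2 = 1) (hk : ker h α = ker h β) :
    α ≠ 0 := by
  rintro rfl
  have h1 : β.1.cos ≤ 1 := by
    induction β.1 using Real.Angle.induction_on
    exact Real.cos_le_one _
  have h2 : 0 < h ^ 2 := by positivity
  simp [ker, hβ] at hk
  linarith

theorem beta_ne {h : ℝ} (hh : h ≠ 0) {α β : G0} (hα : α.2 = 0) (hk : ker h α = ker h β) :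
    β ≠ om := by
  rintro rfl
  have h1 : -1 ≤ α.1.cos := by
    induction α.1 using Real.Angle.induction_on
    exact Real.neg_one_le_cos _
  have h2 : 0 < h ^ 2 := by positivity
  simp [ker, hα, om] at hk
  linarith

theorem par_ne {α β : G0} (hα : α.2 = 0) (hβ : β.2 = 1) : par α ≠ par β := by
  simp [hα, hβ]

theorem verts_sub {P : Set (Set (Sym2 G0))} (hP : Good P) (h0 : 0 ∈ verts P) {α β : G0}
    (step : ∀ x y, IsEdge P s(x, y) → Pm (y - x) α ∨ Pm (y - x) β) :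
    ∀ v ∈ verts P, v ∈ gen2 α β := by
  intro v hv
  have := hP.gconn 0 h0 v hv
  clear hv
  induction this with
  | refl => exact AddSubgroup.zero_mem _
  | @tail b c _ hbc ih =>
    have : c - b ∈ gen2 α β := by
      rcases step _ _ hbc with e | e
      exacts [e.mem (left_mem_gen2 _ _), e.mem (right_mem_gen2 _ _)]
    simpa using AddSubgroup.add_mem _ ih this

theorem pm_three {G : Type} [AddCommGroup G] {a b c s : G} (ha : Pm a s) (hb : Pm b s)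
    (hc : Pm c s) : a = b ∨ a = c ∨ b = c := by
  rcases ha with rfl | rfl <;> rcases hb with h | h <;> rcases hc with h' | h' <;> simp [h, h']

theorem exists_steps {h : ℝ} {P : Set (Set (Sym2 G0))} (hP : Good P)
    (reg : ∀ F ∈ P, ∃ f, Seq f ∧ F = edges f ∧
      ∀ i j, ker h (f (i + 1) - f (j + 1)) = ker h (f i - f j)) :
    ∃ α β : G0, α.2 = 0 ∧ β.2 = 1 ∧ ker h α = ker h β ∧ ¬ (α + α = 0 ∧ β + β = 0) ∧
      (∀ x y, IsEdge P s(x, y) → Pm (y - x) α ∨ Pm (y - x) β) ∧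
      (∃ x, IsEdge P s(x, x + α)) ∧ (∃ x, IsEdge P s(x, x + β)) := by
  obtain ⟨x, y₁, y₂, y₃, e1, e2, e3, n1, n2, n3⟩ := hP.three
  have len : ∀ u v, IsEdge P s(u, v) → ker h (v - u) = ker h (y₁ - x) := by
    have sw : ∀ u v u' v' : G0, s(u, v) = s(u', v') → ker h (v - u) = ker h (v' - u') := by
      intro u v u' v' e
      rcases Sym2.eq_iff.1 e with ⟨rfl, rfl⟩ | ⟨rfl, rfl⟩
      · rfl
      · rw [← ker_neg, neg_sub]
    intro u v huv
    refine hP.edge_induction (fun e => ∀ u v, e = s(u, v) → ker h (v - u) = ker h (y₁ - x)) ?_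
      e1 huv (fun u v e => (sw _ _ _ _ e).symm) u v rfl
    intro F hF a ha b hb h1 u v e
    obtain ⟨f, -, rfl, hT⟩ := reg F hF
    have key : ∀ i, ker h (f (i + 1) - f i) = ker h (f (0 + 1) - f 0) := by
      intro i
      induction i using Int.induction_on with
      | zero => rfl
      | succ i ih => rw [hT, ih]
      | pred i ih =>
        rw [← ih, ← hT]
        congr 3 <;> ring
    obtain ⟨i, rfl⟩ := ha
    obtain ⟨j, rfl⟩ := hb
    rw [← sw _ _ _ _ e, key, ← key i, h1 _ _ rfl]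
  have pm : ∀ u v u' v', IsEdge P s(u, v) → IsEdge P s(u', v') → (v - u).2 = (v' - u').2 →
      Pm (v - u) (v' - u') := fun u v u' v' a b c =>
    pm_of_ker ((len _ _ a).trans (len _ _ b).symm) c
  have nn : ¬ (y₁ - x = y₂ - x ∨ y₁ - x = y₃ - x ∨ y₂ - x = y₃ - x) := by
    simp [n1, n2, n3]
  have ex : ∀ ε : ZMod 2, ∃ y, IsEdge P s(x, y) ∧ (y - x).2 = ε := by
    intro ε
    by_contra hc
    have k : ∀ y, IsEdge P s(x, y) → (y - x).2 = ε + 1 := fun y hy =>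
      zmod2_ne.1 fun e => hc ⟨y, hy, e⟩
    exact nn (pm_three (Pm.refl _) (pm _ _ _ _ e2 e1 (by rw [k _ e1, k _ e2]))
      (pm _ _ _ _ e3 e1 (by rw [k _ e1, k _ e3])))
  obtain ⟨a, a1, a2⟩ := ex 0
  obtain ⟨b, b1, b2⟩ := ex 1
  have step : ∀ u v, IsEdge P s(u, v) → Pm (v - u) (a - x) ∨ Pm (v - u) (b - x) := by
    intro u v huv
    rcases zmod2_cases (v - u).2 with c | c
    · exact Or.inl (pm _ _ _ _ huv a1 (by rw [c, a2]))
    · exact Or.inr (pm _ _ _ _ huv b1 (by rw [c, b2]))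
  refine ⟨a - x, b - x, a2, b2, (len _ _ a1).trans (len _ _ b1).symm, ?_, step,
    ⟨x, by simpa using a1⟩, ⟨x, by simpa using b1⟩⟩
  rintro ⟨c1, c2⟩
  have k : ∀ y, IsEdge P s(x, y) → y - x = a - x ∨ y - x = b - x := fun y hy =>
    (step _ _ hy).imp (fun e => e.elim id fun e => by rw [e, neg_eq_of_add_eq_zero_left c1])
      (fun e => e.elim id fun e => by rw [e, neg_eq_of_add_eq_zero_left c2])
  apply nn
  rcases k _ e1 with d1 | d1 <;> rcases k _ e2 with d2 | d2 <;> rcases k _ e3 with d3 | d3 <;>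
    simp [d1, d2, d3]

theorem master {h : ℝ} (hh : h ≠ 0) {P : Set (Set (Sym2 G0))} (hP : Good P) (h0 : 0 ∈ verts P)
    (reg : ∀ F ∈ P, ∃ f, Seq f ∧ F = edges f ∧
      ∀ i j, ker h (f (i + 1) - f (j + 1)) = ker h (f i - f j))
    (tr : ∀ v ∈ verts P, ∀ w ∈ verts P, ∃ φ : G0 → G0, image φ P ⊆ P ∧ φ v = w ∧
      Set.InjOn φ (verts P) ∧ (∀ x ∈ verts P, ∀ y ∈ verts P, par (φ y - φ x) = par (y - x)) ∧
      ∀ x ∈ verts P, x + om ∈ verts P → φ (x + om) = φ x + om) : GModel h P := by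
  obtain ⟨α, β, hα, hβ, hk, hnn, step, ⟨xa, ea⟩, ⟨xb, eb⟩⟩ := exists_steps hP reg
  have st : ∀ {α' β'}, Pm α' α → Pm β' β →
      ∀ x y, IsEdge P s(x, y) → Pm (y - x) α' ∨ Pm (y - x) β' := fun c1 c2 x y e =>
    (step x y e).imp (fun a => a.trans c1.symm) fun a => a.trans c2.symm
  have pa : ∀ {α'}, Pm α' α → α'.2 = 0 := fun c => (c.par (π := par)).trans hα
  have pb : ∀ {β'}, Pm β' β → β'.2 = 1 := fun c => (c.par (π := par)).trans hβ
  have kk : ∀ {α' β'}, Pm α' α → Pm β' β → ker h α' = ker h β' := fun c1 c2 => by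
    rw [c1.ker, c2.ker, hk]
  by_cases hT : ∃ x γ κ, Pm γ β ∧ Pm κ α ∧ γ + γ + κ = 0 ∧ fP γ κ x ∈ P
  · obtain ⟨x, γ, κ, c1, c2, c3, c4⟩ := hT
    have k0 : κ ≠ 0 := alpha_ne hh (pb c1) (kk c2 c1)
    have g0 : γ + γ ≠ 0 := fun e => k0 (by rwa [e, zero_add] at c3)
    have := class_P (π := par) hP (right_mem_gen2 κ γ) (left_mem_gen2 κ γ) (gen2_gen' κ γ)
      (verts_sub hP h0 (st c2 c1)) (fun x y e => (st c2 c1 x y e).symm)
      (par_ne (pa c2) (pb c1)).symm (by rw [c3, add_zero]) g0 k0 (polygon_fP0 c3 g0)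
      (fun v hv w hw => by
        obtain ⟨φ, a1, a2, a3, a4, -⟩ := tr v hv w hw
        exact ⟨φ, a1, a2, a3, a4, fun x _ _ => by rw [c3, add_zero, add_zero]⟩) c4
    refine ⟨κ, γ, pa c2, pb c1, kk c2 c1, ?_⟩
    rcases this with a | a
    · exact Or.inr (Or.inr (Or.inl ⟨c3, a⟩))
    · exact Or.inr (Or.inr (Or.inr (Or.inr (Or.inr (Or.inl ⟨c3, a⟩)))))
  by_cases hX : ∃ x γ κ, Pm γ α ∧ Pm κ β ∧ γ + γ + κ = om ∧ fP γ κ x ∈ P
  · obtain ⟨x, γ, κ, c1, c2, c3, c4⟩ := hX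
    have k0 : κ ≠ 0 := fun e => by simpa [e] using pb c2
    have g0 : γ + γ ≠ 0 := fun e => beta_ne hh (pa c1) (kk c1 c2) (by rwa [e, zero_add] at c3)
    have h2 : γ + γ + κ + (γ + γ + κ) = 0 := by rw [c3, om_add]
    have := class_P (π := par) hP (left_mem_gen2 γ κ) (right_mem_gen2 γ κ) (gen2_gen γ κ)
      (verts_sub hP h0 (st c1 c2)) (st c1 c2)
      (par_ne (pa c1) (pb c2)) h2 g0 k0 (polygon_fP1 (π := par) (pa c1) (pb c2) h2 g0)
      (fun v hv w hw => by rw [c3]; exact tr v hv w hw) c4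
    refine ⟨γ, κ, pa c1, pb c2, kk c1 c2, ?_⟩
    rcases this with a | a
    · exact Or.inr (Or.inr (Or.inr (Or.inl ⟨c3, a⟩)))
    · exact Or.inr (Or.inr (Or.inr (Or.inr (Or.inr (Or.inr ⟨c3, a⟩)))))
  have mix : ∀ F ∈ P, ∀ α' β', Pm α' α → Pm β' β → (∃ y, s(y, y + α') ∈ F) →
      (∃ y, s(y, y + β') ∈ F) →
      (∃ x α' β', Pm α' α ∧ Pm β' β ∧ (α + α = 0 ∨ β + β = 0) ∧ F = fK α' β' x) ∨
      (∃ x α' β', Pm α' α ∧ Pm β' β ∧ α' + β' = om ∧ F = fZ α' β' x) := by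
    rintro F hF α' β' c1 c2 ⟨y, hy⟩ ⟨z, hz⟩
    obtain ⟨f, hf, rfl, hT'⟩ := reg F hF
    have m1 : ∃ i, (f (i + 1)).2 = (f i).2 := by
      obtain ⟨i, hi⟩ := hy
      refine ⟨i, ?_⟩
      rcases Sym2.eq_iff.1 hi with e | e <;> simp [e.1, e.2, pa c1]
    have m2 : ∃ i, (f (i + 1)).2 = (f i).2 + 1 := by
      obtain ⟨i, hi⟩ := hz
      refine ⟨i, ?_⟩
      rcases Sym2.eq_iff.1 hi with e | e <;> simp [e.1, e.2, pb c2, add_assoc, zmod2_one_add]
    rcases mixed_face hh hα hβ hk hf hT' (fun i => step _ _ ⟨_, hF, edge_mem f i⟩) m1 m2 with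
      ⟨x, γ, κ, a1, a2, a3, a4⟩ | ⟨x, γ, κ, a1, a2, a3, a4⟩ | a
    · exact absurd ⟨x, γ, κ, a1, a2, a3, a4 ▸ hF⟩ hT
    · exact absurd ⟨x, γ, κ, a1, a2, a3, a4 ▸ hF⟩ hX
    · exact a
  have zz : ∀ {α' β'}, Pm α' α → Pm β' β → α' + β' = om → (α + α = 0 ↔ β + β = 0) := by
    intro α' β' c1 c2 c3
    have := om_add
    rw [← c3] at this
    rw [← c1.two, ← c2.two]
    constructor
    · intro e; linear_combination (norm := abel1) this - e
    · intro e; linear_combination (norm := abel1) this - e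
  by_cases hb : β + β = 0
  · have ha : α + α ≠ 0 := fun e => hnn ⟨e, hb⟩
    refine ⟨α, β, hα, hβ, hk, Or.inl ⟨hb, ha, ?_⟩⟩
    refine class_K (π := par) hP (right_mem_gen2 α β) (left_mem_gen2 α β) (gen2_gen α β)
      (verts_sub hP h0 step) (fun x y e => (step x y e).symm) (par_ne hα hβ).symm
      (fun e => by simp [e] at hβ) hb ha fun F hF a b => ?_
    rcases mix F hF α β (Pm.refl _) (Pm.refl _) b a with ⟨x, α', β', c1, c2, -, c4⟩ |
      ⟨x, α', β', c1, c2, c3, -⟩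
    · exact ⟨x, α', β', c1, c2, c4⟩
    · exact absurd ((zz c1 c2 c3).2 hb) ha
  by_cases ha : α + α = 0
  · refine ⟨α, β, hα, hβ, hk, Or.inr (Or.inl ⟨ha, hb, ?_⟩)⟩
    rw [show fK α β = fK β α from funext (fK_swap α β)]
    refine class_K (π := par) hP (left_mem_gen2 α β) (right_mem_gen2 α β) (gen2_gen' α β)
      (verts_sub hP h0 step) step (par_ne hα hβ) (alpha_ne hh hβ hk) ha hb fun F hF a b => ?_
    rcases mix F hF α β (Pm.refl _) (Pm.refl _) a b with ⟨x, α', β', c1, c2, -, c4⟩ |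
      ⟨x, α', β', c1, c2, c3, -⟩
    · exact ⟨x, β', α', c2, c1, c4.trans (fK_swap _ _ _)⟩
    · exact absurd ((zz c1 c2 c3).1 ha) hb
  have mixZ : ∀ F ∈ P, ∀ α' β', Pm α' α → Pm β' β → (∃ y, s(y, y + α') ∈ F) →
      (∃ y, s(y, y + β') ∈ F) →
      (∃ x α' β', Pm α' α ∧ Pm β' β ∧ α' + β' = om ∧ F = fZ α' β' x) := by
    intro F hF α' β' c1 c2 a b
    refine (mix F hF α' β' c1 c2 a b).resolve_left ?_
    rintro ⟨-, -, -, -, -, c, -⟩
    tauto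
  have exm : ∃ F ∈ P, (∃ y, s(y, y + α) ∈ F) ∧ (∃ y, s(y, y + β) ∈ F) := by
    by_contra hc
    have := hP.edge_induction (fun e => ∃ y, e = s(y, y + α)) ?_ ea eb ⟨xa, rfl⟩
    · obtain ⟨y, hy⟩ := this
      exact step_ne (par_ne hα hβ) _ _ hy.symm
    · rintro F hF _ ha' b hb' ⟨y, rfl⟩
      induction b using Sym2.ind with
      | _ u v =>
      rcases step u v ⟨F, hF, hb'⟩ with c | c
      · obtain ⟨z, -, hz⟩ := c.edge
        exact ⟨z, hz⟩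
      · obtain ⟨z, -, hz⟩ := c.edge
        exact absurd ⟨F, hF, ⟨y, ha'⟩, z, hz ▸ hb'⟩ hc
  obtain ⟨F₀, hF₀, a, b⟩ := exm
  obtain ⟨-, α', β', c1, c2, c3, -⟩ := mixZ F₀ hF₀ α β (Pm.refl _) (Pm.refl _) a b
  have ha' : α' + α' ≠ 0 := fun e => ha (c1.two.1 e)
  refine ⟨α', β', pa c1, pb c2, kk c1 c2,
    Or.inr (Or.inr (Or.inr (Or.inr (Or.inl ⟨c3, ha', ?_⟩))))⟩
  refine class_Z (π := par) hP (left_mem_gen2 α' β') (right_mem_gen2 α' β') (gen2_gen α' β')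
    (verts_sub hP h0 (st c1 c2)) (st c1 c2) (par_ne (pa c1) (pb c2)) (by rw [c3, om_add]) ha'
    fun F hF a b => ?_
  obtain ⟨x, α'', β'', d1, -, d3, d4⟩ := mixZ F hF α' β' c1 c2 a b
  exact ⟨x, α'', β'', d1.trans c1.symm, d3.trans c3.symm, d4⟩

theorem GModel.good {h : ℝ} (hh : h ≠ 0) {P : Set (Set (Sym2 G0))} (hP : GModel h P) : Good P := by
  obtain ⟨α, β, hα, hβ, hk, hc⟩ := hP
  have a0 : α ≠ 0 := alpha_ne hh hβ hk
  have b0 : β ≠ 0 := fun e => by simp [e] at hβ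
  have b1 : β ≠ om := beta_ne hh hα hk
  have pn := par_ne hα hβ
  have T : β + β + α = 0 → ∀ N, (α + α ≠ 0 ∧ N = fam (gen2 α β) (line α)) ∨ (α + α = 0 ∧ N = ∅) →
      Good (fam (gen2 α β) (fP β α) ∪ N) := fun c N hN => by
    have g0 : β + β ≠ 0 := fun e => a0 (by rwa [e, zero_add] at c)
    exact good_P (right_mem_gen2 α β) (left_mem_gen2 α β) (gen2_gen' α β) pn.symm
      (by rw [c, add_zero]) g0 a0 (polygon_fP0 c g0) hN
  have X : α + α + β = om → ∀ N, (β + β ≠ 0 ∧ N = fam (gen2 α β) (line β)) ∨ (β + β = 0 ∧ N = ∅) →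
      Good (fam (gen2 α β) (fP α β) ∪ N) := fun c N hN => by
    have g0 : α + α ≠ 0 := fun e => b1 (by rwa [e, zero_add] at c)
    have h2 : α + α + β + (α + α + β) = 0 := by rw [c, om_add]
    exact good_P (left_mem_gen2 α β) (right_mem_gen2 α β) (gen2_gen α β) pn h2 g0 b0
      (polygon_fP1 (π := par) hα hβ h2 g0) hN
  rcases hc with ⟨c1, c2, rfl⟩ | ⟨c1, c2, rfl⟩ | ⟨c1, c2, rfl⟩ | ⟨c1, c2, rfl⟩ | ⟨c1, c2, rfl⟩ |
    ⟨c1, c2, rfl⟩ | ⟨c1, c2, rfl⟩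
  · exact good_K (left_mem_gen2 α β) (right_mem_gen2 α β) (gen2_gen α β) pn.symm b0 c1 c2
  · rw [show fK α β = fK β α from funext (fK_swap α β)]
    exact good_K (right_mem_gen2 α β) (left_mem_gen2 α β) (gen2_gen' α β) pn a0 c1 c2
  · exact T c1 _ (Or.inl ⟨c2, rfl⟩)
  · exact X c1 _ (Or.inl ⟨c2, rfl⟩)
  · exact good_Z (left_mem_gen2 α β) (right_mem_gen2 α β) (gen2_gen α β) pn
      (by rw [c1, om_add]) c2
  · simpa using T c1 _ (Or.inr ⟨c2, rfl⟩)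
  · simpa using X c1 _ (Or.inr ⟨c2, rfl⟩)

end Pool.Agent.P.MP_708877_co
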