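import Pool.Agent.P.MP_708877_co.Image

/-!
The model polyhedra on an abelian group.
-/

namespace Pool.Agent.P.MP_708877_co

open Relation

variable {G : Type} [AddCommGroup G]

/-- The polygon with constant step. -/
def line (s x : G) : Set (Sym2 G) := edges fun k : ℤ => x + k • s

/-- The parallelogram. -/
def fK (κ γ x : G) : Set (Sym2 G) :=
  {e | e = s(x, x + κ) ∨ e = s(x + γ, x + γ + κ) ∨ e = s(x, x + γ) ∨ e = s(x + κ, x + κ + γ)}

/-- The staircase quadrilateral. -/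
def fZ (α β x : G) : Set (Sym2 G) :=
  {e | e = s(x, x + α) ∨ e = s(x + α + β, x + α + β + α) ∨ e = s(x + α, x + α + β) ∨
    e = s(x + α + β + α, x + α + β + α + β)}

/-- The triangle or hexagon with steps `γ, γ, κ`. -/
def fP (γ κ x : G) : Set (Sym2 G) :=
  {e | e = s(x, x + γ) ∨ e = s(x + γ, x + γ + γ) ∨ e = s(x + (γ + γ + κ), x + (γ + γ + κ) + γ) ∨
    e = s(x + (γ + γ + κ) + γ, x + (γ + γ + κ) + γ + γ) ∨ e = s(x + γ + γ, x + γ + γ + κ) ∨
    e = s(x + (γ + γ + κ) + γ + γ, x + (γ + γ + κ) + γ + γ + κ)}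

/-- All translates by a subgroup. -/
def fam (L : AddSubgroup G) (Φ : G → Set (Sym2 G)) : Set (Set (Sym2 G)) := {F | ∃ x ∈ L, F = Φ x}

theorem step_eq {y z γ : G} :
    s(y, y + γ) = s(z, z + γ) ↔ y = z ∨ (y = z + γ ∧ γ + γ = 0) := by
  rw [Sym2.eq_iff]
  constructor
  · rintro (h | h)
    · exact Or.inl h.1
    · refine Or.inr ⟨h.1, ?_⟩
      have := h.2
      rw [h.1, add_assoc] at this
      exact add_eq_left.1 this
  · rintro (rfl | ⟨rfl, h⟩)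
    · exact Or.inl ⟨rfl, rfl⟩
    · exact Or.inr ⟨rfl, by rw [add_assoc, h, add_zero]⟩

theorem zmod2_neg (a : ZMod 2) : -a = a := by revert a; decide

theorem step_ne {π : G →+ ZMod 2} {γ κ : G} (h : π γ ≠ π κ) (y z : G) :
    s(y, y + γ) ≠ s(z, z + κ) := by
  intro e
  rcases Sym2.eq_iff.1 e with e | e
  · apply h
    rw [e.1] at e
    rw [add_left_cancel e.2]
  · apply h
    have h1 : γ = -κ := by
      have := e.2
      rw [e.1, add_assoc] at this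
      exact eq_neg_of_add_eq_zero_right (add_eq_left.1 this)
    rw [h1, map_neg, zmod2_neg]

theorem mem_line {s x : G} {e : Sym2 G} :
    e ∈ line s x ↔ ∃ k : ℤ, e = s(x + k • s, x + k • s + s) := by
  unfold line
  rw [mem_edges]
  refine exists_congr fun k => ?_
  rw [add_zsmul, one_zsmul, add_assoc, eq_comm]

theorem line_add (s x : G) (j : ℤ) : line s (x + j • s) = line s x := by
  ext e
  simp only [mem_line]
  constructor
  · rintro ⟨k, rfl⟩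
    exact ⟨j + k, by rw [add_zsmul, ← add_assoc]⟩
  · rintro ⟨k, rfl⟩
    exact ⟨k - j, by rw [add_assoc x (j • s), ← add_zsmul, add_sub_cancel]⟩

theorem line_neg (s x : G) : line (-s) x = line s x := by
  ext e
  simp only [mem_line]
  constructor
  · rintro ⟨k, rfl⟩
    refine ⟨-k - 1, ?_⟩
    rw [Sym2.eq_swap]
    congr 1 <;> module
  · rintro ⟨k, rfl⟩
    refine ⟨-k - 1, ?_⟩
    rw [Sym2.eq_swap]
    congr 1 <;> module

theorem self_mem_line (s x : G) : s(x, x + s) ∈ line s x := mem_line.2 ⟨0, by simp⟩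

theorem prev_mem_line (s x : G) : s(x - s, x - s + s) ∈ line s x :=
  mem_line.2 ⟨-1, by simp [sub_eq_add_neg]⟩

theorem line_eq_of_mem {s x y : G} (h : s(y, y + s) ∈ line s x) : line s x = line s y := by
  obtain ⟨k, hk⟩ := mem_line.1 h
  rcases step_eq.1 hk with rfl | ⟨rfl, -⟩
  · rw [line_add]
  · have : x + k • s + s = x + (k + 1) • s := by module
    rw [this, line_add]

theorem not_mem_line {π : G →+ ZMod 2} {γ κ : G} (h : π γ ≠ π κ) (y z : G) :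
    s(y, y + γ) ∉ line κ z := fun hh => by
  obtain ⟨k, hk⟩ := mem_line.1 hh
  exact step_ne h _ _ hk

theorem polygon_line {s : G} (h : s + s ≠ 0) (x : G) : IsPolygon (line s x) := by
  refine isPolygon_iff.2 ⟨_, ⟨fun i j k e => ?_, fun e => h ?_⟩, rfl⟩
  · simp only [add_zsmul, ← add_assoc] at e ⊢
    rw [e]
  · simpa [two_zsmul] using e

theorem polygon_four {X : Type} {p q r t : X} (h1 : p ≠ q) (h2 : p ≠ r) (h3 : p ≠ t) (h4 : q ≠ r)
    (h5 : q ≠ t) (h6 : r ≠ t) : IsPolygon (edges ![p, q, r, t]) := by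
  refine ⟨4, ![p, q, r, t], by norm_num, by norm_num, ?_, rfl⟩
  intro i j
  fin_cases i <;> fin_cases j <;> simp_all [eq_comm]

theorem polygon_three {X : Type} {p q r : X} (h1 : p ≠ q) (h2 : p ≠ r) (h4 : q ≠ r) :
    IsPolygon (edges ![p, q, r]) := by
  refine ⟨3, ![p, q, r], by norm_num, by norm_num, ?_, rfl⟩
  intro i j
  fin_cases i <;> fin_cases j <;> simp_all [eq_comm]

theorem edges_three {X : Type} (p q r : X) :
    edges ![p, q, r] = {e | e = s(p, q) ∨ e = s(q, r) ∨ e = s(r, p)} := by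
  ext e
  simp [mem_edges, Fin.exists_fin_succ, eq_comm]

theorem edges_four {X : Type} (p q r t : X) :
    edges ![p, q, r, t] = {e | e = s(p, q) ∨ e = s(q, r) ∨ e = s(r, t) ∨ e = s(t, p)} := by
  ext e
  simp [mem_edges, Fin.exists_fin_succ, eq_comm]

theorem edges_six {X : Type} (p q r t u v : X) :
    edges ![p, q, r, t, u, v] =
      {e | e = s(p, q) ∨ e = s(q, r) ∨ e = s(r, t) ∨ e = s(t, u) ∨ e = s(u, v) ∨ e = s(v, p)} := by
  ext e
  simp [mem_edges, Fin.exists_fin_succ, eq_comm]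

/-- A criterion for a family of faces on a group to be a polyhedron. -/
theorem good_of {L : AddSubgroup G} {γ κ : G} (hγ : γ ∈ L) (hκ : κ ∈ L)
    (gen : ∀ x ∈ L, ∃ i j : ℤ, x = i • γ + j • κ) {M : Set (Set (Sym2 G))}
    (poly : ∀ F ∈ M, IsPolygon F)
    (hed : ∀ F ∈ M, ∀ e ∈ F, ∃ y ∈ L, e = s(y, y + γ) ∨ e = s(y, y + κ))
    (t1 : ∀ y ∈ L, ∃ F₁ ∈ M, ∃ F₂ ∈ M, F₁ ≠ F₂ ∧ s(y, y + γ) ∈ F₁ ∧ s(y, y + γ) ∈ F₂ ∧
      ∀ F ∈ M, s(y, y + γ) ∈ F → F = F₁ ∨ F = F₂)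
    (t2 : ∀ y ∈ L, ∃ F₁ ∈ M, ∃ F₂ ∈ M, F₁ ≠ F₂ ∧ s(y, y + κ) ∈ F₁ ∧ s(y, y + κ) ∈ F₂ ∧
      ∀ F ∈ M, s(y, y + κ) ∈ F → F = F₁ ∨ F = F₂)
    (vc : ∀ x ∈ L, (∃ F ∈ M, s(x, x + γ) ∈ F ∧ s(x - γ, x - γ + γ) ∈ F) ∧
      (∃ F ∈ M, s(x, x + γ) ∈ F ∧ s(x - κ, x - κ + κ) ∈ F) ∧
      (∃ F ∈ M, s(x - γ, x - γ + γ) ∈ F ∧ s(x, x + κ) ∈ F)) : Good M := by
  have e1 : ∀ y ∈ L, IsEdge M s(y, y + γ) := fun y hy => by
    obtain ⟨F, hF, -, -, -, h, -⟩ := t1 y hy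
    exact ⟨F, hF, h⟩
  have e2 : ∀ y ∈ L, IsEdge M s(y, y + κ) := fun y hy => by
    obtain ⟨F, hF, -, -, -, h, -⟩ := t2 y hy
    exact ⟨F, hF, h⟩
  have hv : ∀ v ∈ verts M, v ∈ L := by
    rintro v ⟨F, hF, e, he, hv⟩
    obtain ⟨y, hy, rfl | rfl⟩ := hed F hF e he <;> rcases Sym2.mem_iff.1 hv with rfl | rfl
    exacts [hy, L.add_mem hy hγ, hy, L.add_mem hy hκ]
  refine ⟨?_, poly, ?_, ?_, ?_⟩
  · obtain ⟨F, hF, -⟩ := e1 0 L.zero_mem
    exact ⟨F, hF⟩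
  · have key : ∀ e, (∃ F₁ ∈ M, ∃ F₂ ∈ M, F₁ ≠ F₂ ∧ e ∈ F₁ ∧ e ∈ F₂ ∧
        ∀ F ∈ M, e ∈ F → F = F₁ ∨ F = F₂) → ∀ F ∈ M, e ∈ F →
        ∃ F' ∈ M, F' ≠ F ∧ {H | H ∈ M ∧ e ∈ H} = {F, F'} := by
      rintro e ⟨F₁, a1, F₂, a2, hne, b1, b2, hu⟩ F hF he
      have hs : {H | H ∈ M ∧ e ∈ H} = {F₁, F₂} := by
        ext H
        constructor
        · exact fun h => hu H h.1 h.2
        · rintro (rfl | rfl)
          exacts [⟨a1, b1⟩, ⟨a2, b2⟩]
      rcases hu F hF he with rfl | rfl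
      · exact ⟨F₂, a2, hne.symm, hs⟩
      · exact ⟨F₁, a1, hne, by rw [hs, Set.pair_comm]⟩
    intro F hF e he
    obtain ⟨y, hy, rfl | rfl⟩ := hed F hF e he
    · exact key _ (t1 y hy) F hF he
    · exact key _ (t2 y hy) F hF he
  · have mv : ∀ s ∈ L, (∀ y ∈ L, IsEdge M s(y, y + s)) → ∀ (i : ℤ), ∀ y ∈ L,
        ReflTransGen (fun a b => IsEdge M s(a, b)) y (y + i • s) := by
      intro s hs h i y hy
      induction i using Int.induction_on with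
      | zero => simpa using ReflTransGen.refl
      | succ i ih =>
        refine ih.tail ?_
        have := h (y + (i : ℤ) • s) (L.add_mem hy (L.zsmul_mem hs _))
        rwa [add_zsmul, one_zsmul, ← add_assoc]
      | pred i ih =>
        refine ih.tail ?_
        have := h (y + (-(i : ℤ) - 1) • s) (L.add_mem hy (L.zsmul_mem hs _))
        have e : y + (-(i : ℤ) - 1) • s + s = y + (-(i : ℤ)) • s := by module
        rwa [e, Sym2.eq_swap] at this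
    intro v h1 w h2
    obtain ⟨i, j, h⟩ := gen (w - v) (L.sub_mem (hv w h2) (hv v h1))
    have e : w = v + i • γ + j • κ := by rw [add_assoc, ← h]; abel
    rw [e]
    exact (mv γ hγ e1 i v (hv v h1)).trans
      (mv κ hκ e2 j _ (L.add_mem (hv v h1) (L.zsmul_mem hγ _)))
  · intro x e e' h1 h2 m1 m2
    have hx := hv x (h1.vert m1)
    obtain ⟨c1, c2, c3⟩ := vc x hx
    let R : Sym2 G → Sym2 G → Prop := fun a b => x ∈ b ∧ ∃ F ∈ M, a ∈ F ∧ b ∈ F
    have sw : ∀ {a b : Sym2 G}, (∃ F ∈ M, a ∈ F ∧ b ∈ F) → ∃ F ∈ M, b ∈ F ∧ a ∈ F :=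
      fun ⟨F, h1, h2, h3⟩ => ⟨F, h1, h3, h2⟩
    have key : ∀ e, IsEdge M e → x ∈ e →
        ReflTransGen R s(x, x + γ) e ∧ ReflTransGen R e s(x, x + γ) := by
      rintro e ⟨F, hF, he⟩ hm
      obtain ⟨y, -, rfl | rfl⟩ := hed F hF e he <;> rcases Sym2.mem_iff.1 hm with h | h
      · subst h
        exact ⟨.refl, .refl⟩
      · obtain rfl : y = x - γ := by rw [h]; abel
        exact ⟨.single ⟨hm, c1⟩, .single ⟨by simp, sw c1⟩⟩
      · subst h
        exact ⟨(ReflTransGen.single ⟨by simp, c1⟩).tail ⟨hm, c3⟩,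
          (ReflTransGen.single ⟨by simp, sw c3⟩).tail ⟨by simp, sw c1⟩⟩
      · obtain rfl : y = x - κ := by rw [h]; abel
        exact ⟨.single ⟨hm, c2⟩, .single ⟨by simp, sw c2⟩⟩
    exact (key e h1 m1).2.trans (key e' h2 m2).1

end Pool.Agent.P.MP_708877_co
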