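import Pool.Agent.P.MP_708877_co.Scheme

/-!
The three schemes of model polyhedra are polyhedra.
-/

namespace Pool.Agent.P.MP_708877_co

variable {G : Type} [AddCommGroup G] {π : G →+ ZMod 2} {L : AddSubgroup G}

theorem ne_of_par {γ κ : G} (h : π γ ≠ π κ) : γ ≠ κ := fun e => h (by rw [e])

theorem add_ne_of_par {γ κ : G} (h : π γ ≠ π κ) : γ + κ ≠ 0 := fun e => h (by
  rw [eq_neg_of_add_eq_zero_left e, map_neg, zmod2_neg])

theorem line_edges {s : G} (hs : s ∈ L) {F : Set (Sym2 G)} (hF : F ∈ fam L (line s))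
    {e : Sym2 G} (he : e ∈ F) : ∃ y ∈ L, e = s(y, y + s) := by
  obtain ⟨x, hx, rfl⟩ := hF
  obtain ⟨k, rfl⟩ := mem_line.1 he
  exact ⟨_, L.add_mem hx (L.zsmul_mem hs k), rfl⟩

/-! ### Parallelograms -/

theorem fK_add {κ γ : G} (h2 : γ + γ = 0) (x : G) : fK κ γ (x + γ) = fK κ γ x := by
  have e1 : x + γ + γ = x := by rw [add_assoc, h2, add_zero]
  have e2 : x + γ + κ + γ = x + κ := by
    rw [add_right_comm (x + γ), e1]
  have e3 : x + κ + γ = x + γ + κ := add_right_comm _ _ _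
  ext e
  simp only [fK, Set.mem_ofPred_eq, e1, e2, e3, Sym2.eq_swap (a := x + γ) (b := x),
    Sym2.eq_swap (a := x + γ + κ) (b := x + κ)]
  tauto

theorem fK_kappa {κ γ x y : G} (h : π γ ≠ π κ) (h2 : γ + γ = 0) (hk : κ + κ ≠ 0)
    (hm : s(y, y + κ) ∈ fK κ γ x) : fK κ γ x = fK κ γ y := by
  rcases hm with e | e | e | e
  · rcases step_eq.1 e with rfl | e
    · rfl
    · exact absurd e.2 hk
  · rcases step_eq.1 e with rfl | e
    · rw [fK_add h2]
    · exact absurd e.2 hk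
  · exact absurd e (step_ne h.symm _ _)
  · exact absurd e (step_ne h.symm _ _)

theorem fK_gamma {κ γ x y : G} (h : π γ ≠ π κ) (h2 : γ + γ = 0)
    (hm : s(y, y + γ) ∈ fK κ γ x) : fK κ γ x = fK κ γ y ∨ fK κ γ x = fK κ γ (y - κ) := by
  rcases hm with e | e | e | e
  · exact absurd e (step_ne h _ _)
  · exact absurd e (step_ne h _ _)
  · rcases step_eq.1 e with rfl | ⟨rfl, -⟩
    · exact Or.inl rfl
    · exact Or.inl (fK_add h2 x).symm
  · rcases step_eq.1 e with rfl | ⟨rfl, -⟩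
    · exact Or.inr (by rw [add_sub_cancel_right])
    · refine Or.inr ?_
      rw [add_right_comm, add_sub_cancel_right, fK_add h2]

theorem polygon_fK {κ γ : G} (h : π γ ≠ π κ) (h0 : γ ≠ 0) (hk : κ + κ ≠ 0) (x : G) :
    IsPolygon (fK κ γ x) := by
  have hk0 : κ ≠ 0 := fun e => hk (by simp [e])
  have : fK κ γ x = edges ![x, x + κ, x + κ + γ, x + γ] := by
    rw [edges_four]
    ext e
    simp only [fK, Set.mem_ofPred_eq, add_right_comm x γ κ,
      Sym2.eq_swap (a := x + γ) (b := x), Sym2.eq_swap (a := x + κ + γ) (b := x + γ)]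
    tauto
  rw [this]
  have a1 := add_ne_of_par h.symm
  have a2 := ne_of_par h.symm
  refine polygon_four ?_ ?_ ?_ ?_ ?_ ?_ <;> simp [add_assoc, hk0, h0, a1, a2]

theorem good_K {κ γ : G} (hκ : κ ∈ L) (hγ : γ ∈ L) (gen : ∀ x ∈ L, ∃ i j : ℤ, x = i • κ + j • γ)
    (h : π γ ≠ π κ) (h0 : γ ≠ 0) (h2 : γ + γ = 0) (hk : κ + κ ≠ 0) :
    Good (fam L (fK κ γ) ∪ fam L (line κ)) := by
  have hk0 : κ ≠ 0 := fun e => hk (by simp [e])
  refine good_of hκ hγ gen ?_ ?_ ?_ ?_ ?_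
  · rintro F (⟨x, -, rfl⟩ | ⟨x, -, rfl⟩)
    exacts [polygon_fK h h0 hk x, polygon_line hk x]
  · rintro F (⟨x, hx, rfl⟩ | hF) e he
    · rcases he with rfl | rfl | rfl | rfl
      exacts [⟨_, hx, Or.inl rfl⟩, ⟨_, L.add_mem hx hγ, Or.inl rfl⟩, ⟨_, hx, Or.inr rfl⟩,
        ⟨_, L.add_mem hx hκ, Or.inr rfl⟩]
    · obtain ⟨y, hy, rfl⟩ := line_edges hκ hF he
      exact ⟨y, hy, Or.inl rfl⟩
  · intro y hy
    refine ⟨_, Or.inl ⟨y, hy, rfl⟩, _, Or.inr ⟨y, hy, rfl⟩, fun e => ?_, Or.inl rfl,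
      self_mem_line _ _, ?_⟩
    · exact not_mem_line h y y (e ▸ Or.inr (Or.inr (Or.inl rfl)))
    · rintro F (⟨x, -, rfl⟩ | ⟨x, -, rfl⟩) hm
      exacts [Or.inl (fK_kappa h h2 hk hm), Or.inr (line_eq_of_mem hm)]
  · intro y hy
    refine ⟨_, Or.inl ⟨y, hy, rfl⟩, _, Or.inl ⟨y - κ, L.sub_mem hy hκ, rfl⟩, fun e => ?_,
      Or.inr (Or.inr (Or.inl rfl)), Or.inr (Or.inr (Or.inr (by simp))), ?_⟩
    · have hm : s(y, y + κ) ∈ fK κ γ (y - κ) := e ▸ Or.inl rfl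
      rcases hm with e | e | e | e
      · rcases step_eq.1 e with e | e
        · exact hk0 (by simpa [eq_sub_iff_add_eq] using e)
        · exact hk e.2
      · rcases step_eq.1 e with e | e
        · apply ne_of_par h
          linear_combination (norm := abel1) -e
        · exact hk e.2
      · exact step_ne h.symm _ _ e
      · exact step_ne h.symm _ _ e
    · rintro F (⟨x, -, rfl⟩ | ⟨x, -, rfl⟩) hm
      exacts [fK_gamma h h2 hm, absurd hm (not_mem_line h _ _)]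
  · intro x hx
    refine ⟨⟨_, Or.inr ⟨x, hx, rfl⟩, self_mem_line _ _, prev_mem_line _ _⟩,
      ⟨_, Or.inl ⟨x, hx, rfl⟩, Or.inl rfl, Or.inr (Or.inr (Or.inl ?_))⟩,
      ⟨_, Or.inl ⟨x - κ, L.sub_mem hx hκ, rfl⟩, Or.inl rfl, Or.inr (Or.inr (Or.inr (by simp)))⟩⟩
    rw [sub_add_cancel, Sym2.eq_swap, sub_eq_add_neg, neg_eq_of_add_eq_zero_left h2]

/-! ### Staircase quadrilaterals -/

theorem fZ_add {α β : G} (h2 : α + β + (α + β) = 0) (x : G) : fZ α β (x + α + β) = fZ α β x := by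
  have e1 : x + α + β + α + β = x := by linear_combination (norm := abel1) h2
  ext e
  simp only [fZ, Set.mem_ofPred_eq, e1]
  tauto

theorem fZ_swap {α β : G} (h2 : α + β + (α + β) = 0) (x : G) : fZ β α (x + α) = fZ α β x := by
  have e1 : x + α + β + α + β = x := by linear_combination (norm := abel1) h2
  ext e
  simp only [fZ, Set.mem_ofPred_eq, e1]
  tauto

theorem fZ_alpha {α β x y : G} (h : π α ≠ π β) (h2 : α + β + (α + β) = 0) (hk : α + α ≠ 0)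
    (hm : s(y, y + α) ∈ fZ α β x) : fZ α β x = fZ α β y := by
  rcases hm with e | e | e | e
  · rcases step_eq.1 e with rfl | e
    · rfl
    · exact absurd e.2 hk
  · rcases step_eq.1 e with rfl | e
    · rw [fZ_add h2]
    · exact absurd e.2 hk
  · exact absurd e (step_ne h _ _)
  · exact absurd e (step_ne h _ _)

theorem polygon_fZ {α β : G} (h : π α ≠ π β) (h2 : α + β + (α + β) = 0) (hk : α + α ≠ 0) (x : G) :
    IsPolygon (fZ α β x) := by
  have e1 : x + α + β + α + β = x := by linear_combination (norm := abel1) h2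
  have hb : β + β ≠ 0 := fun e => hk (by linear_combination (norm := abel1) h2 - e)
  have ha0 : α ≠ 0 := fun e => hk (by simp [e])
  have hb0 : β ≠ 0 := fun e => hb (by simp [e])
  have : fZ α β x = edges ![x, x + α, x + α + β, x + α + β + α] := by
    rw [edges_four]
    ext e
    simp only [fZ, Set.mem_ofPred_eq, e1]
    tauto
  rw [this]
  have a1 := add_ne_of_par h
  have a2 := add_ne_of_par h.symm
  have a3 : α + (β + α) ≠ 0 := fun e => hb0 (by linear_combination (norm := abel1) h2 - e)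
  refine polygon_four ?_ ?_ ?_ ?_ ?_ ?_ <;> simp [add_assoc, ha0, hb0, a1, a2, a3]

theorem good_Z {α β : G} (hα : α ∈ L) (hβ : β ∈ L) (gen : ∀ x ∈ L, ∃ i j : ℤ, x = i • α + j • β)
    (h : π α ≠ π β) (h2 : α + β + (α + β) = 0) (hk : α + α ≠ 0) :
    Good (fam L (fZ α β) ∪ fam L (line α) ∪ fam L (line β)) := by
  have hb : β + β ≠ 0 := fun e => hk (by linear_combination (norm := abel1) h2 - e)
  have h2' : β + α + (β + α) = 0 := by rw [add_comm β α, h2]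
  refine good_of hα hβ gen ?_ ?_ ?_ ?_ ?_
  · rintro F ((⟨x, -, rfl⟩ | ⟨x, -, rfl⟩) | ⟨x, -, rfl⟩)
    exacts [polygon_fZ h h2 hk x, polygon_line hk x, polygon_line hb x]
  · rintro F ((⟨x, hx, rfl⟩ | hF) | hF) e he
    · rcases he with rfl | rfl | rfl | rfl
      exacts [⟨_, hx, Or.inl rfl⟩, ⟨_, L.add_mem (L.add_mem hx hα) hβ, Or.inl rfl⟩,
        ⟨_, L.add_mem hx hα, Or.inr rfl⟩,
        ⟨_, L.add_mem (L.add_mem (L.add_mem hx hα) hβ) hα, Or.inr rfl⟩]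
    · obtain ⟨y, hy, rfl⟩ := line_edges hα hF he
      exact ⟨y, hy, Or.inl rfl⟩
    · obtain ⟨y, hy, rfl⟩ := line_edges hβ hF he
      exact ⟨y, hy, Or.inr rfl⟩
  · intro y hy
    refine ⟨_, Or.inl (Or.inl ⟨y, hy, rfl⟩), _, Or.inl (Or.inr ⟨y, hy, rfl⟩), fun e => ?_,
      Or.inl rfl, self_mem_line _ _, ?_⟩
    · exact not_mem_line h.symm (y + α) y (e ▸ Or.inr (Or.inr (Or.inl rfl)))
    · rintro F ((⟨x, -, rfl⟩ | ⟨x, -, rfl⟩) | ⟨x, -, rfl⟩) hm
      exacts [Or.inl (fZ_alpha h h2 hk hm), Or.inr (line_eq_of_mem hm),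
        absurd hm (not_mem_line h _ _)]
  · intro y hy
    refine ⟨_, Or.inl (Or.inl ⟨y - α, L.sub_mem hy hα, rfl⟩), _, Or.inr ⟨y, hy, rfl⟩, fun e => ?_,
      Or.inr (Or.inr (Or.inl (by simp))), self_mem_line _ _, ?_⟩
    · exact not_mem_line h (y - α) y (e ▸ Or.inl rfl)
    · rintro F ((⟨x, -, rfl⟩ | ⟨x, -, rfl⟩) | ⟨x, -, rfl⟩) hm
      · left
        rw [← fZ_swap h2] at hm
        rw [← fZ_swap h2, fZ_alpha h.symm h2' hb hm, ← fZ_swap h2, sub_add_cancel]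
      · exact absurd hm (not_mem_line h.symm _ _)
      · exact Or.inr (line_eq_of_mem hm)
  · intro x hx
    refine ⟨⟨_, Or.inl (Or.inr ⟨x, hx, rfl⟩), self_mem_line _ _, prev_mem_line _ _⟩,
      ⟨_, Or.inl (Or.inl ⟨x, hx, rfl⟩), Or.inl rfl, Or.inr (Or.inr (Or.inr ?_))⟩,
      ⟨_, Or.inl (Or.inl ⟨x - α, L.sub_mem hx hα, rfl⟩), Or.inl rfl,
        Or.inr (Or.inr (Or.inl (by simp)))⟩⟩
    have : x - β = x + α + β + α := by linear_combination (norm := abel1) -h2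
    rw [this]

/-! ### Triangles and hexagons -/

theorem fP_add {γ κ : G} (h2 : γ + γ + κ + (γ + γ + κ) = 0) (x : G) :
    fP γ κ (x + (γ + γ + κ)) = fP γ κ x := by
  have e1 : x + (γ + γ + κ) + (γ + γ + κ) = x := by rw [add_assoc, h2, add_zero]
  ext e
  simp only [fP, Set.mem_ofPred_eq, e1]
  tauto

theorem fP_gamma {γ κ x y : G} (h : π γ ≠ π κ) (_h2 : γ + γ + κ + (γ + γ + κ) = 0)
    (hg : γ + γ ≠ 0) (hm : s(y, y + γ) ∈ fP γ κ x) :
    y = x ∨ y = x + γ ∨ y = x + (γ + γ + κ) ∨ y = x + (γ + γ + κ) + γ := by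
  rcases hm with e | e | e | e | e | e
  · exact Or.inl ((step_eq.1 e).resolve_right fun e => hg e.2)
  · exact Or.inr (Or.inl ((step_eq.1 e).resolve_right fun e => hg e.2))
  · exact Or.inr (Or.inr (Or.inl ((step_eq.1 e).resolve_right fun e => hg e.2)))
  · exact Or.inr (Or.inr (Or.inr ((step_eq.1 e).resolve_right fun e => hg e.2)))
  · exact absurd e (step_ne h _ _)
  · exact absurd e (step_ne h _ _)

theorem fP_gamma' {γ κ x y : G} (h : π γ ≠ π κ) (h2 : γ + γ + κ + (γ + γ + κ) = 0)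
    (hg : γ + γ ≠ 0) (hm : s(y, y + γ) ∈ fP γ κ x) :
    fP γ κ x = fP γ κ y ∨ fP γ κ x = fP γ κ (y - γ) := by
  rcases fP_gamma h h2 hg hm with rfl | rfl | rfl | rfl
  · exact Or.inl rfl
  · exact Or.inr (by rw [add_sub_cancel_right])
  · exact Or.inl (fP_add h2 x).symm
  · exact Or.inr (by rw [add_sub_cancel_right, fP_add h2])

theorem fP_kappa {γ κ x y : G} (h : π γ ≠ π κ) (h2 : γ + γ + κ + (γ + γ + κ) = 0)
    (hm : s(y, y + κ) ∈ fP γ κ x) :
    fP γ κ x = fP γ κ (y - γ - γ) ∨ (fP γ κ x = fP γ κ y ∧ κ + κ = 0) := by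
  rcases hm with e | e | e | e | e | e
  · exact absurd e (step_ne h.symm _ _)
  · exact absurd e (step_ne h.symm _ _)
  · exact absurd e (step_ne h.symm _ _)
  · exact absurd e (step_ne h.symm _ _)
  · rcases step_eq.1 e with rfl | ⟨rfl, e'⟩
    · exact Or.inl (by simp)
    · refine Or.inr ⟨?_, e'⟩
      rw [← fP_add h2 x]
      congr 1
      abel
  · rcases step_eq.1 e with rfl | ⟨rfl, e'⟩
    · exact Or.inl (by simp [fP_add h2])
    · refine Or.inr ⟨?_, e'⟩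
      congr 1
      linear_combination (norm := abel1) -h2

theorem fP_ne {γ κ : G} (h : π γ ≠ π κ) (h2 : γ + γ + κ + (γ + γ + κ) = 0)
    (hg : γ + γ ≠ 0) (hk : κ ≠ 0) (y : G) : s(y, y + γ) ∉ fP γ κ (y - γ - γ) := by
  intro hm
  rcases fP_gamma h h2 hg hm with e | e | e | e
  · exact hg (by linear_combination (norm := abel1) e)
  · have : γ = 0 := by linear_combination (norm := abel1) e
    exact hg (by simp [this])
  · exact hk (by linear_combination (norm := abel1) -e)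
  · exact add_ne_of_par h (by linear_combination (norm := abel1) -e)

theorem fP_ne' {γ κ : G} (h : π γ ≠ π κ) (h2 : γ + γ + κ + (γ + γ + κ) = 0)
    (hg : γ + γ ≠ 0) (hk : κ ≠ 0) (y : G) : fP γ κ y ≠ fP γ κ (y - γ) := by
  intro e
  apply fP_ne h h2 hg hk (y + γ)
  rw [add_sub_cancel_right, ← e]
  exact Or.inr (Or.inl rfl)

theorem good_P {γ κ : G} (hγ : γ ∈ L) (hκ : κ ∈ L) (gen : ∀ x ∈ L, ∃ i j : ℤ, x = i • γ + j • κ)
    (h : π γ ≠ π κ) (h2 : γ + γ + κ + (γ + γ + κ) = 0) (hg : γ + γ ≠ 0) (hk : κ ≠ 0)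
    (hp : ∀ x, IsPolygon (fP γ κ x)) {N : Set (Set (Sym2 G))}
    (hN : (κ + κ ≠ 0 ∧ N = fam L (line κ)) ∨ (κ + κ = 0 ∧ N = ∅)) :
    Good (fam L (fP γ κ) ∪ N) := by
  have hw : γ + γ + κ ∈ L := L.add_mem (L.add_mem hγ hγ) hκ
  have hN' : ∀ F ∈ N, κ + κ ≠ 0 ∧ F ∈ fam L (line κ) := by
    rcases hN with ⟨a, rfl⟩ | ⟨-, rfl⟩
    · exact fun F hF => ⟨a, hF⟩
    · exact fun F hF => hF.elim
  refine good_of hγ hκ gen ?_ ?_ ?_ ?_ ?_
  · rintro F (⟨x, -, rfl⟩ | hF)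
    · exact hp x
    · obtain ⟨a, x, -, rfl⟩ := hN' F hF
      exact polygon_line a x
  · rintro F (⟨x, hx, rfl⟩ | hF) e he
    · rcases he with rfl | rfl | rfl | rfl | rfl | rfl
      exacts [⟨_, hx, Or.inl rfl⟩, ⟨_, L.add_mem hx hγ, Or.inl rfl⟩,
        ⟨_, L.add_mem hx hw, Or.inl rfl⟩, ⟨_, L.add_mem (L.add_mem hx hw) hγ, Or.inl rfl⟩,
        ⟨_, L.add_mem (L.add_mem hx hγ) hγ, Or.inr rfl⟩,
        ⟨_, L.add_mem (L.add_mem (L.add_mem hx hw) hγ) hγ, Or.inr rfl⟩]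
    · obtain ⟨y, hy, rfl⟩ := line_edges hκ (hN' F hF).2 he
      exact ⟨y, hy, Or.inr rfl⟩
  · intro y hy
    refine ⟨_, Or.inl ⟨y, hy, rfl⟩, _, Or.inl ⟨y - γ, L.sub_mem hy hγ, rfl⟩,
      fP_ne' h h2 hg hk y, Or.inl rfl, Or.inr (Or.inl (by simp)), ?_⟩
    rintro F (⟨x, -, rfl⟩ | hF) hm
    · exact fP_gamma' h h2 hg hm
    · obtain ⟨-, x, -, rfl⟩ := hN' F hF
      exact absurd hm (not_mem_line h _ _)
  · intro y hy
    have m1 : s(y, y + κ) ∈ fP γ κ (y - γ - γ) :=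
      Or.inr (Or.inr (Or.inr (Or.inr (Or.inl (by simp)))))
    have m0 : fP γ κ (y - γ - γ) ∈ fam L (fP γ κ) ∪ N :=
      Or.inl ⟨y - γ - γ, L.sub_mem (L.sub_mem hy hγ) hγ, rfl⟩
    rcases hN with ⟨a, rfl⟩ | ⟨a, rfl⟩
    · refine ⟨_, m0, _, Or.inr ⟨y, hy, rfl⟩, fun e => ?_, m1, self_mem_line _ _, ?_⟩
      · exact not_mem_line h (y - γ - γ) y (e ▸ Or.inl rfl)
      · rintro F (⟨x, -, rfl⟩ | ⟨x, -, rfl⟩) hm
        · exact Or.inl ((fP_kappa h h2 hm).resolve_right fun e => a e.2)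
        · exact Or.inr (line_eq_of_mem hm)
    · refine ⟨_, m0, _, Or.inl ⟨y, hy, rfl⟩, fun e => ?_, m1, ?_, ?_⟩
      · exact fP_ne h h2 hg hk y (e ▸ Or.inl rfl)
      · refine Or.inr (Or.inr (Or.inr (Or.inr (Or.inr ?_))))
        rw [Sym2.eq_swap]
        congr 1
        · linear_combination (norm := abel1) a - h2
        · linear_combination (norm := abel1) -h2
      · rintro F (⟨x, -, rfl⟩ | hF) hm
        · exact (fP_kappa h h2 hm).imp_right fun e => e.1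
        · exact hF.elim
  · intro x hx
    refine ⟨⟨_, Or.inl ⟨x - γ, L.sub_mem hx hγ, rfl⟩, Or.inr (Or.inl (by simp)), Or.inl rfl⟩,
      ⟨_, Or.inl ⟨x, hx, rfl⟩, Or.inl rfl, Or.inr (Or.inr (Or.inr (Or.inr (Or.inr ?_))))⟩,
      ⟨_, Or.inl ⟨x - γ - γ, L.sub_mem (L.sub_mem hx hγ) hγ, rfl⟩, Or.inr (Or.inl (by simp)),
        Or.inr (Or.inr (Or.inr (Or.inr (Or.inl (by simp)))))⟩⟩
    have : x - κ = x + (γ + γ + κ) + γ + γ := by linear_combination (norm := abel1) -h2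
    rw [this]

end Pool.Agent.P.MP_708877_co
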